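import Pool.Agent.Work.MP_da56a7_lc.C.Stmts

set_option autoImplicit false

open MeasureTheory Set Filter

namespace Pool.Agent.Work.MP_da56a7_lc.C

open Pool.Agent.Work.MP_da56a7_lc.B

/-- composition of all items -/
theorem compose (pBits : S_Bits) (pRec : StRec) (pAD : StAD) (pMeasA : StMeasA) (pQ : StQ)
    (pQM : StQM) (pKM : StQM → StKM) (pThr : StQ → StThr) (pHit : StQ → StHit) (pCnt : StCnt)
    (pBad : StCnt → StBad) (pMain : StMeasA → StKM → StThr → StHit → StBad → StMain)
    (pTX : S_Bits → StRec → StAD → StMain → StTX) (pB2C : StB2C) (pDomU : StDomU)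
    (pCrit : StTX → StB2C → StDomU → StCrit) (pCofD : StCofD)
    (pFinA : StCrit → StCofD → StDomU → StFinA) (pCoin : StCoin) (pWF : StWF)
    (pGap : StCoin → StWF → StGap) (pNC : StWF → StNC) (pReg : StReg) (pPP : StPP)
    (pSeq : StSeq) (pProd : StPP → StSeq → StProd) (pSum : StSum)
    (pCase1 : StGap → StProd → StCase1) (pCase2 : StGap → StProd → StSum → StCase2)
    (pCase3 : StGap → StSum → StCase3)
    (pChoice : StWF → StCase1 → StCase2 → StCase3 → StChoice) (pScale : StWF → StScale)
    (pFinB : StCrit → StCofD → StDomU → StNC → StReg → StChoice → StFinB) :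
    StFinA ∧ StFinB ∧ StScale := by
  have hMain : StMain := pMain pMeasA (pKM pQM) (pThr pQ) (pHit pQ) (pBad pCnt)
  have hCrit : StCrit := pCrit (pTX pBits pRec pAD hMain) pB2C pDomU
  have hGap : StGap := pGap pCoin pWF
  have hProd : StProd := pProd pPP pSeq
  have hCh : StChoice :=
    pChoice pWF (pCase1 hGap hProd) (pCase2 hGap hProd pSum) (pCase3 hGap pSum)
  exact ⟨pFinA hCrit pCofD pDomU, pFinB hCrit pCofD pDomU (pNC pWF) pReg hCh, pScale pWF⟩

end Pool.Agent.Work.MP_da56a7_lc.C
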