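import Pool.Agent.Work.MP_da56a7_lc.C.Stmts

set_option autoImplicit false

/-!
# MP_da56a7_lc, block C, item AD: almost disjointness
-/

open MeasureTheory Set Filter

namespace Pool.Agent.Work.MP_da56a7_lc.C

open Pool.Agent.Work.MP_da56a7_lc.B

namespace IAD

theorem fin_lt (u : ℕ → ℕ) (hu : StrictMono u) (M : ℕ) : {k | Nf u k < M}.Finite :=
  (Set.finite_Iio (u M)).subset fun k hk => (pr_Nf u hu).2 M k hk

theorem closed_sep (C : Set Y) (hC : IsClosed C) (s : Y) (hs : s ∉ C) :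
    ∃ n₀ : ℕ, ∀ y ∈ C, ¬ ∀ m, m < n₀ → y m = s m := by
  have ho : IsOpen Cᶜ := hC.isOpen_compl
  rw [isOpen_pi_iff] at ho
  obtain ⟨I, w, hw, hsub⟩ := ho s hs
  refine ⟨I.sup id + 1, fun y hy hag => ?_⟩
  have hmem : y ∈ (I : Set ℕ).pi w := by
    intro a ha
    have h1 : a < I.sup id + 1 := Nat.lt_succ_of_le (Finset.le_sup (f := id) ha)
    rw [hag a h1]
    exact (hw a ha).2
  exact hsub hmem hy

theorem below {I X T1 T2 : Type} [LinearOrder I] (b : I → ℕ → Set X)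
    (e : I → I → ℕ) (g : T2 → ℕ → ℕ) (S : T1 × T2 → Y) (F : T1 → ℕ → Set Y)
    (Ex : T1 → Set (T1 × T2)) (idx : T1 → T1 × T2 → ℕ) (A : I → T1 × T2 → X → Set ℕ)
    (hg : ∀ t, StrictMono (g t)) (hF : ∀ t l, IsClosed (F t l))
    (hE : ∀ t u, u ∉ Ex t → ∀ l, S u ∉ F t l) (hA : IsSysT b e g S F Ex idx A)
    (α : I) (t : T1 × T2) (β : I) (u : T1 × T2) (x : X) (hβ : β < α) :
    (A α t x ∩ A β u x).Finite := by
  by_cases hu : u ∈ Ex t.1
  · refine ((fin_lt (g t.2) (hg t.2) (e α β)).union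
      (fin_lt (g t.2) (hg t.2) (idx t.1 u))).subset ?_
    rintro k ⟨hk1, hk2⟩
    by_contra hc
    rw [Set.mem_union, not_or] at hc
    obtain ⟨h1, h2⟩ := hc
    have h1' : e α β ≤ Nf (g t.2) k := not_lt.1 h1
    have h2' : idx t.1 u ≤ Nf (g t.2) k := not_lt.1 h2
    exact ((((hA α t x k).1 hk1).2.2 β hβ h1').2 u hu h2') hk2
  · obtain ⟨n₀, hn⟩ := closed_sep (F t.1 (e α β)) (hF t.1 (e α β)) (S u) (hE t.1 u hu _)
    refine (((fin_lt (g t.2) (hg t.2) (e α β)).union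
      (fin_lt (g t.2) (hg t.2) n₀)).union (fin_lt (g u.2) (hg u.2) n₀)).subset ?_
    rintro k ⟨hk1, hk2⟩
    by_contra hc
    rw [Set.mem_union, Set.mem_union, not_or, not_or] at hc
    obtain ⟨⟨h1, h2⟩, h3⟩ := hc
    have h1' : e α β ≤ Nf (g t.2) k := not_lt.1 h1
    have h2' : n₀ ≤ Nf (g t.2) k := not_lt.1 h2
    have h3' : n₀ ≤ Nf (g u.2) k := not_lt.1 h3
    obtain ⟨y, hy, hym⟩ := (((hA α t x k).1 hk1).2.2 β hβ h1').1
    have hu2 := ((hA β u x k).1 hk2).2.1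
    apply hn y hy
    intro m hm
    have e1 := hym m (lt_of_lt_of_le hm h2')
    have e2 := hu2 m (lt_of_lt_of_le hm h3')
    have e3 : y m = true ↔ S u m = true := e1.symm.trans e2
    exact Bool.eq_iff_iff.2 e3

end IAD

open IAD

theorem pr_AD : StAD := by
  intro I X T1 T2 _ b e g S F Ex idx A hg hS hF hE hA
  refine ⟨?_, ?_⟩
  · intro α t β u x hne
    rcases lt_trichotomy β α with h | h | h
    · exact below b e g S F Ex idx A hg hF hE hA α t β u x h
    · subst h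
      have htu : t ≠ u := fun h => hne (by rw [h])
      have hSne : S t ≠ S u := fun h => htu (hS h)
      obtain ⟨m, hm⟩ := Function.ne_iff.1 hSne
      refine ((fin_lt (g t.2) (hg t.2) (m + 1)).union
        (fin_lt (g u.2) (hg u.2) (m + 1))).subset ?_
      rintro k ⟨hk1, hk2⟩
      by_contra hc
      rw [Set.mem_union, not_or] at hc
      obtain ⟨h1, h2⟩ := hc
      have h1' : m + 1 ≤ Nf (g t.2) k := not_lt.1 h1
      have h2' : m + 1 ≤ Nf (g u.2) k := not_lt.1 h2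
      have e1 := ((hA β t x k).1 hk1).2.1 m (by omega)
      have e2 := ((hA β u x k).1 hk2).2.1 m (by omega)
      exact hm (Bool.eq_iff_iff.2 (e1.symm.trans e2))
    · rw [Set.inter_comm]
      exact below b e g S F Ex idx A hg hF hE hA β u α t x h
  · intro α t x j
    refine (fin_lt (g t.2) (hg t.2) j).subset ?_
    rintro k ⟨hk1, hk2⟩
    have h1 := ((hA α t x k).1 hk1).1
    have h2 : val k = j := hk2
    rw [h2] at h1
    exact h1

end Pool.Agent.Work.MP_da56a7_lc.C
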