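import Pool.Agent.Work.MP_da56a7_lc.C.Stmts

set_option autoImplicit false

/-!
# MP_da56a7_lc, block C, item B2C: Borel sets as unions of closed sets
-/

open MeasureTheory Set Filter

namespace Pool.Agent.Work.MP_da56a7_lc.C

open Pool.Agent.Work.MP_da56a7_lc.B

namespace IB2C

/-- the functions below `h` form a compact set -/
theorem compact (h : ℕ → ℕ) : IsCompact {y : ℕ → ℕ | ∀ n, y n ≤ h n} := by
  have h1 : {y : ℕ → ℕ | ∀ n, y n ≤ h n} = Set.pi univ (fun n => Iic (h n)) := by
    ext y
    exact ⟨fun hy n _ => hy n, fun hy n => hy n (mem_univ n)⟩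
  rw [h1]
  exact isCompact_univ_pi fun n => (finite_Iic (h n)).isCompact

theorem polish : PolishSpace Y := by
  have h1 : TopologicalSpace.IsCompletelyMetrizableSpace Bool := inferInstance
  have h2 : TopologicalSpace.IsCompletelyMetrizableSpace (ℕ → Bool) :=
    TopologicalSpace.IsCompletelyMetrizableSpace.pi_countable
  exact {}

end IB2C

theorem pr_B2C : StB2C := by
  classical
  intro T D hD B hB
  have hP : PolishSpace Y := IB2C.polish
  have h1 : ∀ t, ∃ C : T → Set Y, (∀ u, IsClosed (C u)) ∧ ⋃ u, C u = B t := by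
    intro t
    have ha := (hB t).analyticSet
    rw [AnalyticSet] at ha
    rcases ha with h | ⟨f, hf, hr⟩
    · refine ⟨fun _ => ∅, fun _ => isClosed_empty, ?_⟩
      rw [h]
      simp
    · refine ⟨fun u => f '' {y | ∀ n, y n ≤ D u n},
        fun u => ((IB2C.compact (D u)).image hf).isClosed, ?_⟩
      rw [← hr]
      ext z
      rw [mem_iUnion]
      constructor
      · rintro ⟨u, y, -, rfl⟩
        exact ⟨y, rfl⟩
      · rintro ⟨y, rfl⟩
        obtain ⟨u, hu⟩ := hD y
        exact ⟨u, y, hu, rfl⟩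
  choose C hC1 hC2 using h1
  exact ⟨fun p => C p.1 p.2, fun p => hC1 p.1 p.2, hC2⟩

end Pool.Agent.Work.MP_da56a7_lc.C
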