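import Pool.Agent.Work.MP_da56a7_lc.C.Stmts

set_option autoImplicit false

/-!
# MP_da56a7_lc, block C, item Bad
-/

open MeasureTheory Set Filter

namespace Pool.Agent.Work.MP_da56a7_lc.C

open Pool.Agent.Work.MP_da56a7_lc.B

theorem pr_Bad (h1 : StCnt) : StBad := by
  classical
  intro I X _ _ μ _ allM b γ F hInd n s v Kx hKx hmeas M
  set V : Set X := {x | M ≤ (Kx x).ncard ∧ ∀ k ∈ Kx x,
    ¬ ∀ m, m < n → (x ∈ b γ (Nat.pair k m) ↔ s m = true)} with hV
  set P : Finset (Finset ℕ) := (Finset.range v).powerset.filter (fun K => M ≤ K.card) with hP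
  set EK : Finset ℕ → Set X := fun K => {x | Kx x = (K : Set ℕ)} with hEK
  set BK : Finset ℕ → Set X := fun K => {x | ∀ k ∈ K,
    ¬ ∀ m, m < n → (x ∈ b γ (Nat.pair k m) ↔ s m = true)} with hBK
  have hsub : V ⊆ ⋃ K ∈ P, (EK K ∩ BK K) := by
    intro x hx
    obtain ⟨hx1, hx2⟩ := hx
    have hfin : (Kx x).Finite := (Set.finite_Iio v).subset (hKx x)
    obtain ⟨K, hK⟩ := hfin.exists_finset_coe
    have hcard : (Kx x).ncard = K.card := by rw [← hK, Set.ncard_coe_finset]
    simp only [mem_iUnion, exists_prop]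
    refine ⟨K, ?_, hK.symm, ?_⟩
    · rw [hP, Finset.mem_filter, Finset.mem_powerset]
      refine ⟨?_, hcard ▸ hx1⟩
      intro k hk
      have : k ∈ Kx x := by rw [← hK]; exact hk
      exact Finset.mem_range.2 (hKx x this)
    · intro k hk
      exact hx2 k (by rw [← hK]; exact hk)
  have hpair : (P : Set (Finset ℕ)).PairwiseDisjoint EK := by
    intro K _ K' _ hne
    refine Set.disjoint_left.2 ?_
    intro x hx hx'
    apply hne
    have h1 : Kx x = (K : Set ℕ) := hx
    have h2 : Kx x = (K' : Set ℕ) := hx'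
    exact Finset.coe_injective (h1.symm.trans h2)
  have hsum : ∑ K ∈ P, μ (EK K) ≤ 1 := by
    rw [← measure_biUnion_finset hpair (fun K _ => allM _)]
    exact prob_le_one
  calc (M : ENNReal) * μ V ≤ (M : ENNReal) * ∑ K ∈ P, μ (EK K ∩ BK K) := by
        gcongr
        exact (measure_mono hsub).trans (measure_biUnion_finset_le _ _)
    _ = ∑ K ∈ P, (M : ENNReal) * μ (EK K ∩ BK K) := Finset.mul_sum _ _ _
    _ ≤ ∑ K ∈ P, 2 ^ n * μ (EK K) := by
        refine Finset.sum_le_sum ?_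
        intro K hK
        rw [hP, Finset.mem_filter] at hK
        refine le_trans ?_ (h1 I X μ allM b γ (EK K) (hInd _ (hmeas K)) n s K)
        gcongr
        exact hK.2
    _ = 2 ^ n * ∑ K ∈ P, μ (EK K) := (Finset.mul_sum _ _ _).symm
    _ ≤ 2 ^ n * 1 := by gcongr
    _ = 2 ^ n := mul_one _

end Pool.Agent.Work.MP_da56a7_lc.C
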