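import Pool.Agent.Work.MP_da56a7_lc.C.Stmts2

set_option autoImplicit false

open MeasureTheory Set Filter

namespace Pool.Agent.Work.MP_da56a7_lc.C

open Pool.Agent.Work.MP_da56a7_lc.B

namespace ICA

theorem alephS (n : ℕ) :
    Cardinal.aleph ((n + 1 : ℕ) : Ordinal.{0}) = Order.succ (Cardinal.aleph (n : ℕ)) := by
  rw [Cardinal.succ_aleph]
  congr 1

/-- a countable subset of a regular uncountable cardinal is bounded -/
theorem bdd (c : Cardinal.{0}) (hreg : c.IsRegular) (hc : Cardinal.aleph0 < c)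
    (s : Set c.ord.ToType) (hs : s.Countable) : ∃ t, ∀ x ∈ s, x < t := by
  by_contra hcon
  push Not at hcon
  have hcov : (⋃ x : s, Iic (x : c.ord.ToType)) = univ := by
    rw [eq_univ_iff_forall]
    intro t
    obtain ⟨x, hx, hxt⟩ := hcon t
    exact mem_iUnion.2 ⟨⟨x, hx⟩, hxt⟩
  have hlt : ∀ x : s, Cardinal.mk (Iic (x : c.ord.ToType)) < c := by
    intro x
    have h1 : Cardinal.mk (Iio (x : c.ord.ToType)) < c := Cardinal.mk_Iio_toType_ord_lt _
    have h2 : Iic (x : c.ord.ToType) = insert (x : c.ord.ToType) (Iio (x : c.ord.ToType)) := by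
      rw [Iio_insert]
    rw [h2]
    refine lt_of_le_of_lt Cardinal.mk_insert_le ?_
    exact Cardinal.add_lt_of_lt hc.le h1 (lt_trans Cardinal.one_lt_aleph0 hc)
  have hs' : Cardinal.mk s < c := lt_of_le_of_lt (Cardinal.mk_le_aleph0_iff.2 hs.to_subtype) hc
  have h4 := (Cardinal.card_iUnion_lt_iff_forall_of_isRegular hreg hs').2 hlt
  rw [hcov, Cardinal.mk_univ, Cardinal.mk_ord_toType] at h4
  exact lt_irrefl _ h4

theorem step (a : Cardinal.{0}) (ha : Cardinal.aleph0 ≤ a) (h : CofCountable a) :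
    CofCountable (Order.succ a) := by
  classical
  obtain ⟨F, hF1, hF2⟩ := h
  have hreg : (Order.succ a).IsRegular := Cardinal.isRegular_succ ha
  have hlt : Cardinal.aleph0 < Order.succ a := lt_of_le_of_lt ha (Order.lt_succ a)
  have hj : ∀ t : (Order.succ a).ord.ToType, ∃ j : Iio t → a.ord.ToType,
      Function.Injective j := by
    intro t
    have h1 : Cardinal.mk (Iio t) < Order.succ a := Cardinal.mk_Iio_toType_ord_lt _
    have h2 : Cardinal.mk (Iio t) ≤ Cardinal.mk a.ord.ToType := by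
      rw [Cardinal.mk_ord_toType]
      exact Order.lt_succ_iff.1 h1
    obtain ⟨e⟩ := Cardinal.le_def _ _ |>.1 h2
    exact ⟨e, e.injective⟩
  choose j hj using hj
  have hcard : Cardinal.mk ((Order.succ a).ord.ToType × a.ord.ToType) =
      Cardinal.mk (Order.succ a).ord.ToType := by
    rw [Cardinal.mk_prod, Cardinal.lift_id, Cardinal.lift_id, Cardinal.mk_ord_toType,
      Cardinal.mk_ord_toType]
    exact Cardinal.mul_eq_left hlt.le (Order.le_succ a)
      (ne_of_gt (lt_of_lt_of_le Cardinal.aleph0_pos ha))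
  obtain ⟨q⟩ := Cardinal.eq.1 hcard
  refine ⟨fun p => {x | ∃ hx : x < (q.symm p).1, j (q.symm p).1 ⟨x, hx⟩ ∈ F (q.symm p).2}, ?_, ?_⟩
  · intro p
    have h1 : ((j (q.symm p).1) ⁻¹' (F (q.symm p).2)).Countable :=
      (hF1 _).preimage_of_injOn (hj _).injOn
    refine (h1.image Subtype.val).mono ?_
    rintro x ⟨hx, hx2⟩
    exact ⟨⟨x, hx⟩, hx2, rfl⟩
  · intro s hs
    obtain ⟨t, ht⟩ := bdd _ hreg hlt s hs
    have h1 : (j t '' (Subtype.val ⁻¹' s)).Countable :=
      (hs.preimage_of_injOn Subtype.val_injective.injOn).image _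
    obtain ⟨l, hl⟩ := hF2 _ h1
    have hq : q.symm (q (t, l)) = (t, l) := q.symm_apply_apply _
    refine ⟨q (t, l), fun x hx => ?_⟩
    rw [Set.mem_setOf_eq, hq]
    exact ⟨ht x hx, hl ⟨⟨x, ht x hx⟩, hx, rfl⟩⟩

end ICA

theorem pr_CA : StCA := by
  intro n
  induction n with
  | zero =>
    have h0 : Cardinal.aleph ((0 : ℕ) : Ordinal.{0}) = Cardinal.aleph0 := by simp
    have hc : Countable (Cardinal.aleph ((0 : ℕ) : Ordinal.{0})).ord.ToType := by
      rw [← Cardinal.mk_le_aleph0_iff, Cardinal.mk_ord_toType, h0]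
    have hne : Nonempty (Cardinal.aleph ((0 : ℕ) : Ordinal.{0})).ord.ToType := by
      rw [← Cardinal.mk_ne_zero_iff, Cardinal.mk_ord_toType, h0]
      exact Cardinal.aleph0_ne_zero
    exact ⟨fun _ => univ, fun _ => countable_univ, fun s _ => ⟨hne.some, subset_univ s⟩⟩
  | succ n ih =>
    rw [ICA.alephS]
    exact ICA.step _ (Cardinal.aleph0_le_aleph _) ih

end Pool.Agent.Work.MP_da56a7_lc.C
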