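import Pool.Agent.Work.MP_da56a7_lc.C.Stmts

/-! MP_da56a7_lc, block C, item Case2 (helper12). -/

set_option autoImplicit false

open MeasureTheory Set Filter

namespace Pool.Agent.Work.MP_da56a7_lc.C

open Pool.Agent.Work.MP_da56a7_lc.B

namespace ICase2

/-- covers are inherited by injective reindexing -/
theorem cov_comp {L J K : Type} {s : J → Y} (h : Cov L s) {e : K → J} (he : Function.Injective e) :
    Cov L (s ∘ e) := by
  obtain ⟨B, h1, h2, h3⟩ := h
  exact ⟨B, h1, h2, fun l x hx y hy => he (h3 l hx hy)⟩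

/-- chains are injective -/
theorem chain_inj {J : Type} [LinearOrder J] {r : Y → Y → Prop} (hr : Pre r) {s : J → Y}
    (h : Chain r s) : Function.Injective s := by
  intro i j hij
  by_contra hne
  rcases lt_or_gt_of_ne hne with hlt | hlt
  · apply (h i j hlt).2
    rw [hij]
    exact hr.refl _
  · apply (h j i hlt).2
    rw [hij]
    exact hr.refl _

/-- injective sequences of length `c < τ` with covers -/
theorem exists_cov (h1 : StGap) {τ : Cardinal.{0}} (hτ : Cardinal.aleph0 ≤ τ)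
    (hW : ∀ c, W c ↔ c < τ) {K : Type} (hK : Cardinal.mk K < τ) :
    ∃ s : K → Y, Function.Injective s ∧ Cov τ.ord.ToType s := by
  obtain ⟨r, hr, s, hs⟩ := (hW _).2 hK
  obtain ⟨c, hc, hcov⟩ := h1 r hr _ s hs
  have h2 : Cov τ.ord.ToType s := by
    refine hcov _ ?_ ?_ (fun o => ?_)
    · rw [Cardinal.mk_ord_toType]
      exact hτ
    · rw [Cardinal.mk_ord_toType, Cardinal.mk_ord_toType]
      exact hK.le
    · rw [Cardinal.mk_ord_toType]
      exact ((hW _).1 (hc o)).le
  have h3 : Cardinal.mk K = Cardinal.mk (Cardinal.mk K).ord.ToType := by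
    rw [Cardinal.mk_ord_toType]
  obtain ⟨e⟩ := Cardinal.eq.1 h3
  exact ⟨s ∘ e, (chain_inj hr hs).comp e.injective, cov_comp h2 e.injective⟩

end ICase2

/-- ITEM Case2 -/
theorem pr_Case2 (h1 : StGap) (h2 : StProd) (h3 : StSum) : StCase2 := by
  intro κ δ τ hκ hτκ hδ hWδ hW hsucc hcof
  have hδτ : δ < τ := (hW δ).1 hWδ
  have hτ0 : Cardinal.aleph0 < τ := hδ.trans hδτ
  have hlt : τ < κ := by
    rcases hτκ.lt_or_eq with h | h
    · exact h
    · exfalso
      rw [← h] at hκ
      exact absurd hcof (not_lt.2 hκ.2)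
  have hcof0 : Cardinal.aleph0 < τ.ord.cof := by
    by_contra hc
    have := h2 τ hτ0 (not_lt.1 hc) (fun c hc => (hW c).2 hc)
    exact absurd ((hW _).1 this) (not_lt.2 (Order.le_succ τ))
  refine ⟨hlt, hδτ.le, hcof0, fun c hc => (hW c).2 hc, ?_⟩
  -- a cofinal set
  obtain ⟨A, hA, hAc⟩ := Order.exists_cof_eq τ.ord.ToType
  rw [Ordinal.cof_toType] at hAc
  have hIic : ∀ x : τ.ord.ToType, Cardinal.mk (Iic x) < τ := by
    intro x
    have h4 : Iic x = insert x (Iio x) := by
      ext y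
      simp only [mem_Iic, mem_insert_iff, mem_Iio]
      exact le_iff_eq_or_lt
    rw [h4]
    refine lt_of_le_of_lt Cardinal.mk_insert_le ?_
    exact Cardinal.add_lt_of_lt hτ0.le (Cardinal.mk_Iio_toType_ord_lt x)
      (Cardinal.one_lt_aleph0.trans hτ0)
  obtain ⟨s', hs', hcs'⟩ := ICase2.exists_cov h1 hτ0.le hW (K := A) (by rw [hAc]; exact hcof)
  choose s hs hcs using fun m : A => ICase2.exists_cov h1 hτ0.le hW (K := Iic (m : τ.ord.ToType))
    (hIic m)
  obtain ⟨S, hS, hcS⟩ := h3 τ.ord.ToType A (fun m => Iic (m : τ.ord.ToType)) s' s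
    (by rw [Cardinal.mk_ord_toType]; exact hτ0.le) hs' hs hcs' hcs
  have hcard : Cardinal.mk (Σ m : A, Iic (m : τ.ord.ToType)) = Cardinal.mk τ.ord.ToType := by
    apply le_antisymm
    · rw [Cardinal.mk_sigma, Cardinal.mk_ord_toType]
      refine (Cardinal.sum_le_sum (fun m : A => Cardinal.mk (Iic (m : τ.ord.ToType)))
        (fun _ : A => τ) (fun m => (hIic m).le)).trans ?_
      rw [Cardinal.sum_const, Cardinal.lift_id, Cardinal.lift_id, hAc]
      exact (mul_le_mul' hcof.le le_rfl).trans (Cardinal.mul_eq_self hτ0.le).le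
    · refine Cardinal.mk_le_of_surjective
        (f := fun p : (Σ m : A, Iic (m : τ.ord.ToType)) => (p.2 : τ.ord.ToType)) ?_
      intro y
      obtain ⟨x, hx, hyx⟩ := hA y
      exact ⟨⟨⟨x, hx⟩, ⟨y, hyx⟩⟩, rfl⟩
  obtain ⟨e⟩ := Cardinal.eq.1 hcard
  exact ⟨S ∘ e.symm, hS.comp e.symm.injective, ICase2.cov_comp hcS e.symm.injective⟩

end Pool.Agent.Work.MP_da56a7_lc.C
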