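import Pool.Agent.Work.MP_da56a7_lc.C.Stmts

set_option autoImplicit false

/-!
# MP_da56a7_lc, block C, item Case3

The supremum of the chain lengths is a regular limit cardinal.
-/

open MeasureTheory Set Filter Cardinal

namespace Pool.Agent.Work.MP_da56a7_lc.C

open Pool.Agent.Work.MP_da56a7_lc.B

namespace ICase3

/-- a strictly increasing sequence is injective -/
theorem chain_inj {J : Type} [LinearOrder J] {r : Y → Y → Prop} (hr : Pre r) {s : J → Y}
    (h : Chain r s) : Function.Injective s := by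
  intro i j hij
  by_contra hne
  rcases lt_or_gt_of_ne hne with h1 | h1
  · refine (h i j h1).2 ?_
    rw [hij]
    exact hr.refl _
  · refine (h j i h1).2 ?_
    rw [hij]
    exact hr.refl _

/-- a chain of length `c` is covered by few Borel sets -/
theorem bound (h1 : StGap) {τ : Cardinal.{0}} (hW : ∀ c, W c ↔ c < τ) (hcof : τ.ord.cof = τ)
    (hinf : ℵ₀ < τ) (c : Cardinal.{0}) (hc : c < τ) :
    ∃ θ : Cardinal.{0}, θ < τ ∧ ∃ s : c.ord.ToType → Y, Function.Injective s ∧
      ∀ L : Type, θ ≤ #L → Cov L s := by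
  obtain ⟨r, hr, s, hs⟩ := (hW c).2 hc
  obtain ⟨f, hf, hcov⟩ := h1 r hr c.ord.ToType s hs
  have hJ : #c.ord.ToType = c := Cardinal.mk_ord_toType c
  have hO : #(Option c.ord.ToType) < τ.ord.cof := by
    rw [hcof, Cardinal.mk_option, hJ]
    exact Cardinal.add_lt_of_lt hinf.le hc (Cardinal.one_lt_aleph0.trans hinf)
  have hsup : ⨆ o, f o < τ :=
    Cardinal.iSup_lt_of_lt_cof_ord hO fun o => (hW _).1 (hf o)
  refine ⟨max (max ℵ₀ c) (⨆ o, f o), max_lt (max_lt hinf hc) hsup, s, chain_inj hr hs, ?_⟩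
  intro L hL
  refine hcov L ?_ ?_ ?_
  · exact le_trans (le_trans (le_max_left _ _) (le_max_left _ _)) hL
  · rw [hJ]
    exact le_trans (le_trans (le_max_right _ _) (le_max_left _ _)) hL
  · intro o
    exact le_trans (le_trans (le_ciSup (Cardinal.bddAbove_of_small) o) (le_max_right _ _)) hL

end ICase3

open ICase3 in
theorem pr_Case3 (h1 : StGap) (h2 : StSum) : StCase3 := by
  intro κ δ τ hτκ hδ hWδ hW hlim hcof
  have hδτ : δ < τ := (hW δ).1 hWδ
  have hinf : ℵ₀ < τ := hδ.trans hδτ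
  have h1δ : ℵ₁ ≤ δ := by
    rw [← Cardinal.succ_aleph0]
    exact Order.succ_le_of_lt hδ
  have h1τ : ℵ₁ < τ := lt_of_le_of_lt h1δ hδτ
  have key := bound h1 hW hcof hinf
  choose! θ hθ using key
  -- the index set
  let M : Type := (ℵ₁ : Cardinal.{0}).ord.ToType
  have hMc : #M = ℵ₁ := Cardinal.mk_ord_toType _
  have hnomax : NoMaxOrder M := Cardinal.noMaxOrder Cardinal.aleph0_lt_aleph_one.le
  have hne : Nonempty M := by
    rw [← Cardinal.mk_ne_zero_iff, hMc]
    exact (lt_trans Cardinal.aleph0_pos Cardinal.aleph0_lt_aleph_one).ne'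
  have hIio : ∀ m : M, #(Iio m) < τ.ord.cof := by
    intro m
    have h3 : #(Iio m) < ℵ₁ := Cardinal.mk_Iio_toType_ord_lt m
    rw [hcof]
    exact h3.trans h1τ
  let Bd : Cardinal.{0} := max δ (θ ℵ₁)
  have hBd : Bd < τ := max_lt hδτ (hθ _ h1τ).1
  let a : M → Cardinal.{0} := IsWellFounded.fix (α := M) (· < ·) fun m ih =>
    Order.succ (max Bd (⨆ x : Iio m, max (ih x.1 x.2) (θ (ih x.1 x.2))))
  have ha : ∀ m, a m = Order.succ (max Bd (⨆ x : Iio m, max (a x.1) (θ (a x.1)))) :=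
    fun m => IsWellFounded.fix_eq _ _ m
  have haτ : ∀ m, a m < τ := by
    intro m
    induction m using WellFoundedLT.induction with
    | ind m ih =>
      rw [ha m]
      refine hlim _ (max_lt hBd ?_)
      exact Cardinal.iSup_lt_of_lt_cof_ord (hIio m) fun x =>
        max_lt (ih x.1 x.2) (hθ _ (ih x.1 x.2)).1
  have hle : ∀ m m' : M, m' < m → max (a m') (θ (a m')) < a m := by
    intro m m' h
    rw [ha m]
    refine Order.lt_succ_of_le (le_trans ?_ (le_max_right _ _))
    exact le_ciSup (f := fun x : Iio m => max (a x.1) (θ (a x.1)))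
      (Cardinal.bddAbove_of_small) ⟨m', h⟩
  have hmono : StrictMono a := fun m' m h => lt_of_le_of_lt (le_max_left _ _) (hle m m' h)
  have hθa : ∀ m m' : M, m' < m → θ (a m') < a m :=
    fun m m' h => lt_of_le_of_lt (le_max_right _ _) (hle m m' h)
  have hBa : ∀ m, Bd ≤ a m := by
    intro m
    rw [ha m]
    exact (le_max_left _ _).trans (Order.le_succ _)
  -- the cardinal
  set ν : Cardinal.{0} := ⨆ m, a m with hν
  have hbdd : BddAbove (range a) := Cardinal.bddAbove_of_small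
  have haν : ∀ m, a m ≤ ν := fun m => le_ciSup hbdd m
  obtain ⟨m0⟩ := hne
  have hBν : Bd ≤ ν := (hBa m0).trans (haν m0)
  have hδν : δ ≤ ν := (le_max_left _ _).trans hBν
  have hντ : ν < τ := Cardinal.iSup_lt_of_lt_cof_ord (by rw [hcof, hMc]; exact h1τ) haτ
  have h1ν : ℵ₁ ≤ ν := h1δ.trans hδν
  have hcofν : ℵ₀ < ν.ord.cof := by
    have h3 : StrictMono fun m => (a m).ord := fun x y h => Cardinal.ord_lt_ord.2 (hmono h)
    have h4 := Ordinal.cof_iSup h3
    rw [← Ordinal.iSup_ord, ← hν] at h4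
    rw [h4]
    have h5 : Order.cof M = (ℵ₁ : Cardinal.{0}).ord.cof := Ordinal.cof_toType _
    rw [h5, Cardinal.isRegular_aleph_one.cof_ord]
    exact Cardinal.aleph0_lt_aleph_one
  have hLc : #ν.ord.ToType = ν := Cardinal.mk_ord_toType ν
  -- the chains
  obtain ⟨s', hs'i, hs'c⟩ := (hθ ℵ₁ h1τ).2
  have hch : ∀ m : M, ∃ s : (a m).ord.ToType → Y, Function.Injective s ∧
      ∀ L : Type, θ (a m) ≤ #L → Cov L s := fun m => (hθ (a m) (haτ m)).2
  choose s hsi hsc using hch
  obtain ⟨S, hSi, hSc⟩ := h2 ν.ord.ToType M (fun m => (a m).ord.ToType) s' s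
    (by rw [hLc]; exact Cardinal.aleph0_lt_aleph_one.le.trans h1ν) hs'i hsi
    (hs'c _ (by rw [hLc]; exact (le_max_right _ _).trans hBν))
    (fun m => hsc m _ (by
      rw [hLc]
      obtain ⟨m', hm'⟩ := exists_gt m
      exact (hθa m' m hm').le.trans (haν m')))
  -- the cardinality of the sum
  have hsum : #(Σ m : M, (a m).ord.ToType) = ν := by
    rw [Cardinal.mk_sigma]
    have e1 : (Cardinal.sum fun m : M => #(a m).ord.ToType) = Cardinal.sum a := by
      congr 1
      funext m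
      exact Cardinal.mk_ord_toType _
    rw [e1]
    refine le_antisymm ?_ ?_
    · refine (Cardinal.sum_le_mk_mul_iSup a).trans ?_
      rw [hMc, ← hν]
      exact (Cardinal.mul_le_max_of_aleph0_le_left Cardinal.aleph0_lt_aleph_one.le).trans
        (max_le h1ν le_rfl)
    · exact ciSup_le' fun m => Cardinal.le_sum a m
  have heq : #ν.ord.ToType = #(Σ m : M, (a m).ord.ToType) := by rw [hLc, hsum]
  obtain ⟨φ⟩ := Cardinal.eq.1 heq
  refine ⟨ν, lt_of_lt_of_le hντ hτκ, hδν, hcofν, fun c hc => (hW c).2 (hc.trans hντ),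
    fun j => S (φ j), fun i j h => φ.injective (hSi h), ?_⟩
  obtain ⟨Bs, hB1, hB2, hB3⟩ := hSc
  refine ⟨Bs, hB1, hB2, fun l i hi j hj => φ.injective (hB3 l hi hj)⟩

end Pool.Agent.Work.MP_da56a7_lc.C
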