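import Pool.Agent.Work.MP_da56a7_lc.C.Stmts

set_option autoImplicit false

/-!
# MP_da56a7_lc, block C, item Choice: the least cardinal which is not a chain length
-/

open MeasureTheory Set Filter

namespace Pool.Agent.Work.MP_da56a7_lc.C

open Pool.Agent.Work.MP_da56a7_lc.B

theorem pr_Choice (h1 : StWF) (h2 : StCase1) (h3 : StCase2) (h4 : StCase3) : StChoice := by
  intro κ δ hκ hW hδ hWδ
  have hne : ({c : Cardinal.{0} | ¬ W c}).Nonempty := ⟨κ, fun h => lt_irrefl _ (hW κ h)⟩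
  obtain ⟨τ, hτ, hmin⟩ := (wellFounded_lt (α := Cardinal.{0})).has_min _ hne
  have hτκ : τ ≤ κ := not_lt.1 (hmin κ (fun h => lt_irrefl _ (hW κ h)))
  have hiff : ∀ c, W c ↔ c < τ := by
    intro c
    constructor
    · intro hc
      by_contra hcon
      exact hτ (h1.1 τ c (not_lt.1 hcon) hc)
    · intro hc
      by_contra hcon
      exact hmin c hcon hc
  by_cases hs : ∃ ν, τ = Order.succ ν
  · obtain ⟨ν, rfl⟩ := hs
    exact ⟨ν, h2 κ δ ν hτκ hδ hWδ hiff⟩
  · have hsucc : ∀ c, c < τ → Order.succ c < τ := by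
      intro c hc
      exact lt_of_le_of_ne (Order.succ_le_of_lt hc) (fun h => hs ⟨c, h.symm⟩)
    rcases (Ordinal.cof_ord_le τ).lt_or_eq with h | h
    · exact ⟨τ, h3 κ δ τ hκ hτκ hδ hWδ hiff hsucc h⟩
    · exact h4 κ δ τ hτκ hδ hWδ hiff hsucc h

end Pool.Agent.Work.MP_da56a7_lc.C
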