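import Pool.Agent.Work.MP_da56a7_lc.C.Stmts

set_option autoImplicit false

/-!
# MP_da56a7_lc, block C, item Cnt (helper2)
-/

open MeasureTheory Set Filter

namespace Pool.Agent.Work.MP_da56a7_lc.C

open Pool.Agent.Work.MP_da56a7_lc.B

namespace ICnt

theorem bern (M : ℝ) (hM : 1 ≤ M) (N : ℕ) : (N : ℝ) * (M - 1) ^ N ≤ M * M ^ N := by
  have hM0 : 0 < M := by linarith
  have h1 : 1 + (N : ℝ) * (1 / M) ≤ (1 + 1 / M) ^ N := by
    apply one_add_mul_le_pow
    have : 0 ≤ 1 / M := by positivity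
    linarith
  have h2 : (M - 1) ^ N * (M + 1) ^ N ≤ (M ^ 2) ^ N := by
    rw [← mul_pow]
    apply pow_le_pow_left₀
    · nlinarith
    · nlinarith
  have h3 : (M + 1) ^ N = M ^ N * (1 + 1 / M) ^ N := by
    rw [← mul_pow]
    congr 1
    field_simp
  have h4 : (M - 1) ^ N * (1 + 1 / M) ^ N ≤ M ^ N := by
    have h5 : M ^ N * ((M - 1) ^ N * (1 + 1 / M) ^ N) ≤ M ^ N * M ^ N := by
      calc M ^ N * ((M - 1) ^ N * (1 + 1 / M) ^ N) = (M - 1) ^ N * (M + 1) ^ N := by
            rw [h3]; ring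
        _ ≤ (M ^ 2) ^ N := h2
        _ = M ^ N * M ^ N := by rw [← pow_mul]; ring
    exact le_of_mul_le_mul_left h5 (by positivity)
  have h6 : 0 ≤ (M - 1) ^ N := pow_nonneg (by linarith) _
  have h7 : (M - 1) ^ N * (1 + (N : ℝ) * (1 / M)) ≤ M ^ N :=
    (mul_le_mul_of_nonneg_left h1 h6).trans h4
  have h8 : (M - 1) ^ N * ((N : ℝ) * (1 / M)) ≤ M ^ N := by
    have : (M - 1) ^ N * (1 + (N : ℝ) * (1 / M)) =
      (M - 1) ^ N + (M - 1) ^ N * ((N : ℝ) * (1 / M)) := by ring
    linarith
  calc (N : ℝ) * (M - 1) ^ N = M * ((M - 1) ^ N * ((N : ℝ) * (1 / M))) := by field_simp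
    _ ≤ M * M ^ N := mul_le_mul_of_nonneg_left h8 hM0.le

theorem claim (I X : Type) [LinearOrder I] [MeasurableSpace X] (μ : Measure X)
    [IsProbabilityMeasure μ] (allM : ∀ s : Set X, MeasurableSet s) (b : I → ℕ → Set X) (γ : I)
    (E : Set X)
    (hI : ∀ (s : Finset (I × ℕ)) (ε : I × ℕ → Bool), (∀ p ∈ s, γ ≤ p.1) →
      2 ^ s.card * μ.real (E ∩ cylb b s ε) = μ.real E)
    (n : ℕ) (sg : ℕ → Bool) (K : Finset ℕ) :
    ∀ (s : Finset (I × ℕ)) (ε : I × ℕ → Bool),
    (∀ p ∈ s, γ ≤ p.1 ∧ (Nat.unpair p.2).1 ∉ K) →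
    2 ^ s.card * (2 ^ n) ^ K.card *
      μ.real (E ∩ cylb b s ε ∩
        {x | ∀ k ∈ K, ¬ ∀ m, m < n → (x ∈ b γ (Nat.pair k m) ↔ sg m = true)}) =
      (2 ^ n - 1) ^ K.card * μ.real E := by
  classical
  induction K using Finset.induction_on with
  | empty =>
    intro s ε hs
    have h := hI s ε (fun p hp => (hs p hp).1)
    simp only [Finset.card_empty, pow_zero, mul_one, Finset.notMem_empty, false_implies,
      implies_true, ofPred_true, inter_univ, one_mul]
    exact h
  | insert k K hk ih =>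
    intro s ε hs
    have hs1 : ∀ p ∈ s, γ ≤ p.1 ∧ (Nat.unpair p.2).1 ∉ K := fun p hp =>
      ⟨(hs p hp).1, fun hh => (hs p hp).2 (Finset.mem_insert_of_mem hh)⟩
    have hsk : ∀ p ∈ s, (Nat.unpair p.2).1 ≠ k := fun p hp hh =>
      (hs p hp).2 (hh ▸ Finset.mem_insert_self _ _)
    set sk : Finset (I × ℕ) := (Finset.range n).image (fun m => (γ, Nat.pair k m)) with hskdef
    set ε' : I × ℕ → Bool := fun p =>
      if (Nat.unpair p.2).1 = k then sg (Nat.unpair p.2).2 else ε p with hε'
    set Bd : Set X :=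
      {x | ∀ k ∈ K, ¬ ∀ m, m < n → (x ∈ b γ (Nat.pair k m) ↔ sg m = true)} with hBd
    set T : Set X := {x | ∀ m, m < n → (x ∈ b γ (Nat.pair k m) ↔ sg m = true)} with hT
    have hcardsk : sk.card = n := by
      rw [hskdef, Finset.card_image_of_injective, Finset.card_range]
      intro m m' hm
      have h1 : Nat.pair k m = Nat.pair k m' := (Prod.mk.inj hm).2
      exact (Nat.pair_eq_pair.1 h1).2
    have hdisj : Disjoint s sk := by
      rw [Finset.disjoint_left]
      intro p hp hp'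
      rw [hskdef, Finset.mem_image] at hp'
      obtain ⟨m, _, rfl⟩ := hp'
      exact hsk _ hp (by rw [Nat.unpair_pair])
    have hcard : (s ∪ sk).card = s.card + n := by
      rw [Finset.card_union_of_disjoint hdisj, hcardsk]
    have heq1 : E ∩ cylb b s ε ∩
        {x | ∀ k' ∈ insert k K, ¬ ∀ m, m < n → (x ∈ b γ (Nat.pair k' m) ↔ sg m = true)} =
        (E ∩ cylb b s ε ∩ Bd) \ T := by
      ext x
      simp only [mem_inter_iff, mem_ofPred_eq, Finset.mem_insert, Set.mem_sdiff, hBd, hT]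
      constructor
      · rintro ⟨h1, h2⟩
        exact ⟨⟨h1, fun k' hk' => h2 k' (Or.inr hk')⟩, h2 k (Or.inl rfl)⟩
      · rintro ⟨⟨h1, h2⟩, h3⟩
        refine ⟨h1, ?_⟩
        rintro k' (rfl | hk')
        · exact h3
        · exact h2 k' hk'
    have heq2 : (E ∩ cylb b s ε ∩ Bd) ∩ T = E ∩ cylb b (s ∪ sk) ε' ∩ Bd := by
      have hcyl : cylb b s ε ∩ T = cylb b (s ∪ sk) ε' := by
        ext x
        constructor
        · rintro ⟨h1, h2⟩ p hp
          rcases Finset.mem_union.1 hp with hp | hp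
          · have := h1 p hp
            rw [hε']
            simp only [if_neg (hsk p hp)]
            exact this
          · rw [hskdef, Finset.mem_image] at hp
            obtain ⟨m, hm, rfl⟩ := hp
            rw [hε']
            simp only [Nat.unpair_pair, if_true]
            exact h2 m (Finset.mem_range.1 hm)
        · intro h
          refine ⟨?_, ?_⟩
          · intro p hp
            have := h p (Finset.mem_union_left _ hp)
            rw [hε'] at this
            simp only [if_neg (hsk p hp)] at this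
            exact this
          · intro m hm
            have := h (γ, Nat.pair k m) (Finset.mem_union_right _ (by
              rw [hskdef, Finset.mem_image]
              exact ⟨m, Finset.mem_range.2 hm, rfl⟩))
            rw [hε'] at this
            simp only [Nat.unpair_pair, if_true] at this
            exact this
      rw [← hcyl]
      ext x
      simp only [mem_inter_iff]
      tauto
    have hA := ih s ε hs1
    have hB := ih (s ∪ sk) ε' (by
      intro p hp
      rcases Finset.mem_union.1 hp with hp | hp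
      · exact hs1 p hp
      · rw [hskdef, Finset.mem_image] at hp
        obtain ⟨m, _, rfl⟩ := hp
        refine ⟨le_rfl, ?_⟩
        rw [Nat.unpair_pair]
        exact hk)
    have hsplit : μ.real ((E ∩ cylb b s ε ∩ Bd) ∩ T) + μ.real ((E ∩ cylb b s ε ∩ Bd) \ T) =
        μ.real (E ∩ cylb b s ε ∩ Bd) := measureReal_inter_add_sdiff (allM _)
    rw [heq1, Finset.card_insert_of_notMem hk]
    rw [← heq2, hcard] at hB
    set a := μ.real ((E ∩ cylb b s ε ∩ Bd) ∩ T)
    set c := μ.real ((E ∩ cylb b s ε ∩ Bd) \ T)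
    set d := μ.real (E ∩ cylb b s ε ∩ Bd)
    have hc : c = d - a := by linarith
    rw [hc]
    set M : ℝ := 2 ^ n with hM
    have hB' : 2 ^ s.card * M * M ^ K.card * a = (M - 1) ^ K.card * μ.real E := by
      rw [← hB, pow_add]
    calc 2 ^ s.card * M ^ (K.card + 1) * (d - a) =
        M * (2 ^ s.card * M ^ K.card * d) - (2 ^ s.card * M * M ^ K.card * a) := by ring
      _ = M * ((M - 1) ^ K.card * μ.real E) - (M - 1) ^ K.card * μ.real E := by rw [hA, hB']
      _ = (M - 1) ^ (K.card + 1) * μ.real E := by ring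

end ICnt

theorem pr_Cnt : StCnt := by
  classical
  intro I X _ _ μ _ allM b γ E hE n sg K
  have hI : ∀ (s : Finset (I × ℕ)) (ε : I × ℕ → Bool), (∀ p ∈ s, γ ≤ p.1) →
      2 ^ s.card * μ.real (E ∩ cylb b s ε) = μ.real E := by
    intro s ε hs
    have h := congrArg ENNReal.toReal (hE s ε hs)
    rw [ENNReal.toReal_mul, ENNReal.toReal_pow] at h
    simpa [measureReal_def] using h
  have h := ICnt.claim I X μ allM b γ E hI n sg K ∅ (fun _ => true)
    (fun p hp => absurd hp (Finset.notMem_empty _))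
  have hc : cylb b ∅ (fun _ => true) = (univ : Set X) := by
    ext x; simp [cylb]
  rw [hc, inter_univ, Finset.card_empty, pow_zero, one_mul] at h
  set V := E ∩ {x | ∀ k ∈ K, ¬ ∀ m, m < n → (x ∈ b γ (Nat.pair k m) ↔ sg m = true)}
  have hM1 : (1 : ℝ) ≤ 2 ^ n := one_le_pow₀ (by norm_num)
  have hM0 : (0 : ℝ) < 2 ^ n := by positivity
  have hreal : (K.card : ℝ) * μ.real V ≤ 2 ^ n * μ.real E := by
    have hb := ICnt.bern (2 ^ n) hM1 K.card
    have hpos : (0 : ℝ) < (2 ^ n) ^ K.card := by positivity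
    have h5 : (2 ^ n) ^ K.card * ((K.card : ℝ) * μ.real V) ≤
        (2 ^ n) ^ K.card * (2 ^ n * μ.real E) := by
      calc (2 ^ n) ^ K.card * ((K.card : ℝ) * μ.real V) =
          (K.card : ℝ) * ((2 ^ n) ^ K.card * μ.real V) := by ring
        _ = ((K.card : ℝ) * (2 ^ n - 1) ^ K.card) * μ.real E := by rw [h]; ring
        _ ≤ (2 ^ n * (2 ^ n) ^ K.card) * μ.real E :=
            mul_le_mul_of_nonneg_right hb measureReal_nonneg
        _ = (2 ^ n) ^ K.card * (2 ^ n * μ.real E) := by ring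
    exact le_of_mul_le_mul_left h5 hpos
  have hf1 : (K.card : ENNReal) * μ V ≠ ⊤ :=
    ENNReal.mul_ne_top (ENNReal.natCast_ne_top _) (measure_ne_top _ _)
  have hf2 : (2 : ENNReal) ^ n * μ E ≠ ⊤ :=
    ENNReal.mul_ne_top (ENNReal.pow_ne_top (by norm_num)) (measure_ne_top _ _)
  rw [← ENNReal.toReal_le_toReal hf1 hf2, ENNReal.toReal_mul, ENNReal.toReal_mul,
    ENNReal.toReal_pow]
  simpa [measureReal_def] using hreal

end Pool.Agent.Work.MP_da56a7_lc.C
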