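import Pool.Agent.Work.MP_da56a7_lc.C.Stmts

set_option autoImplicit false

/-!
# MP_da56a7_lc, block C, item CofD
-/

open MeasureTheory Set Filter

namespace Pool.Agent.Work.MP_da56a7_lc.C

open Pool.Agent.Work.MP_da56a7_lc.B

/-- ITEM CofD -/
theorem pr_CofD : StCofD := by
  refine ⟨?_, ?_⟩
  · rintro ν ⟨F, hF, hcof⟩
    by_cases hT : Nonempty ν.ord.ToType
    · obtain ⟨t0⟩ := hT
      have hN : ∀ t, ∃ f : ℕ → ν.ord.ToType, (F t).Nonempty → F t = range f := by
        intro t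
        by_cases h : (F t).Nonempty
        · obtain ⟨f, hf⟩ := (hF t).exists_eq_range h
          exact ⟨f, fun _ => hf⟩
        · exact ⟨fun _ => t0, fun h' => absurd h' h⟩
      choose N hN using hN
      refine ⟨N, fun u => ?_⟩
      obtain ⟨t, ht⟩ := hcof (range u) (countable_range u)
      refine ⟨t, fun n => ?_⟩
      have h1 : u n ∈ F t := ht ⟨n, rfl⟩
      rw [hN t ⟨_, h1⟩] at h1
      exact h1
    · refine ⟨fun t => absurd ⟨t⟩ hT, fun u => absurd ⟨u 0⟩ hT⟩
  · intro ν D hν hD hcard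
    have hle : Cardinal.mk (D × ℕ) ≤ Cardinal.mk ν.ord.ToType := by
      rw [Cardinal.mk_prod, Cardinal.lift_id, Cardinal.lift_id, Cardinal.mk_nat,
        Cardinal.mk_ord_toType]
      calc Cardinal.mk D * Cardinal.aleph0 ≤ ν * ν := mul_le_mul' hcard hν
        _ = ν := Cardinal.mul_eq_self hν
    obtain ⟨i⟩ := Cardinal.le_def _ _ |>.1 hle
    obtain ⟨g0, hg0, -⟩ := hD fun _ => 0
    have : Nonempty (D × ℕ) := ⟨(⟨g0, hg0⟩, 0)⟩
    have hs := Function.invFun_surjective i.injective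
    refine ⟨fun t n => ((Function.invFun i t).1 : ℕ → ℕ) n + (Function.invFun i t).2, fun f => ?_⟩
    obtain ⟨g, hg, hfg⟩ := hD f
    obtain ⟨n0, hn0⟩ := eventually_atTop.1 hfg
    obtain ⟨t, ht⟩ := hs (⟨g, hg⟩, ∑ n ∈ Finset.range n0, f n)
    refine ⟨t, fun n => ?_⟩
    change f n ≤ ((Function.invFun i t).1 : ℕ → ℕ) n + (Function.invFun i t).2
    rw [ht]
    change f n ≤ g n + ∑ n ∈ Finset.range n0, f n
    by_cases h : n0 ≤ n
    · exact (hn0 n h).trans (Nat.le_add_right _ _)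
    · have h1 : f n ≤ ∑ n ∈ Finset.range n0, f n :=
        Finset.single_le_sum (fun _ _ => Nat.zero_le _) (Finset.mem_range.2 (not_le.1 h))
      exact h1.trans (Nat.le_add_left _ _)

end Pool.Agent.Work.MP_da56a7_lc.C
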