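import Pool.Agent.Work.MP_da56a7_lc.C.Stmts

set_option autoImplicit false

/-!
# MP_da56a7_lc, block C: item Coin

A maximal chain of `U` for comparability, and a well order of it.
-/

open MeasureTheory Set Filter

namespace Pool.Agent.Work.MP_da56a7_lc.C

open Pool.Agent.Work.MP_da56a7_lc.B

namespace ICoin

/-- the statement for a family indexed by a well order -/
theorem aux (r : Y → Y → Prop) (hrefl : ∀ x, r x x) (htrans : ∀ x y z, r x y → r y z → r x z)
    (V : Type) [LinearOrder V] [WellFoundedLT V] (u : V → Y) :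
    ∃ P : Set V, (∀ i ∈ P, ∀ j ∈ P, i < j → r (u j) (u i) ∧ ¬ r (u i) (u j)) ∧
      ∀ x : V, (∃ k ∈ P, ¬ r (u x) (u k)) ∨ ∃ k ∈ P, r (u x) (u k) ∧ r (u k) (u x) := by
  set R : V → V → Prop := fun a b => r (u a) (u b) with hR
  set M : Set V := maxChain R with hMdef
  have hM : IsMaxChain R M := maxChain_spec
  have hcmp : ∀ a ∈ M, ∀ b ∈ M, r (u a) (u b) ∨ r (u b) (u a) := by
    intro a ha b hb
    by_cases hab : a = b
    · subst hab
      exact Or.inl (hrefl _)
    · exact hM.1 ha hb hab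
  set P : Set V := {t | t ∈ M ∧ ∀ t' ∈ M, t' < t → r (u t) (u t') ∧ ¬ r (u t') (u t)} with hP
  have key : ∀ y ∈ M, ∃ t ∈ P, r (u t) (u y) := by
    intro y hy
    have hne : {z : V | z ∈ M ∧ r (u z) (u y)}.Nonempty := ⟨y, hy, hrefl _⟩
    have hwf : WellFounded (fun a b : V => a < b) := IsWellFounded.wf
    refine ⟨hwf.min _ hne, ⟨(hwf.min_mem _ hne).1, ?_⟩, (hwf.min_mem _ hne).2⟩
    intro t' ht' hlt
    have hn : ¬ r (u t') (u y) := by
      intro h
      exact hwf.not_lt_min _ (show t' ∈ {z : V | z ∈ M ∧ r (u z) (u y)} from ⟨ht', h⟩) hlt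
    have h1 : r (u y) (u t') := (hcmp t' ht' y hy).resolve_left hn
    have h2 := (hwf.min_mem _ hne).2
    exact ⟨htrans _ _ _ h2 h1, fun h => hn (htrans _ _ _ h h2)⟩
  refine ⟨P, fun i hi j hj hij => hj.2 i hi.1 hij, ?_⟩
  intro x
  by_cases h : ∀ k ∈ P, r (u x) (u k)
  · right
    have hall : ∀ y ∈ M, r (u x) (u y) := by
      intro y hy
      obtain ⟨t, ht, hty⟩ := key y hy
      exact htrans _ _ _ (h t ht) hty
    have hch : IsChain R (insert x M) := hM.1.insert fun b hb _ => Or.inl (hall b hb)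
    have heq : M = insert x M := hM.2 hch (subset_insert _ _)
    have hxM : x ∈ M := by
      rw [heq]
      exact mem_insert _ _
    obtain ⟨t, ht, htx⟩ := key _ hxM
    exact ⟨t, ht, h t ht, htx⟩
  · left
    by_contra h'
    exact h fun k hk => by
      by_contra h''
      exact h' ⟨k, hk, h''⟩

end ICoin

theorem pr_Coin : StCoin := by
  intro r hrefl htrans U
  obtain ⟨V, lo, wf, u, hu⟩ : ∃ (V : Type) (_ : LinearOrder V) (_ : WellFoundedLT V)
      (u : V → Y), range u = U := by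
    have h : Cardinal.mk (Cardinal.mk U).ord.ToType = Cardinal.mk U := by
      rw [Cardinal.mk_toType, Cardinal.card_ord]
    obtain ⟨f⟩ := Cardinal.eq.1 h
    refine ⟨(Cardinal.mk U).ord.ToType, inferInstance, inferInstance, fun v => (f v).1, ?_⟩
    ext y
    constructor
    · rintro ⟨v, rfl⟩
      exact (f v).2
    · intro hy
      exact ⟨f.symm ⟨y, hy⟩, by simp⟩
  obtain ⟨P, h1, h2⟩ := ICoin.aux r hrefl htrans V u
  refine ⟨P, inferInstance, inferInstance, fun k => u k.1, fun k => hu ▸ mem_range_self _, ?_, ?_⟩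
  · intro i j hij
    exact h1 i.1 i.2 j.1 j.2 hij
  · intro x hx
    rw [← hu] at hx
    obtain ⟨v, rfl⟩ := hx
    rcases h2 v with ⟨k, hk, h⟩ | ⟨k, hk, h⟩
    · exact Or.inl ⟨⟨k, hk⟩, h⟩
    · exact Or.inr ⟨⟨k, hk⟩, h⟩

end Pool.Agent.Work.MP_da56a7_lc.C
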