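import Pool.Agent.Work.MP_da56a7_lc.C.Stmts

set_option autoImplicit false

/-!
# MP_da56a7_lc, block C, item Crit
-/

open MeasureTheory Set Filter

namespace Pool.Agent.Work.MP_da56a7_lc.C

open Pool.Agent.Work.MP_da56a7_lc.B

theorem pr_Crit (h1 : StTX) (h2 : StB2C) (h3 : StDomU) : StCrit := by
  intro X _ μ hTot hX T hT S Bs N D hS hBs hcov hcount hN hD
  have hinf : Cardinal.aleph0 < Cardinal.mk T := h3.1 T D hD
  obtain ⟨C, hCcl, hCU⟩ := h2 T D hD Bs hBs
  have hcard : Cardinal.mk T = Cardinal.mk (T × T) := by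
    rw [Cardinal.mk_prod, Cardinal.lift_id]
    exact (Cardinal.mul_eq_self hinf.le).symm
  obtain ⟨e⟩ := Cardinal.eq.1 hcard
  have hsub : ∀ t, C (e t) ⊆ Bs (e t).1 := by
    intro t
    rw [← hCU (e t).1]
    exact subset_iUnion (fun u => C ((e t).1, u)) (e t).2
  refine h1 X μ hTot hX T hinf hT S (fun t => C (e t)) N D hS (fun t => hCcl _) ?_ ?_ hN hD
  · intro y
    obtain ⟨t, ht⟩ := hcov y
    rw [← hCU t] at ht
    obtain ⟨u, hu⟩ := mem_iUnion.1 ht
    exact ⟨e.symm (t, u), by simpa using hu⟩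
  · intro t
    exact (hcount (e t).1).mono fun u hu => hsub t hu

end Pool.Agent.Work.MP_da56a7_lc.C
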