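import Pool.Agent.Work.MP_da56a7_lc.C.Stmts

/-!
# Item DomU: dominating families are uncountable
-/

set_option autoImplicit false

open MeasureTheory Set Filter

namespace Pool.Agent.Work.MP_da56a7_lc.C

open Pool.Agent.Work.MP_da56a7_lc.B

theorem pr_DomU : StDomU := by
  constructor
  · intro T D hD
    by_contra hcon
    have hT : Countable T := Cardinal.mk_le_aleph0_iff.1 (not_lt.1 hcon)
    obtain ⟨t₀, _⟩ := hD (fun _ => 0)
    have : Nonempty T := ⟨t₀⟩
    obtain ⟨e, he⟩ := exists_surjective_nat T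
    obtain ⟨t, ht⟩ := hD (fun n => D (e n) n + 1)
    obtain ⟨m, rfl⟩ := he t
    exact absurd (ht m) (by simp)
  · intro D hD
    by_contra hcon
    have hT : Countable D := Cardinal.mk_le_aleph0_iff.1 (not_lt.1 hcon)
    obtain ⟨g₀, hg₀, _⟩ := hD (fun _ => 0)
    have : Nonempty D := ⟨⟨g₀, hg₀⟩⟩
    obtain ⟨e, he⟩ := exists_surjective_nat D
    obtain ⟨g, hg, hfg⟩ := hD (fun n => (∑ i ∈ Finset.range (n + 1), (e i : ℕ → ℕ) n) + 1)
    obtain ⟨m, hm⟩ := he ⟨g, hg⟩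
    obtain ⟨n, hn, hmn⟩ := (hfg.and (eventually_ge_atTop m)).exists
    have h1 : (e m : ℕ → ℕ) n ≤ ∑ i ∈ Finset.range (n + 1), (e i : ℕ → ℕ) n :=
      Finset.single_le_sum (f := fun i => (e i : ℕ → ℕ) n) (fun i _ => Nat.zero_le _)
        (Finset.mem_range.2 (Nat.lt_succ_of_le hmn))
    rw [hm] at h1
    have h2 : g n ≤ ∑ i ∈ Finset.range (n + 1), (e i : ℕ → ℕ) n := h1
    omega

end Pool.Agent.Work.MP_da56a7_lc.C
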