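import Pool.Agent.Work.MP_da56a7_lc.C.Stmts

/-! Item [da56a7 C FinB] (helper5). -/

set_option autoImplicit false

open MeasureTheory Set Filter

namespace Pool.Agent.Work.MP_da56a7_lc.C

open Pool.Agent.Work.MP_da56a7_lc.B

theorem pr_FinB (h1 : StCrit) (h2 : StCofD) (h3 : StDomU) (h4 : StNC) (h5 : StReg)
    (h6 : StChoice) : StFinB := by
  intro X _ μ hT hX hcof hD
  obtain ⟨D, hD, hW⟩ := hD
  have hD0 : Cardinal.aleph0 < Cardinal.mk D := h3.2 D hD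
  obtain ⟨ν, hνX, hDν, hνc, hνW, S, hS, B, hBm, hBc, hBs⟩ :=
    h6 (Cardinal.mk X) (Cardinal.mk D) (h5 X μ hT) (h4 X μ hT) hD0 hW
  obtain ⟨N, hN⟩ := h2.1 ν (hcof ν hνX hνc hνW)
  obtain ⟨D', hD'⟩ := h2.2 ν D (hD0.le.trans hDν) hD hDν
  have hTν : Cardinal.mk ν.ord.ToType = ν := Cardinal.mk_ord_toType ν
  obtain ⟨A, hA, hAm, hAc⟩ := h1 X μ hT hX ν.ord.ToType (by rw [hTν]; exact hνX) S B N D' hS hBm
    hBc (fun t => (hBs t).countable) hN hD'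
  exact ⟨A, hA, hAm, hAc.trans_lt (by rw [hTν]; exact hνX)⟩

end Pool.Agent.Work.MP_da56a7_lc.C
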