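import Pool.Agent.Work.MP_da56a7_lc.C.Stmts2

/-!
# MP_da56a7_lc, block C: item FinC
-/

set_option autoImplicit false

open MeasureTheory Set Filter

namespace Pool.Agent.Work.MP_da56a7_lc.C

open Pool.Agent.Work.MP_da56a7_lc.B

theorem pr_FinC (h1 : StCA) : StFinC := by
  intro hW ν hcof hsmall
  have hle : ν ≤ Cardinal.aleph Ordinal.omega0 := by
    by_contra h
    exact lt_irrefl _ (hW _ (hsmall _ (not_le.1 h)))
  have hne : ν ≠ Cardinal.aleph Ordinal.omega0 := by
    rintro rfl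
    rw [Cardinal.ord_aleph, Ordinal.cof_omega Ordinal.isSuccLimit_omega0,
      Ordinal.cof_omega0] at hcof
    exact lt_irrefl _ hcof
  have hν : Cardinal.aleph0 ≤ ν := hcof.le.trans (Ordinal.cof_ord_le ν)
  obtain ⟨o, ho⟩ := Cardinal.mem_range_aleph_iff.2 hν
  have hlt : o < Ordinal.omega0 := by
    rw [← ho] at hle hne
    exact Cardinal.aleph_lt_aleph.1 (lt_of_le_of_ne hle hne)
  obtain ⟨n, rfl⟩ := Ordinal.lt_omega0.1 hlt
  rw [← ho]
  exact h1 n

end Pool.Agent.Work.MP_da56a7_lc.C
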