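import Pool.Agent.Work.MP_da56a7_lc.C.Stmts

set_option autoImplicit false

/-!
# MP_da56a7_lc, block C, item Gap: Borel covers from the gaps of a chain
-/

open MeasureTheory Set Filter

namespace Pool.Agent.Work.MP_da56a7_lc.C

open Pool.Agent.Work.MP_da56a7_lc.B

namespace IGap

/-- upper bounds of an initial part of the chain -/
def U {J : Type} [LT J] (r : Y → Y → Prop) (s : J → Y) (o : Option J) : Set Y :=
  {x | ∀ j, (∀ i, o = some i → j < i) → r (s j) x}

theorem meas_left (r : Y → Y → Prop) (hr : Pre r) (z : Y) : MeasurableSet {y | r y z} := by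
  have h : Measurable (fun y : Y => (y, z)) := measurable_id.prodMk measurable_const
  exact h hr.meas

theorem meas_right (r : Y → Y → Prop) (hr : Pre r) (z : Y) : MeasurableSet {y | r z y} := by
  have h : Measurable (fun y : Y => (z, y)) := measurable_const.prodMk measurable_id
  exact h hr.meas

/-- the sets of the cover -/
def Bs {J : Type} (r : Y → Y → Prop) (s : J → Y) {K : Option J → Type} (t : ∀ o, K o → Y)
    (p : (Σ o, K o) × Bool) : Set Y :=
  if p.2 = true then {y | r y (t p.1.1 p.1.2) ∧ r (t p.1.1 p.1.2) y}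
  else {y | ¬ r y (t p.1.1 p.1.2) ∧ ∀ i, p.1.1 = some i → ¬ r (s i) y}

theorem Bs_meas {J : Type} (r : Y → Y → Prop) (hr : Pre r) (s : J → Y) {K : Option J → Type}
    (t : ∀ o, K o → Y) (p : (Σ o, K o) × Bool) : MeasurableSet (Bs r s t p) := by
  obtain ⟨⟨o, k⟩, b⟩ := p
  unfold Bs
  rcases b with _ | _
  · rw [if_neg (by simp)]
    refine (meas_left r hr _).compl.inter ?_
    rcases o with _ | i
    · have h : {y : Y | ∀ i', (none : Option J) = some i' → ¬ r (s i') y} = univ := by
        ext y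
        simp
      change MeasurableSet {y : Y | ∀ i', (none : Option J) = some i' → ¬ r (s i') y}
      rw [h]
      exact MeasurableSet.univ
    · have h : {y : Y | ∀ i', (some i : Option J) = some i' → ¬ r (s i') y} = {y | r (s i) y}ᶜ := by
        ext y
        simp
      change MeasurableSet {y : Y | ∀ i', (some i : Option J) = some i' → ¬ r (s i') y}
      rw [h]
      exact (meas_right r hr _).compl
  · rw [if_pos rfl]
    exact (meas_left r hr _).inter (meas_right r hr _)

theorem Bs_sub {J : Type} [LinearOrder J] (r : Y → Y → Prop) (hr : Pre r) (s : J → Y)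
    (hs : Chain r s) {K : Option J → Type} (t : ∀ o, K o → Y) (ht : ∀ o k, t o k ∈ U r s o)
    (p : (Σ o, K o) × Bool) : {j | s j ∈ Bs r s t p}.Subsingleton := by
  obtain ⟨⟨o, k⟩, b⟩ := p
  unfold Bs
  rcases b with _ | _
  · rw [if_neg (by simp)]
    intro j hj
    exfalso
    obtain ⟨h1, h2⟩ := hj
    refine h1 (ht o k j ?_)
    intro i hi
    by_contra hc
    have hij : i ≤ j := not_lt.1 hc
    refine h2 i hi ?_
    rcases hij.eq_or_lt with h | h
    · rw [h]; exact hr.refl _
    · exact (hs i j h).1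
  · rw [if_pos rfl]
    intro j hj j' hj'
    obtain ⟨h1, h2⟩ := hj
    obtain ⟨h3, h4⟩ := hj'
    rcases lt_trichotomy j j' with h | h | h
    · exact absurd (hr.trans _ _ _ h3 h2) (hs j j' h).2
    · exact h
    · exact absurd (hr.trans _ _ _ h1 h4) (hs j' j h).2

theorem Bs_cov {J : Type} [LinearOrder J] [WellFoundedLT J] (r : Y → Y → Prop) (s : J → Y)
    {K : Option J → Type} (t : ∀ o, K o → Y)
    (ht : ∀ o, ∀ x ∈ U r s o, (∃ k, ¬ r x (t o k)) ∨ ∃ k, r x (t o k) ∧ r (t o k) x) (y : Y) :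
    ∃ p : (Σ o, K o) × Bool, y ∈ Bs r s t p := by
  classical
  have key : ∃ o : Option J, y ∈ U r s o ∧ ∀ i, o = some i → ¬ r (s i) y := by
    by_cases h : ∃ i, ¬ r (s i) y
    · obtain ⟨i, hi, hmin⟩ := (wellFounded_lt (α := J)).has_min {i | ¬ r (s i) y} h
      refine ⟨some i, ?_, ?_⟩
      · intro j hj
        by_contra hc
        exact hmin j hc (hj i rfl)
      · intro i' hi'
        cases hi'
        exact hi
    · push Not at h
      exact ⟨none, fun j _ => h j, fun i hi => by cases hi⟩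
  obtain ⟨o, ho1, ho2⟩ := key
  rcases ht o y ho1 with ⟨k, hk⟩ | ⟨k, hk⟩
  · refine ⟨(⟨o, k⟩, false), ?_⟩
    unfold Bs
    rw [if_neg (by simp)]
    exact ⟨hk, ho2⟩
  · refine ⟨(⟨o, k⟩, true), ?_⟩
    unfold Bs
    rw [if_pos rfl]
    exact hk

theorem card_le {J : Type} (K : Option J → Type) (L : Type) (h0 : Cardinal.aleph0 ≤ Cardinal.mk L)
    (h1 : Cardinal.mk J ≤ Cardinal.mk L) (h2 : ∀ o, Cardinal.mk (K o) ≤ Cardinal.mk L) :
    Cardinal.mk ((Σ o, K o) × Bool) ≤ Cardinal.mk L := by
  have h3 : Cardinal.mk (Option J) ≤ Cardinal.mk L := by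
    rw [Cardinal.mk_option]
    exact Cardinal.add_le_of_le h0 h1 (Cardinal.one_le_aleph0.trans h0)
  have h4 : Cardinal.mk (Σ o, K o) ≤ Cardinal.mk L := by
    rw [Cardinal.mk_sigma]
    refine (Cardinal.sum_le_sum _ (fun _ => Cardinal.mk L) h2).trans ?_
    rw [Cardinal.sum_const']
    exact (mul_le_mul' h3 le_rfl).trans (Cardinal.mul_eq_self h0).le
  rw [Cardinal.mk_prod, Cardinal.lift_id, Cardinal.lift_id]
  have h5 : Cardinal.mk Bool ≤ Cardinal.mk L := by
    rw [Cardinal.mk_bool]
    exact (Cardinal.natCast_lt_aleph0 (n := 2)).le.trans h0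
  exact (mul_le_mul' h4 h5).trans (Cardinal.mul_eq_self h0).le

end IGap

open IGap in
theorem pr_Gap (h1 : StCoin) (h2 : StWF) : StGap := by
  classical
  intro r hr J _ _ s hs
  have hex := fun o : Option J => h1 r hr.refl hr.trans (U r s o)
  choose K hK1 hK2 t ht1 ht2 ht3 using hex
  refine ⟨fun o => Cardinal.mk (K o), fun o => ?_, fun L hL0 hLJ hLc => ?_⟩
  · let _ := hK1 o
    have _ := hK2 o
    exact h2.2.1 (fun x y => r y x) (h2.2.2 r hr) (K o) (t o) (ht2 o)
  · have hcard := card_le K L hL0 hLJ hLc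
    obtain ⟨emb⟩ := Cardinal.le_def _ _ |>.1 hcard
    obtain ⟨p0, -⟩ := Bs_cov r s t ht3 (fun _ => false)
    have hne : Nonempty ((Σ o, K o) × Bool) := ⟨p0⟩
    have hinv : Function.LeftInverse (Function.invFun emb) emb := Function.leftInverse_invFun emb.injective
    refine ⟨fun l => Bs r s t (Function.invFun emb l), fun l => Bs_meas r hr s t _, fun y => ?_,
      fun l => Bs_sub r hr s hs t ht1 _⟩
    obtain ⟨p, hp⟩ := Bs_cov r s t ht3 y
    refine ⟨emb p, ?_⟩
    change y ∈ Bs r s t (Function.invFun emb (emb p))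
    rw [hinv p]
    exact hp

end Pool.Agent.Work.MP_da56a7_lc.C
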