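import Pool.Agent.Work.MP_da56a7_lc.C.Stmts

set_option autoImplicit false

open MeasureTheory Set Filter

namespace Pool.Agent.Work.MP_da56a7_lc.C

open Pool.Agent.Work.MP_da56a7_lc.B

theorem pr_Hit (h1 : StQ) : StHit := by
  intro I X T1 T2 _ b e g S F Ex idx A hg hA Z γ t x n k he hZ hF hk hadd
  obtain ⟨hkQ, hk1, hk2, hk3, hk4⟩ := hk
  have hN : Nf (g t.2) k = n := (pr_Nf (g t.2) (hg t.2)).1 n k hk1 hk2
  have hn : n ≤ g t.2 n := (hg t.2).le_apply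
  refine ⟨⟨((h1 _ Z hZ).2 _ k hkQ).1, ?_⟩, hn.trans hk1⟩
  rw [hA γ t x k, hN]
  refine ⟨lt_of_le_of_lt hn hk3, hadd, ?_⟩
  intro β hβ heβ
  refine ⟨⟨_, hF (e γ β), ?_⟩, fun u hu hi => hk4 β hβ (heβ.trans hn) u hu (hi.trans hn)⟩
  intro m hm
  have hp : Nat.pair (e γ β) m < (g t.2 n + 1) ^ 2 := by
    refine (Nat.pair_lt_max_add_one_sq (e γ β) m).trans_le (Nat.pow_le_pow_left ?_ 2)
    have h3 : max (e γ β) m ≤ g t.2 n := max_le (heβ.trans hn) (hm.le.trans hn)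
    omega
  have h2 := ((h1 _ Z hZ).2 _ k hkQ).2 _ hp
  rw [← h2]
  unfold wb
  rw [Nat.unpair_pair]
  constructor
  · intro h
    exact ⟨β, hβ, rfl, h⟩
  · rintro ⟨β', hβ', h3, h4⟩
    have h5 : β' = β := he hβ' hβ h3
    rw [h5] at h4
    exact h4

end Pool.Agent.Work.MP_da56a7_lc.C
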