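import Pool.Agent.Work.MP_da56a7_lc.C.Stmts

set_option autoImplicit false

/-!
# MP_da56a7_lc, block C, item KM: measurability of the sets of good points
-/

open MeasureTheory Set Filter

namespace Pool.Agent.Work.MP_da56a7_lc.C

open Pool.Agent.Work.MP_da56a7_lc.B

namespace IKM

theorem mem_meas {I X T : Type} [LinearOrder I] [MeasurableSpace X]
    (hcnt : ∀ i : I, (Iio i).Countable) (A : I → T → X → Set ℕ) (γ : I)
    (hA : ∀ β t k, β < γ → MeasurableSet {x | k ∈ A β t x}) (e : I → ℕ) (Ex : Set T)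
    (idx : T → ℕ) (hEx : Ex.Countable) (w : X → ℕ → ℕ → Prop) (Z : X → Set ℕ)
    (hQ : ∀ n k, MeasurableSet {x | k ∈ Qs (w x) (Z x) n}) (u v k : ℕ) :
    MeasurableSet {x | k ∈ Kt (fun β t => A β t x) e Ex idx (w x) (Z x) γ u v} := by
  classical
  have hc : ∀ p : Prop, MeasurableSet {_x : X | p} := fun p => MeasurableSet.const p
  have h1 : {x | k ∈ Kt (fun β t => A β t x) e Ex idx (w x) (Z x) γ u v} =
      {x | k ∈ Qs (w x) (Z x) ((u + 1) ^ 2)} ∩ ({_x | u ≤ k} ∩ ({_x | k < v} ∩
        ({_x | u < val k} ∩ ⋂ β ∈ Iio γ, ({_x | ¬ e β ≤ u} ∪ ⋂ t ∈ Ex,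
          ({_x | ¬ idx t ≤ u} ∪ {x | k ∈ A β t x}ᶜ))))) := by
    ext x
    simp only [Kt, mem_ofPred_eq, mem_inter_iff, mem_iInter, mem_union, mem_compl_iff, mem_Iio]
    refine and_congr_right fun _ => and_congr_right fun _ => and_congr_right fun _ =>
      and_congr_right fun _ => forall_congr' fun β => forall_congr' fun hβ => ?_
    constructor
    · intro h
      by_cases h6 : e β ≤ u
      · refine Or.inr fun t ht => ?_
        by_cases h7 : idx t ≤ u
        · exact Or.inr (h h6 t ht h7)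
        · exact Or.inl h7
      · exact Or.inl h6
    · intro h h6 t ht h7
      rcases h with h | h
      · exact absurd h6 h
      · rcases h t ht with h8 | h8
        · exact absurd h7 h8
        · exact h8
  rw [h1]
  refine (hQ _ k).inter ((hc _).inter ((hc _).inter ((hc _).inter ?_)))
  exact MeasurableSet.biInter (hcnt γ) fun β hβ => (hc _).union
    (MeasurableSet.biInter hEx fun t _ => (hc _).union (hA β t k hβ).compl)

theorem eq_meas {X : Type} [MeasurableSpace X] (F : X → Set ℕ)
    (hF : ∀ k, MeasurableSet {x | k ∈ F x}) (K : Finset ℕ) :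
    MeasurableSet {x | F x = (K : Set ℕ)} := by
  classical
  have h1 : {x | F x = (K : Set ℕ)} =
      ⋂ k : ℕ, (if k ∈ K then {x | k ∈ F x} else {x | k ∈ F x}ᶜ) := by
    ext x
    rw [mem_iInter]
    constructor
    · intro h k
      have h2 : F x = (K : Set ℕ) := h
      by_cases hk : k ∈ K
      · rw [if_pos hk]
        change k ∈ F x
        rw [h2]; exact hk
      · rw [if_neg hk]
        change ¬ k ∈ F x
        rw [h2]; exact hk
    · intro h
      change F x = (K : Set ℕ)
      ext k
      have h2 := h k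
      by_cases hk : k ∈ K
      · rw [if_pos hk] at h2
        exact ⟨fun _ => hk, fun _ => h2⟩
      · rw [if_neg hk] at h2
        exact ⟨fun h3 => absurd h3 h2, fun h3 => absurd h3 hk⟩
  rw [h1]
  refine MeasurableSet.iInter fun k => ?_
  by_cases hk : k ∈ K
  · rw [if_pos hk]; exact hF k
  · rw [if_neg hk]; exact (hF k).compl

theorem wb_meas {I X : Type} [LinearOrder I] [MeasurableSpace X]
    (hcnt : ∀ i : I, (Iio i).Countable) (b : I → ℕ → Set X) (e : I → ℕ) (γ : I)
    (hb : ∀ β j, β < γ → MeasurableSet (b β j)) (k i : ℕ) :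
    MeasurableSet {x | wb b e γ x k i} := by
  have hc : ∀ p : Prop, MeasurableSet {_x : X | p} := fun p => MeasurableSet.const p
  have h1 : {x | wb b e γ x k i} = ⋃ β ∈ Iio γ, ({_x | e β = (Nat.unpair i).1} ∩
      b β (Nat.pair k (Nat.unpair i).2)) := by
    ext x
    simp only [wb, mem_ofPred_eq, mem_iUnion, mem_Iio, mem_inter_iff, exists_prop]
  rw [h1]
  exact MeasurableSet.biUnion (hcnt γ) fun β hβ => (hc _).inter (hb β _ hβ)

end IKM

open IKM in
theorem pr_KM (h1 : StQM) : StKM := by
  classical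
  intro I X T _ hcnt b A γ hA e Ex idx hEx Z u v K
  have hSb : Sb b γ ≤ Gm b (chf Z) γ := le_sup_right
  refine @eq_meas X (Gm b (chf Z) γ)
    (fun x => Kt (fun β t => A β t x) e Ex idx (wb b e γ x) (Z x) γ u v) (fun k => ?_) K
  refine @mem_meas I X T _ (Gm b (chf Z) γ) hcnt A γ ?_ e Ex idx hEx
    (fun x => wb b e γ x) Z ?_ u v k
  · intro β t k hβ
    exact hSb _ (hA β t k hβ)
  · refine h1 X (Gm b (chf Z) γ) (fun x => wb b e γ x) Z ?_ ?_
    · intro k i
      refine @wb_meas I X _ (Gm b (chf Z) γ) hcnt b e γ ?_ k i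
      intro β j hβ
      exact hSb _ (MeasurableSpace.measurableSet_generateFrom ⟨β, hβ, j, rfl⟩)
    · intro l
      refine (le_sup_left : MeasurableSpace.comap (chf Z) inferInstance ≤ Gm b (chf Z) γ) _ ?_
      refine ⟨{y : Y | y l = true}, ?_, ?_⟩
      · exact measurableSet_eq_fun (measurable_pi_apply l) measurable_const
      · ext x
        simp [chf]

end Pool.Agent.Work.MP_da56a7_lc.C
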