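import Pool.Agent.Work.MP_da56a7_lc.C.Stmts

set_option autoImplicit false

/-!
# MP_da56a7_lc, block C, item Main: the main argument
-/

open MeasureTheory Set Filter

namespace Pool.Agent.Work.MP_da56a7_lc.C

open Pool.Agent.Work.MP_da56a7_lc.B

namespace IMain

theorem kt_mono {I T : Type} [LT I] (A : I → T → Set ℕ) (e : I → ℕ) (Ex : Set T) (idx : T → ℕ)
    (w : ℕ → ℕ → Prop) (Z : Set ℕ) (γ : I) (u : ℕ) {v v' : ℕ} (h : v ≤ v') :
    Kt A e Ex idx w Z γ u v ⊆ Kt A e Ex idx w Z γ u v' := by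
  rintro k ⟨h1, h2, h3, h4, h5⟩
  exact ⟨h1, h2, lt_of_lt_of_le h3 h, h4, h5⟩

theorem kt_sub {I T : Type} [LT I] (A : I → T → Set ℕ) (e : I → ℕ) (Ex : Set T) (idx : T → ℕ)
    (w : ℕ → ℕ → Prop) (Z : Set ℕ) (γ : I) (u v : ℕ) :
    Kt A e Ex idx w Z γ u v ⊆ Iio v := fun _ hk => hk.2.2.1

theorem enn {a : ENNReal} {n : ℕ} (h : ((4 ^ n : ℕ) : ENNReal) * a ≤ 2 ^ n) :
    a ≤ (2⁻¹ : ENNReal) ^ n := by
  have h1 : ((4 ^ n : ℕ) : ENNReal) * a = 2 ^ n * (2 ^ n * a) := by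
    push_cast
    rw [← mul_assoc, ← mul_pow]
    norm_num
  rw [h1] at h
  have h2 : (2 : ENNReal) ^ n * (2 ^ n * a) ≤ 2 ^ n * 1 := by rw [mul_one]; exact h
  have h3 : (2 : ENNReal) ^ n * a ≤ 1 :=
    (ENNReal.mul_le_mul_iff_right (pow_ne_zero n (by norm_num))
      (ENNReal.pow_ne_top (by norm_num))).1 h2
  rw [← ENNReal.inv_pow, ← one_div, ENNReal.le_div_iff_mul_le
    (Or.inl (pow_ne_zero n (by norm_num))) (Or.inl (ENNReal.pow_ne_top (by norm_num))), mul_comm]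
  exact h3

end IMain

open IMain in
theorem pr_Main (h1 : StMeasA) (h2 : StKM) (h3 : StThr) (h4 : StHit) (h5 : StBad) : StMain := by
  classical
  intro I X T1 T2 _ _ _ μ _ hall hcnt hadd b hbits e g S F Ex idx A hinj hmono hF hdom hExc hidx
    hsys
  by_contra hcon
  push Not at hcon
  choose Z hZinf hZval hZA using hcon
  obtain ⟨γ, hγ⟩ := hbits (chf Z)
  choose t1 ht1 using fun x => hF (yb (wb b (e γ) γ x) (Z x))
  have hthr : ∀ x u, ∃ v, 4 ^ u ≤ (Kt (fun β t => A β t x) (e γ) (Ex (t1 x)) (idx (t1 x))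
      (wb b (e γ) γ x) (Z x) γ u v).ncard := fun x u =>
    h3 I (T1 × T2) (fun β t => A β t x) (e γ) (Ex (t1 x)) (idx (t1 x)) (wb b (e γ) γ x) (Z x) γ
      (hinj γ) (hidx (t1 x)) (hZinf x) (fun β _ t _ => hZA x β t) (hZval x) u
  choose φ hφ using hthr
  choose t2 ht2 using fun x => hdom (φ x)
  -- a positive part
  obtain ⟨t, ht⟩ : ∃ t : T1 × T2, μ {x | (t1 x, t2 x) = t} ≠ 0 := by
    by_contra hc
    push Not at hc
    have h6 := hadd (fun t => {x | (t1 x, t2 x) = t}) hc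
    have h7 : (⋃ t : T1 × T2, {x | (t1 x, t2 x) = t}) = univ :=
      eq_univ_of_forall fun x => mem_iUnion.2 ⟨(t1 x, t2 x), rfl⟩
    rw [h7, measure_univ] at h6
    exact one_ne_zero h6
  have hmA : ∀ β u k, β < γ → MeasurableSet[Sb b γ] {x | k ∈ A β u x} :=
    fun β u k hβ => h1 I X T1 T2 hcnt b e g S F Ex idx A hExc hsys γ β u k hβ
  obtain ⟨K, hK⟩ : ∃ K : ℕ → X → Set ℕ, ∀ n x, K n x = Kt (fun β u => A β u x) (e γ) (Ex t.1)
      (idx t.1) (wb b (e γ) γ x) (Z x) γ (g t.2 n) (g t.2 (n + 1)) := ⟨_, fun _ _ => rfl⟩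
  have hKsub : ∀ n x, K n x ⊆ Iio (g t.2 (n + 1)) := fun n x => by
    rw [hK]
    exact kt_sub _ _ _ _ _ _ _ _ _
  have hbad : ∀ n, μ {x | 4 ^ n ≤ (K n x).ncard ∧ ∀ k ∈ K n x,
      ¬ ∀ m, m < n → (x ∈ b γ (Nat.pair k m) ↔ S t m = true)} ≤ (2⁻¹ : ENNReal) ^ n := by
    intro n
    refine enn ?_
    refine h5 I X μ hall b γ (chf Z) hγ n (S t) (g t.2 (n + 1)) (K n) (hKsub n) ?_ (4 ^ n)
    intro K'
    have := h2 I X (T1 × T2) hcnt b A γ hmA (e γ) (Ex t.1) (idx t.1) (hExc t.1) Z (g t.2 n)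
      (g t.2 (n + 1)) K'
    simp only [hK]
    exact this
  have hsum : ∑' n, μ {x | 4 ^ n ≤ (K n x).ncard ∧ ∀ k ∈ K n x,
      ¬ ∀ m, m < n → (x ∈ b γ (Nat.pair k m) ↔ S t m = true)} ≠ ⊤ := by
    refine ne_top_of_le_ne_top ?_ (ENNReal.tsum_le_tsum hbad)
    rw [ENNReal.tsum_geometric]
    norm_num
  have hnull := measure_setOfPred_frequently_eq_zero hsum
  obtain ⟨x, hxt, hxV⟩ : ∃ x ∈ {x | (t1 x, t2 x) = t},
      x ∉ {x | ∃ᶠ n in atTop, 4 ^ n ≤ (K n x).ncard ∧ ∀ k ∈ K n x,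
      ¬ ∀ m, m < n → (x ∈ b γ (Nat.pair k m) ↔ S t m = true)} := by
    by_contra hc
    exact ht (measure_mono_null (fun x hx => by_contra fun h => hc ⟨x, hx, h⟩) hnull)
  have hxV' : ∀ᶠ n in atTop, ¬ (4 ^ n ≤ (K n x).ncard ∧ ∀ k ∈ K n x,
      ¬ ∀ m, m < n → (x ∈ b γ (Nat.pair k m) ↔ S t m = true)) := by
    rw [← Filter.not_frequently]
    exact hxV
  have hxt' : (t1 x, t2 x) = t := hxt
  have hx1 : t1 x = t.1 := congrArg Prod.fst hxt'
  have hx2 : t2 x = t.2 := congrArg Prod.snd hxt'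
  obtain ⟨N, hN⟩ := eventually_atTop.1 hxV'
  refine (Set.infinite_of_forall_exists_gt (s := Z x ∩ A γ t x) fun m => ?_) (hZA x γ t)
  have hnm : N ≤ N + m + 1 := by omega
  set n := N + m + 1 with hn
  have hcard : 4 ^ n ≤ (K n x).ncard := by
    have h7 := hφ x (g t.2 n)
    rw [hx1] at h7
    have h8 : Kt (fun β u => A β u x) (e γ) (Ex t.1) (idx t.1) (wb b (e γ) γ x) (Z x) γ
        (g t.2 n) (φ x (g t.2 n)) ⊆ K n x := by
      rw [hK]
      refine kt_mono _ _ _ _ _ _ _ _ ?_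
      have := ht2 x n
      rwa [hx2] at this
    have h9 := Set.ncard_le_ncard h8 ((Set.finite_Iio _).subset (hKsub n x))
    have h10 : 4 ^ n ≤ 4 ^ g t.2 n := Nat.pow_le_pow_right (by norm_num) ((hmono t.2).le_apply)
    omega
  have h11 : ∃ k ∈ K n x, ∀ m, m < n → (x ∈ b γ (Nat.pair k m) ↔ S t m = true) := by
    by_contra hc
    exact hN n hnm ⟨hcard, fun k hk h => hc ⟨k, hk, h⟩⟩
  obtain ⟨k, hk, hk1⟩ := h11
  rw [hK] at hk
  have hmem : ∀ l, (fun m => yb (wb b (e γ) γ x) (Z x) (Nat.pair l m)) ∈ F t.1 l := by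
    intro l
    have := ht1 x l
    rwa [hx1] at this
  have h12 := h4 I X T1 T2 b e g S F Ex idx A hmono hsys (Z x) γ t x n k (hinj γ) (hZinf x) hmem
    hk hk1
  exact ⟨k, h12.1, by omega⟩

end Pool.Agent.Work.MP_da56a7_lc.C
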