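import Pool.Agent.Work.MP_da56a7_lc.C.Stmts

set_option autoImplicit false

/-!
# MP_da56a7_lc, block C, item MeasA: the sets of the family depend measurably on `x`
-/

open MeasureTheory Set Filter

namespace Pool.Agent.Work.MP_da56a7_lc.C

open Pool.Agent.Work.MP_da56a7_lc.B

namespace IMeasA

theorem meas_iff_const {X : Type} (m : MeasurableSpace X) (s : Set X) (hs : MeasurableSet[m] s)
    (p : Prop) : MeasurableSet[m] {x | x ∈ s ↔ p} := by
  by_cases hp : p
  · have : {x | x ∈ s ↔ p} = s := by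
      ext x
      simp [hp]
    rw [this]
    exact hs
  · have : {x | x ∈ s ↔ p} = sᶜ := by
      ext x
      simp [hp]
    rw [this]
    exact @MeasurableSet.compl X _ m hs

theorem meas_bits {X : Type} (m : MeasurableSpace X) (s : ℕ → Set X)
    (hs : ∀ j, MeasurableSet[m] (s j)) (n : ℕ) (y : ℕ → Prop) :
    MeasurableSet[m] {x | ∀ j, j < n → (x ∈ s j ↔ y j)} := by
  have h : {x | ∀ j, j < n → (x ∈ s j ↔ y j)} = ⋂ j ∈ {j | j < n}, {x | x ∈ s j ↔ y j} := by
    ext x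
    simp
  rw [h]
  refine @MeasurableSet.biInter X ℕ m _ _ (Set.to_countable _) ?_
  intro j _
  exact meas_iff_const m (s j) (hs j) (y j)

theorem meas_ex {X : Type} (m : MeasurableSpace X) (s : ℕ → Set X)
    (hs : ∀ j, MeasurableSet[m] (s j)) (n : ℕ) (F : Set Y) :
    MeasurableSet[m] {x | ∃ y ∈ F, ∀ j, j < n → (x ∈ s j ↔ y j = true)} := by
  have h : {x | ∃ y ∈ F, ∀ j, j < n → (x ∈ s j ↔ y j = true)} =
      ⋃ ε ∈ {ε : Fin n → Bool | ∃ y ∈ F, ∀ j : Fin n, y j = ε j},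
        {x | ∀ j, j < n → (x ∈ s j ↔ ∃ h : j < n, ε ⟨j, h⟩ = true)} := by
    ext x
    simp only [Set.mem_setOf_eq, Set.mem_iUnion, exists_prop]
    constructor
    · rintro ⟨y, hy, hx⟩
      refine ⟨fun j => y j, ⟨y, hy, fun j => rfl⟩, fun j hj => ?_⟩
      rw [hx j hj]
      exact ⟨fun h => ⟨hj, h⟩, fun h => h.2⟩
    · rintro ⟨ε, ⟨y, hy, he⟩, hx⟩
      refine ⟨y, hy, fun j hj => ?_⟩
      rw [hx j hj]
      have h1 := he ⟨j, hj⟩
      constructor
      · rintro ⟨h, h2⟩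
        exact h1.trans h2
      · intro h2
        exact ⟨hj, h1.symm.trans h2⟩
  rw [h]
  refine @MeasurableSet.biUnion X _ m _ _ (Set.to_countable _) ?_
  intro ε _
  exact meas_bits m s hs n _

end IMeasA

theorem pr_MeasA : StMeasA := by
  intro I X T1 T2 _ _ hI b e g S F Ex idx A hEx hs γ β
  induction β using WellFoundedLT.induction with
  | ind β ih =>
    intro t k hβ
    have hb : ∀ β' : I, β' < γ → ∀ j, MeasurableSet[Sb b γ] (b β' j) := fun β' h j =>
      MeasurableSpace.measurableSet_generateFrom ⟨β', h, j, rfl⟩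
    have hset : {x | k ∈ A β t x} = {x | Nf (g t.2) k < val k} ∩
        ({x | ∀ m, m < Nf (g t.2) k → (x ∈ b β (Nat.pair k m) ↔ S t m = true)} ∩
        ⋂ β' ∈ {β' | β' < β ∧ e β β' ≤ Nf (g t.2) k},
          ({x | ∃ y ∈ F t.1 (e β β'), ∀ m, m < Nf (g t.2) k →
            (x ∈ b β' (Nat.pair k m) ↔ y m = true)} ∩
          ⋂ u ∈ {u | u ∈ Ex t.1 ∧ idx t.1 u ≤ Nf (g t.2) k}, {x | k ∈ A β' u x}ᶜ)) := by
      ext x
      simp only [Set.mem_setOf_eq, Set.mem_inter_iff, Set.mem_iInter, Set.mem_compl_iff]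
      rw [hs β t x k]
      constructor
      · rintro ⟨h1, h2, h3⟩
        exact ⟨h1, h2, fun β' h => ⟨(h3 β' h.1 h.2).1, fun u hu => (h3 β' h.1 h.2).2 u hu.1 hu.2⟩⟩
      · rintro ⟨h1, h2, h3⟩
        exact ⟨h1, h2, fun β' h h' =>
          ⟨(h3 β' ⟨h, h'⟩).1, fun u hu hu' => (h3 β' ⟨h, h'⟩).2 u ⟨hu, hu'⟩⟩⟩
    rw [hset]
    have hc : ({β' | β' < β ∧ e β β' ≤ Nf (g t.2) k} : Set I).Countable :=
      (hI β).mono (fun β' h => h.1)
    have hc2 : ({u | u ∈ Ex t.1 ∧ idx t.1 u ≤ Nf (g t.2) k} : Set (T1 × T2)).Countable :=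
      (hEx t.1).mono (fun u h => h.1)
    refine @MeasurableSet.inter X (Sb b γ) _ _ ?_ (@MeasurableSet.inter X (Sb b γ) _ _ ?_ ?_)
    · exact @MeasurableSet.const X (Sb b γ) _
    · exact IMeasA.meas_bits (Sb b γ) (fun m => b β (Nat.pair k m)) (fun m => hb β hβ _) _
        (fun m => S t m = true)
    · refine @MeasurableSet.biInter X I (Sb b γ) _ _ hc ?_
      intro β' h
      refine @MeasurableSet.inter X (Sb b γ) _ _ ?_ ?_
      · exact IMeasA.meas_ex (Sb b γ) (fun m => b β' (Nat.pair k m))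
          (fun m => hb β' (h.1.trans hβ) _) _ _
      · refine @MeasurableSet.biInter X (T1 × T2) (Sb b γ) _ _ hc2 ?_
        intro u hu
        exact @MeasurableSet.compl X _ (Sb b γ) (ih β' h.1 u k (h.1.trans hβ))

end Pool.Agent.Work.MP_da56a7_lc.C
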