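import Pool.Agent.Work.MP_da56a7_lc.C.Stmts

set_option autoImplicit false

/-!
# MP_da56a7_lc, block C: item NC

The cardinality of the space of an atomless total measure is larger than every chain length of a
Borel preorder: the two iterated integrals of the indicator of the set of the pairs
`(x, y)` with `r (f x) (f y)` differ.
-/

open MeasureTheory Set Filter

namespace Pool.Agent.Work.MP_da56a7_lc.C

open Pool.Agent.Work.MP_da56a7_lc.B

theorem INC.enum {X : Type} [MeasurableSpace X] {μ : Measure X} (hT : Tot X μ) :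
    ∃ e : X ≃ (Cardinal.mk X).ord.ToType, ∀ i : X, μ {j | e j ≤ e i} = 0 := by
  obtain ⟨e⟩ : Nonempty (X ≃ (Cardinal.mk X).ord.ToType) :=
    Cardinal.eq.1 (Cardinal.mk_ord_toType (Cardinal.mk X)).symm
  refine ⟨e, fun i => ?_⟩
  have h1 : Cardinal.mk {j | e j < e i} < Cardinal.mk X := by
    have h2 := Cardinal.mk_Iio_toType_ord_lt (e i)
    refine lt_of_le_of_lt ?_ h2
    refine Cardinal.mk_le_of_injective
      (f := fun j : {j | e j < e i} => (⟨e j.1, j.2⟩ : Iio (e i))) ?_
    intro a b hab
    apply Subtype.ext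
    exact e.injective (congrArg Subtype.val hab)
  have h3 : {j | e j ≤ e i} = {j | e j < e i} ∪ {i} := by
    ext j
    simp only [mem_setOf_eq, mem_union, mem_singleton_iff, le_iff_lt_or_eq, e.injective.eq_iff]
  rw [h3]
  exact measure_union_null ((pr_Small X μ hT).1 _ h1) (hT.pts i)

theorem pr_NC (h1 : StWF) : StNC := by
  intro X _ μ hT c hc
  by_contra hcon
  have hle : Cardinal.mk X ≤ c := not_lt.1 hcon
  obtain ⟨r, hr, s, hs⟩ := h1.1 _ _ hle hc
  have _hp := hT.prob
  obtain ⟨e, he⟩ := INC.enum hT
  have hf : Measurable fun x : X => s (e x) := fun t _ => hT.allM _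
  have hD : MeasurableSet {p : X × X | r (s (e p.1)) (s (e p.2))} := by
    have h2 : Measurable fun p : X × X => (s (e p.1), s (e p.2)) :=
      (hf.comp measurable_fst).prodMk (hf.comp measurable_snd)
    exact h2 hr.meas
  -- the sections over the first coordinate are conull
  have hA : ∀ x : X, μ (Prod.mk x ⁻¹' {p : X × X | r (s (e p.1)) (s (e p.2))}) = 1 := by
    intro x
    have h3 : {j | e j ≤ e x}ᶜ ⊆ Prod.mk x ⁻¹' {p : X × X | r (s (e p.1)) (s (e p.2))} := by
      intro y hy
      exact (hs _ _ (not_le.1 hy)).1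
    have h4 : μ ({j | e j ≤ e x}ᶜ) = 1 := by
      rw [prob_compl_eq_one_iff (hT.allM _)]
      exact he x
    exact le_antisymm prob_le_one (h4 ▸ measure_mono h3)
  -- the sections over the second coordinate are null
  have hB : ∀ y : X, μ ((fun x => (x, y)) ⁻¹' {p : X × X | r (s (e p.1)) (s (e p.2))}) = 0 := by
    intro y
    refine measure_mono_null ?_ (he y)
    intro x hx
    by_contra h5
    exact (hs _ _ (not_le.1 h5)).2 hx
  have h6 := Measure.prod_apply (μ := μ) (ν := μ) hD
  have h7 := Measure.prod_apply_symm (μ := μ) (ν := μ) hD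
  rw [h6] at h7
  simp only [hA, hB, lintegral_const, measure_univ, mul_one] at h7
  exact one_ne_zero h7

end Pool.Agent.Work.MP_da56a7_lc.C
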