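import Pool.Agent.Work.MP_da56a7_lc.C.Stmts

set_option autoImplicit false

/-!
# MP_da56a7_lc, block C, item PP: products of Borel preorders modulo finite sets
-/

open MeasureTheory Set Filter

namespace Pool.Agent.Work.MP_da56a7_lc.C

open Pool.Agent.Work.MP_da56a7_lc.B

namespace IPP

/-- the `n`-th column -/
def col (n : ℕ) (u : Y) : Y := fun m => u (Nat.pair n m)

/-- all columns together -/
def glue (x : ℕ → Y) : Y := fun i => x (Nat.unpair i).1 (Nat.unpair i).2

theorem col_glue (n : ℕ) (x : ℕ → Y) : col n (glue x) = x n := by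
  funext m
  simp [col, glue, Nat.unpair_pair]

theorem meas_col (n : ℕ) : Measurable (col n) := by
  unfold col
  exact measurable_pi_iff.mpr fun m => measurable_pi_apply _

end IPP

open IPP in
theorem pr_PP : StPP := by
  intro r hr
  refine ⟨fun u v => ∀ᶠ n in atTop, r n (col n u) (col n v), glue, ⟨?_, ?_, ?_⟩, ?_⟩
  · intro x
    exact Eventually.of_forall fun n => (hr n).refl _
  · intro x y z h1 h2
    filter_upwards [h1, h2] with n a b
    exact (hr n).trans _ _ _ a b
  · have h : {p : Y × Y | ∀ᶠ n in atTop, r n (col n p.1) (col n p.2)} =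
        ⋃ N : ℕ, ⋂ n : ℕ, ⋂ _ : N ≤ n, {p : Y × Y | r n (col n p.1) (col n p.2)} := by
      ext p
      simp only [mem_setOf_eq, eventually_atTop, mem_iUnion, mem_iInter]
    rw [h]
    refine MeasurableSet.iUnion fun N => MeasurableSet.iInter fun n => MeasurableSet.iInter fun _ => ?_
    have hm : Measurable (fun p : Y × Y => (col n p.1, col n p.2)) :=
      ((meas_col n).comp measurable_fst).prodMk ((meas_col n).comp measurable_snd)
    exact hm (hr n).meas
  · intro x y
    simp only [col_glue]

end Pool.Agent.Work.MP_da56a7_lc.C
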