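import Pool.Agent.Work.MP_da56a7_lc.C.Stmts

set_option autoImplicit false

/-!
# MP_da56a7_lc, block C, item Prod (helper85)
-/

open MeasureTheory Set Filter

namespace Pool.Agent.Work.MP_da56a7_lc.C

open Pool.Agent.Work.MP_da56a7_lc.B

theorem pr_Prod (h1 : StPP) (h2 : StSeq) : StProd := by
  intro ν hν hcof hW
  obtain ⟨c, hc, f, hf⟩ := h2 ν hν hcof
  choose r hr s hs using fun n => hW (c n) (hc n)
  obtain ⟨R, φ, hR, hφ⟩ := h1 r hr
  refine ⟨R, hR, fun i => φ fun n => s n (f i n), fun i j hij => ⟨?_, fun h => ?_⟩⟩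
  · rw [hφ]
    filter_upwards [hf i j hij] with n hn
    exact (hs n _ _ hn).1
  · rw [hφ] at h
    obtain ⟨n, hn1, hn2⟩ := (h.and (hf i j hij)).exists
    exact (hs n _ _ hn2).2 hn1

end Pool.Agent.Work.MP_da56a7_lc.C
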