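import Pool.Agent.Work.MP_da56a7_lc.C.Stmts

set_option autoImplicit false

/-!
# MP_da56a7_lc, block C, item Q: the leftmost cluster point
-/

open MeasureTheory Set Filter

namespace Pool.Agent.Work.MP_da56a7_lc.C

open Pool.Agent.Work.MP_da56a7_lc.B

theorem pr_Q : StQ := by
  intro w Z hZ
  constructor
  · intro n
    induction n with
    | zero => exact hZ
    | succ n ih =>
      by_cases h : {k | k ∈ Qs w Z n ∧ ¬ w k n}.Infinite
      · refine h.mono ?_
        rintro k ⟨hk, hw⟩
        exact ⟨hk, ⟨fun h1 => absurd h1 hw, fun h1 => absurd h h1⟩⟩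
      · have h2 : (Qs w Z n \ {k | k ∈ Qs w Z n ∧ ¬ w k n}).Infinite :=
          ih.sdiff (Set.not_infinite.1 h)
        refine h2.mono ?_
        rintro k ⟨hk, hw⟩
        refine ⟨hk, ⟨fun _ => h, fun _ => ?_⟩⟩
        by_contra h3
        exact hw ⟨hk, h3⟩
  · intro n
    induction n with
    | zero =>
      intro k hk
      exact ⟨hk, fun i hi => absurd hi (Nat.not_lt_zero i)⟩
    | succ n ih =>
      rintro k ⟨hk, hw⟩
      refine ⟨(ih k hk).1, fun i hi => ?_⟩
      rcases Nat.lt_succ_iff_lt_or_eq.1 hi with h1 | rfl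
      · exact (ih k hk).2 i h1
      · rw [hw]
        simp only [yb, decide_eq_true_eq]

end Pool.Agent.Work.MP_da56a7_lc.C
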