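import Pool.Agent.Work.MP_da56a7_lc.C.Stmts

set_option autoImplicit false

/-!
# MP_da56a7_lc, block C, item QM: measurability of the sets `Qs`
-/

open MeasureTheory Set Filter

namespace Pool.Agent.Work.MP_da56a7_lc.C

open Pool.Agent.Work.MP_da56a7_lc.B

namespace IQM

/-- the set of the points where an equivalence holds -/
theorem iff_meas {X : Type} {m : MeasurableSpace X} {p q : X → Prop}
    (hp : MeasurableSet[m] {x | p x}) (hq : MeasurableSet[m] {x | q x}) :
    MeasurableSet[m] {x | p x ↔ q x} := by
  have h : {x | p x ↔ q x} = ({x | p x} ∩ {x | q x}) ∪ ({x | p x}ᶜ ∩ {x | q x}ᶜ) := by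
    ext x
    simp only [mem_setOf_eq, mem_union, mem_inter_iff, mem_compl_iff]
    tauto
  rw [h]
  exact (hp.inter hq).union (hp.compl.inter hq.compl)

/-- the set of the points where a set of naturals is infinite -/
theorem inf_meas {X : Type} {m : MeasurableSpace X} {p : X → ℕ → Prop}
    (hp : ∀ j, MeasurableSet[m] {x | p x j}) :
    MeasurableSet[m] {x | {j | p x j}.Infinite} := by
  have h : {x | {j | p x j}.Infinite} = ⋂ N : ℕ, ⋃ j : ℕ, ⋃ _ : N ≤ j, {x | p x j} := by
    ext x
    simp only [mem_setOf_eq, mem_iInter, mem_iUnion]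
    rw [← Nat.frequently_atTop_iff_infinite, frequently_atTop]
    simp only [ge_iff_le, exists_prop]
  rw [h]
  exact MeasurableSet.iInter fun N => MeasurableSet.iUnion fun j =>
    MeasurableSet.iUnion fun _ => hp j

end IQM

/-- item QM -/
theorem pr_QM : StQM := by
  intro X m w Z hw hZ n
  induction n with
  | zero => exact hZ
  | succ n ih =>
    intro k
    have h1 : MeasurableSet[m] {x | {j | j ∈ Qs (w x) (Z x) n ∧ ¬ w x j n}.Infinite} := by
      apply IQM.inf_meas
      intro j
      exact (ih j).inter (hw j n).compl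
    have h2 : MeasurableSet[m]
        {x | w x k n ↔ ¬ {j | j ∈ Qs (w x) (Z x) n ∧ ¬ w x j n}.Infinite} :=
      IQM.iff_meas (hw k n) h1.compl
    exact (ih k).inter h2

end Pool.Agent.Work.MP_da56a7_lc.C
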