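import Pool.Agent.Work.MP_da56a7_lc.C.Stmts

/-!
# MP_da56a7_lc, block C, item Rec: the recursion (helper51)
-/

set_option autoImplicit false

open MeasureTheory Set Filter

namespace Pool.Agent.Work.MP_da56a7_lc.C

open Pool.Agent.Work.MP_da56a7_lc.B

theorem pr_Rec : StRec := by
  intro I X T1 T2 _ _ b e g S F Ex idx
  let G : (α : I) → ((β : I) → β < α → T1 × T2 → X → Set ℕ) → T1 × T2 → X → Set ℕ :=
    fun α ih t x => {k | Nf (g t.2) k < val k ∧
      (∀ m, m < Nf (g t.2) k → (x ∈ b α (Nat.pair k m) ↔ S t m = true)) ∧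
      ∀ β (h : β < α), e α β ≤ Nf (g t.2) k →
        (∃ y ∈ F t.1 (e α β), ∀ m, m < Nf (g t.2) k → (x ∈ b β (Nat.pair k m) ↔ y m = true)) ∧
        ∀ u ∈ Ex t.1, idx t.1 u ≤ Nf (g t.2) k → k ∉ ih β h u x}
  refine ⟨WellFounded.fix (wellFounded_lt) G, ?_⟩
  intro α t x k
  rw [WellFounded.fix_eq]
  exact Iff.rfl

end Pool.Agent.Work.MP_da56a7_lc.C
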