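import Pool.Agent.Work.MP_da56a7_lc.C.Stmts

set_option autoImplicit false
set_option linter.deprecated false

/-!
# MP_da56a7_lc, block C, item Reg: a real-valued measurable cardinal is regular
-/

open MeasureTheory Set Filter

namespace Pool.Agent.Work.MP_da56a7_lc.C

open Pool.Agent.Work.MP_da56a7_lc.B

theorem pr_Reg : StReg := by
  intro X _ μ hT
  refine ⟨hT.unc.le, ?_⟩
  by_contra hcon
  rw [not_le, ← Ordinal.cof_toType] at hcon
  obtain ⟨S, hS, hcard⟩ := Order.exists_cof_eq (α := (Cardinal.mk X).ord.ToType)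
  rw [← hcard] at hcon
  obtain ⟨e⟩ : Nonempty (X ≃ (Cardinal.mk X).ord.ToType) :=
    Cardinal.eq.1 (Cardinal.mk_ord_toType (Cardinal.mk X)).symm
  have h1 : ∀ s : (Cardinal.mk X).ord.ToType, Cardinal.mk {j | e j ≤ s} < Cardinal.mk X := by
    intro s
    have h2 : Cardinal.mk {j | e j < s} < Cardinal.mk X := by
      refine lt_of_le_of_lt ?_ (Cardinal.mk_Iio_toType_ord_lt s)
      refine Cardinal.mk_le_of_injective
        (f := fun j : {j | e j < s} => (⟨e j.1, j.2⟩ : Iio s)) ?_
      intro a b hab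
      apply Subtype.ext
      exact e.injective (congrArg Subtype.val hab)
    have h3 : {j | e j ≤ s} ⊆ {j | e j < s} ∪ {e.symm s} := by
      intro j hj
      have hj' : e j ≤ s := hj
      rcases lt_or_eq_of_le hj' with h4 | h4
      · exact Or.inl h4
      · right
        rw [mem_singleton_iff, ← h4, Equiv.symm_apply_apply]
    refine lt_of_le_of_lt (Cardinal.mk_le_mk_of_subset h3) ?_
    refine lt_of_le_of_lt (Cardinal.mk_union_le _ _) ?_
    refine Cardinal.add_lt_of_lt hT.unc.le h2 ?_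
    rw [Cardinal.mk_singleton]
    exact Cardinal.one_lt_aleph0.trans hT.unc
  have h3 : μ (⋃ s : S, {j | e j ≤ s.1}) = 0 :=
    (pr_Small X μ hT).2 S (fun s => {j | e j ≤ s.1}) hcon fun s => h1 s.1
  have h4 : (⋃ s : S, {j | e j ≤ s.1}) = univ := by
    refine eq_univ_of_forall fun j => ?_
    obtain ⟨s, hs, hjs⟩ := hS (e j)
    exact mem_iUnion.2 ⟨⟨s, hs⟩, hjs⟩
  rw [h4] at h3
  have := hT.prob
  rw [measure_univ] at h3
  exact one_ne_zero h3

end Pool.Agent.Work.MP_da56a7_lc.C
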