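import Pool.Agent.Work.MP_da56a7_lc.C.Stmts

set_option autoImplicit false

/-!
# MP_da56a7_lc, block C, item Scale (helper21): a scale is a chain in a Borel preorder
-/

open MeasureTheory Set Filter

namespace Pool.Agent.Work.MP_da56a7_lc.C

open Pool.Agent.Work.MP_da56a7_lc.B

namespace IScale

theorem notCountableY : ¬ Countable Y := by
  have h2 : Cardinal.mk Y = Cardinal.continuum := by
    simp [Y]
  rw [← Cardinal.mk_le_aleph0_iff, h2, not_le]
  exact Cardinal.aleph0_lt_continuum

theorem notCountableN : ¬ Countable (ℕ → ℕ) := by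
  have h2 : Cardinal.mk (ℕ → ℕ) = Cardinal.continuum := by
    simp
  rw [← Cardinal.mk_le_aleph0_iff, h2, not_le]
  exact Cardinal.aleph0_lt_continuum

/-- the Borel preorder -/
def rel (φ : Y ≃ᵐ (ℕ → ℕ)) (x y : Y) : Prop := ∀ᶠ n in atTop, φ x n ≤ φ y n

theorem pre (φ : Y ≃ᵐ (ℕ → ℕ)) : Pre (rel φ) where
  refl x := Eventually.of_forall fun _ => le_rfl
  trans x y z h1 h2 := by
    filter_upwards [h1, h2] with n h3 h4
    exact h3.trans h4
  meas := by
    have e : {p : Y × Y | rel φ p.1 p.2} = ⋃ N : ℕ, ⋂ n : ℕ, ⋂ _ : N ≤ n, {p : Y × Y | φ p.1 n ≤ φ p.2 n} := by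
      ext p
      simp only [rel, eventually_atTop, mem_iUnion, mem_iInter]
      rfl
    rw [e]
    refine MeasurableSet.iUnion fun N => MeasurableSet.iInter fun n => MeasurableSet.iInter fun _ => ?_
    apply measurableSet_le
    · exact (measurable_pi_apply n).comp (φ.measurable.comp measurable_fst)
    · exact (measurable_pi_apply n).comp (φ.measurable.comp measurable_snd)

end IScale

theorem pr_Scale (h1 : StWF) : StScale := by
  rintro ⟨J, _, _, g, hg, hD⟩
  have φ : Y ≃ᵐ (ℕ → ℕ) :=
    PolishSpace.measurableEquivOfNotCountable IScale.notCountableY IScale.notCountableN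
  have hch : Chain (IScale.rel φ) (fun j => φ.symm (g j)) := by
    intro i j hij
    simp only [IScale.rel, MeasurableEquiv.apply_symm_apply]
    exact hg i j hij
  have hinj : Function.Injective g := by
    intro i j hij
    rcases lt_trichotomy i j with h | h | h
    · exact absurd (Eventually.of_forall fun n => by rw [hij]) (hg i j h).2
    · exact h
    · exact absurd (Eventually.of_forall fun n => by rw [hij]) (hg j i h).2
  refine ⟨range g, hD, ?_⟩
  rw [Cardinal.mk_range_eq g hinj]
  exact h1.2.1 (IScale.rel φ) (IScale.pre φ) J (fun j => φ.symm (g j)) hch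

end Pool.Agent.Work.MP_da56a7_lc.C
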