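import Pool.Agent.Work.MP_da56a7_lc.C.Stmts

set_option autoImplicit false

/-!
# MP_da56a7_lc, block C: increasing functions in a product of regular cardinals
-/

open MeasureTheory Set Filter

namespace Pool.Agent.Work.MP_da56a7_lc.C

open Pool.Agent.Work.MP_da56a7_lc.B

namespace ISeq

open Cardinal Ordinal

/-- a cardinal above `ℵ₀` of countable cofinality is not a successor -/
theorem succ_lt (ν : Cardinal.{0}) (h0 : ℵ₀ < ν) (hc : ν.ord.cof ≤ ℵ₀) (a : Cardinal.{0})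
    (ha : ℵ₀ ≤ a) (hlt : a < ν) : Order.succ a < ν := by
  refine lt_of_le_of_ne (Order.succ_le_of_lt hlt) ?_
  intro he
  have h1 : (Order.succ a).IsRegular := isRegular_succ ha
  rw [he] at h1
  rw [h1.cof_ord] at hc
  exact absurd h0 (not_lt.2 hc)

/-- a countable sequence of cardinals, cofinal in `ν` -/
theorem exists_seq (ν : Cardinal.{0}) (h0 : ℵ₀ < ν) (hc : ν.ord.cof ≤ ℵ₀) :
    ∃ a : ℕ → Cardinal.{0}, (∀ n, a n < ν) ∧ ∀ c, c < ν → ∃ n, c ≤ a n := by
  obtain ⟨S, hS, hS'⟩ := Order.exists_cof_eq (α := ν.ord.ToType)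
  have hνpos : 0 < ν := lt_trans aleph0_pos h0
  have hne : Nonempty ν.ord.ToType := by
    rw [← mk_ne_zero_iff, mk_ord_toType]
    exact hνpos.ne'
  have hcnt : Countable S := by
    rw [← mk_le_aleph0_iff, hS', cof_toType]
    exact hc
  have hSne : Nonempty S := hS.nonempty.to_subtype
  obtain ⟨e, he⟩ := exists_surjective_nat S
  refine ⟨fun n => (typein (α := ν.ord.ToType) (· < ·) (e n).1).card, fun n => ?_, fun c hcν => ?_⟩
  · exact lt_ord.1 (typein_lt_self (o := ν.ord) (e n).1)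
  · have h1 : c.ord < type (α := ν.ord.ToType) (· < ·) := by
      rw [type_toType]
      exact ord_lt_ord.2 hcν
    obtain ⟨s, hs, hxs⟩ := hS (enum (α := ν.ord.ToType) (· < ·) ⟨c.ord, h1⟩)
    obtain ⟨n, hn⟩ := he ⟨s, hs⟩
    refine ⟨n, ?_⟩
    have h2 : c.ord ≤ typein (α := ν.ord.ToType) (· < ·) s := by
      have h3 := typein_enum (α := ν.ord.ToType) (· < ·) h1
      rw [← h3]
      rw [← not_lt, typein_lt_typein, not_lt]
      exact hxs
    have h4 : c = c.ord.card := (card_ord c).symm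
    rw [h4]
    show c.ord.card ≤ (typein (α := ν.ord.ToType) (· < ·) (e n).1).card
    rw [hn]
    exact card_le_card h2

/-- a nondecreasing sequence of infinite cardinals, cofinal in `ν` -/
theorem exists_mono (ν : Cardinal.{0}) (h0 : ℵ₀ < ν) (hc : ν.ord.cof ≤ ℵ₀) :
    ∃ a : ℕ → Cardinal.{0}, Monotone a ∧ (∀ n, ℵ₀ ≤ a n) ∧ (∀ n, a n < ν) ∧
      ∀ c, c < ν → ∃ n, c ≤ a n := by
  obtain ⟨a', h1, h2⟩ := exists_seq ν h0 hc
  let a : ℕ → Cardinal.{0} := fun n => Nat.rec ℵ₀ (fun n x => max x (a' n)) n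
  have ha1 : ∀ n, a (n + 1) = max (a n) (a' n) := fun n => rfl
  have hmono : Monotone a := monotone_nat_of_le_succ fun n => by
    rw [ha1]
    exact le_max_left _ _
  refine ⟨a, hmono, fun n => hmono (Nat.zero_le n), fun n => ?_, fun c hc => ?_⟩
  · induction n with
    | zero => exact h0
    | succ n ih =>
      rw [ha1]
      exact max_lt ih (h1 n)
  · obtain ⟨n, hn⟩ := h2 c hc
    refine ⟨n + 1, ?_⟩
    rw [ha1]
    exact hn.trans (le_max_right _ _)

/-- sets of cardinality at most `ν` are increasing unions of sets of cardinality at most `a n` -/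
theorem exists_E (ν : Cardinal.{0}) (a : ℕ → Cardinal.{0}) (ha : Monotone a) (ha0 : ∀ n, ℵ₀ ≤ a n)
    (hcof : ∀ c, c < ν → ∃ n, c ≤ a n) (hlim : ∀ n, Order.succ (a n) < ν)
    (T : Type) (hT : #T ≤ ν) :
    ∃ g : T → ℕ, ∀ n, #{x | g x ≤ n} ≤ a n := by
  have hle : ν ≤ Cardinal.sum a := by
    by_contra hcon
    push Not at hcon
    obtain ⟨n, hn⟩ := hcof _ hcon
    obtain ⟨m, hm⟩ := hcof _ (hlim n)
    have h1 : a m ≤ Cardinal.sum a := le_sum a m
    exact absurd (Order.lt_succ (a n)) (not_lt.2 (hm.trans (h1.trans hn)))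
  have h1 : #T ≤ #(Σ n, (a n).out) := by
    rw [mk_sigma]
    simp only [mk_out]
    exact hT.trans hle
  obtain ⟨φ⟩ := h1
  refine ⟨fun x => (φ x).1, fun n => ?_⟩
  have h2 : {x | (φ x).1 ≤ n} ⊆ ⋃ m : Fin (n + 1), {x | (φ x).1 = (m : ℕ)} := by
    intro x hx
    rw [mem_iUnion]
    exact ⟨⟨(φ x).1, Nat.lt_succ_of_le hx⟩, rfl⟩
  refine (mk_le_mk_of_subset h2).trans ((mk_iUnion_le_sum_mk).trans ?_)
  have h3 : ∀ m : Fin (n + 1), #{x | (φ x).1 = (m : ℕ)} ≤ a n := by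
    intro m
    have h4 : #{x | (φ x).1 = (m : ℕ)} ≤ #(a m).out := by
      have h5 : #{x | (φ x).1 = (m : ℕ)} ≤ #{s : Σ n, (a n).out // s.1 = (m : ℕ)} :=
        ⟨⟨fun x => ⟨φ x.1, x.2⟩, fun x y hxy =>
          Subtype.ext (φ.injective (congrArg Subtype.val hxy))⟩⟩
      have h6 : #{s : Σ n, (a n).out // s.1 = (m : ℕ)} ≤ #(a m).out := by
        refine mk_le_of_surjective (f := fun u => ⟨⟨(m : ℕ), u⟩, rfl⟩) ?_
        rintro ⟨⟨i, u⟩, h⟩
        obtain rfl : i = (m : ℕ) := h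
        exact ⟨u, rfl⟩
      exact h5.trans h6
    rw [mk_out] at h4
    exact h4.trans (ha (Nat.le_of_lt_succ m.2))
  refine (sum_le_sum _ (fun _ => a n) h3).trans ?_
  rw [sum_const', mk_fin]
  exact mul_le_of_le (ha0 n) ((natCast_le_aleph0).trans (ha0 n)) le_rfl

/-- a set smaller than the cofinality has a strict upper bound -/
theorem exists_bd (a : Cardinal.{0}) (ha : ℵ₀ ≤ a) (S : Set (Order.succ a).ord.ToType)
    (hS : #S ≤ a) : ∃ b, ∀ x ∈ S, x < b := by
  rw [← not_isCofinal_iff]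
  intro hcof
  have h1 := Order.cof_le hcof
  rw [cof_toType, (isRegular_succ ha).cof_ord] at h1
  exact absurd (Order.lt_succ a) (not_lt.2 (h1.trans hS))

end ISeq

open Cardinal Ordinal in
theorem pr_Seq : StSeq := by
  intro ν h0 hc
  obtain ⟨a, hmono, ha0, haν, hcof⟩ := ISeq.exists_mono ν h0 hc
  have hlim : ∀ n, Order.succ (a n) < ν := fun n => ISeq.succ_lt ν h0 hc _ (ha0 n) (haν n)
  refine ⟨fun n => Order.succ (a n), hlim, ?_⟩
  set I := (Order.succ ν).ord.ToType with hI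
  have hIio : ∀ i : I, #(Iio i) ≤ ν := by
    intro i
    have h1 : #(Iio i) < Order.succ ν := by
      have h2 := mk_Iio_lt (α := (Order.succ ν).ord.ToType) i
        (by rw [type_toType, mk_ord_toType])
      rwa [mk_ord_toType] at h2
    exact Order.lt_succ_iff.1 h1
  have hg : ∀ i : I, ∃ g : Iio i → ℕ, ∀ n, #{x | g x ≤ n} ≤ a n := fun i =>
    ISeq.exists_E ν a hmono ha0 hcof hlim _ (hIio i)
  choose g hg using hg
  have hne : ∀ n, Nonempty (Order.succ (a n)).ord.ToType := by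
    intro n
    rw [← mk_ne_zero_iff, mk_ord_toType]
    exact (lt_of_lt_of_le aleph0_pos ((ha0 n).trans (Order.le_succ _))).ne'
  let st : ∀ i : I, (∀ j : I, j < i → ∀ n, (Order.succ (a n)).ord.ToType) →
      ∀ n, (Order.succ (a n)).ord.ToType := fun i rec n =>
    @Classical.epsilon _ (hne n) fun b => ∀ x : {x : Iio i | g i x ≤ n}, rec x.1.1 x.1.2 n < b
  let f : I → ∀ n, (Order.succ (a n)).ord.ToType := (wellFounded_lt (α := I)).fix st
  have hf : ∀ i, f i = st i fun j _ => f j := fun i => (wellFounded_lt (α := I)).fix_eq st i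
  refine ⟨f, fun i j hij => ?_⟩
  rw [eventually_atTop]
  refine ⟨g j ⟨i, hij⟩, fun n hn => ?_⟩
  have hex : ∃ b, ∀ x : {x : Iio j | g j x ≤ n}, f x.1.1 n < b := by
    obtain ⟨b, hb⟩ := ISeq.exists_bd (a n) (ha0 n) (range fun x : {x : Iio j | g j x ≤ n} =>
      f x.1.1 n) (mk_range_le.trans (hg j n))
    exact ⟨b, fun x => hb _ ⟨x, rfl⟩⟩
  have h1 := @Classical.epsilon_spec _ (fun b => ∀ x : {x : Iio j | g j x ≤ n}, f x.1.1 n < b) hex
  rw [hf j]
  exact h1 ⟨⟨i, hij⟩, hn⟩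

end Pool.Agent.Work.MP_da56a7_lc.C
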