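import Pool.Agent.Work.MP_da56a7_lc.C.Stmts

set_option autoImplicit false

/-!
# MP_da56a7_lc, block C, item Sum
-/

open MeasureTheory Set Filter

namespace Pool.Agent.Work.MP_da56a7_lc.C

open Pool.Agent.Work.MP_da56a7_lc.B

namespace ISum

/-- even digits -/
def p1 (y : Y) : Y := fun n => y (2 * n)

/-- odd digits -/
def p2 (y : Y) : Y := fun n => y (2 * n + 1)

/-- interleaving -/
def pr (a b : Y) : Y := fun k => if k % 2 = 0 then a (k / 2) else b (k / 2)

lemma p1_pr (a b : Y) : p1 (pr a b) = a := by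
  funext n
  have h1 : (2 * n) % 2 = 0 := by omega
  have h2 : (2 * n) / 2 = n := by omega
  simp only [p1, pr, h1, h2, if_true]

lemma p2_pr (a b : Y) : p2 (pr a b) = b := by
  funext n
  have h1 : ¬ (2 * n + 1) % 2 = 0 := by omega
  have h2 : (2 * n + 1) / 2 = n := by omega
  simp only [p2, pr, h1, h2, if_false]

lemma p1_meas : Measurable p1 := measurable_pi_lambda _ (fun n => measurable_pi_apply (2 * n))

lemma p2_meas : Measurable p2 := measurable_pi_lambda _ (fun n => measurable_pi_apply (2 * n + 1))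

end ISum

open ISum in
theorem pr_Sum : StSum := by
  intro L M J s' s hL hs' hs hc' hc
  obtain ⟨B', hB'm, hB'c, hB's⟩ := hc'
  choose B hBm hBc hBs using hc
  have hinf : Infinite L := Cardinal.infinite_iff.2 hL
  have hLL : Cardinal.mk L = Cardinal.mk (L × L) := by
    rw [Cardinal.mk_prod, Cardinal.lift_id, Cardinal.mul_eq_self hL]
  obtain ⟨e⟩ := Cardinal.eq.1 hLL
  let S : (Σ m, J m) → Y := fun x => pr (s' x.1) (s x.1 x.2)
  let D : L × L → Set Y := fun q => {y | p1 y ∈ B' q.1 ∧ ∀ m, s' m ∈ B' q.1 → p2 y ∈ B m q.2}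
  refine ⟨S, ?_, fun l => D (e l), ?_, ?_, ?_⟩
  · rintro ⟨m, j⟩ ⟨m₂, j₂⟩ h
    have h1 : s' m = s' m₂ := by
      have h2 := congrArg p1 h
      simpa only [S, p1_pr] using h2
    obtain rfl := hs' h1
    have h3 : s m j = s m j₂ := by
      have h4 := congrArg p2 h
      simpa only [S, p2_pr] using h4
    rw [hs m h3]
  · intro l
    by_cases hm : ∃ m, s' m ∈ B' (e l).1
    · obtain ⟨m, hm⟩ := hm
      have h1 : D (e l) = p1 ⁻¹' (B' (e l).1) ∩ p2 ⁻¹' (B m (e l).2) := by
        ext y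
        constructor
        · rintro ⟨h2, h3⟩
          exact ⟨h2, h3 m hm⟩
        · rintro ⟨h2, h3⟩
          refine ⟨h2, fun m₂ hm₂ => ?_⟩
          have h4 : m₂ = m := hB's (e l).1 hm₂ hm
          rw [h4]
          exact h3
      change MeasurableSet (D (e l))
      rw [h1]
      exact (p1_meas (hB'm _)).inter (p2_meas (hBm _ _))
    · have h1 : D (e l) = p1 ⁻¹' (B' (e l).1) := by
        ext y
        constructor
        · rintro ⟨h2, -⟩
          exact h2
        · intro h2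
          exact ⟨h2, fun m₂ hm₂ => absurd ⟨m₂, hm₂⟩ hm⟩
      change MeasurableSet (D (e l))
      rw [h1]
      exact p1_meas (hB'm _)
  · intro y
    obtain ⟨l, hl⟩ := hB'c (p1 y)
    by_cases hm : ∃ m, s' m ∈ B' l
    · obtain ⟨m, hm⟩ := hm
      obtain ⟨l', hl'⟩ := hBc m (p2 y)
      refine ⟨e.symm (l, l'), ?_⟩
      change y ∈ D (e (e.symm (l, l')))
      rw [Equiv.apply_symm_apply]
      refine ⟨hl, fun m₂ hm₂ => ?_⟩
      have h4 : m₂ = m := hB's l hm₂ hm
      rw [h4]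
      exact hl'
    · refine ⟨e.symm (l, l), ?_⟩
      change y ∈ D (e (e.symm (l, l)))
      rw [Equiv.apply_symm_apply]
      exact ⟨hl, fun m₂ hm₂ => absurd ⟨m₂, hm₂⟩ hm⟩
  · rintro l ⟨m, j⟩ h ⟨m₂, j₂⟩ h₂
    change pr (s' m) (s m j) ∈ D (e l) at h
    change pr (s' m₂) (s m₂ j₂) ∈ D (e l) at h₂
    obtain ⟨h3, h4⟩ := h
    obtain ⟨h5, h6⟩ := h₂
    rw [p1_pr] at h3 h5
    obtain rfl : m = m₂ := hB's (e l).1 h3 h5
    have h7 := h4 m h3
    have h8 := h6 m h3
    rw [p2_pr] at h7 h8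
    obtain rfl : j = j₂ := hBs m (e l).2 h7 h8
    rfl

end Pool.Agent.Work.MP_da56a7_lc.C
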