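import Pool.Agent.Work.MP_da56a7_lc.C.Stmts

/-! Proof of `StTX`: the maximal almost disjoint family of size at most `#T`. -/

set_option autoImplicit false
set_option linter.style.haveILetI false

open MeasureTheory Set Filter

namespace Pool.Agent.Work.MP_da56a7_lc.C

open Pool.Agent.Work.MP_da56a7_lc.B

namespace ITX

/-- a long well order with countable initial segments -/
theorem exI : ∃ (I : Type) (_ : LinearOrder I) (_ : WellFoundedLT I),
    Cardinal.mk I = Cardinal.aleph 1 ∧ ∀ i : I, (Iio i).Countable := by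
  refine ⟨(Cardinal.aleph 1).ord.ToType, inferInstance, inferInstance, ?_, ?_⟩
  · exact Cardinal.mk_ord_toType _
  · intro i
    have h : Cardinal.mk (Iio i) < Cardinal.aleph 1 := by
      simpa using Cardinal.mk_Iio_lt i
    have h' : Cardinal.mk (Iio i) < Order.succ Cardinal.aleph0 := by
      rw [Cardinal.succ_aleph0]; exact h
    exact Cardinal.le_aleph0_iff_set_countable.1 (Order.lt_succ_iff.1 h')

/-- the sequence `g` of `D` -/
def gg (D : ℕ → ℕ) : ℕ → ℕ
  | 0 => 0
  | n + 1 => gg D n + 1 + ∑ i ∈ Finset.range (gg D n + 1), D i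

theorem gg_succ (D : ℕ → ℕ) (n : ℕ) :
    gg D (n + 1) = gg D n + 1 + ∑ i ∈ Finset.range (gg D n + 1), D i := rfl

theorem gg_mono (D : ℕ → ℕ) : StrictMono (gg D) :=
  strictMono_nat_of_lt_succ fun n => by rw [gg_succ]; omega

theorem gg_le (D : ℕ → ℕ) (n : ℕ) : D (gg D n) ≤ gg D (n + 1) := by
  rw [gg_succ]
  have : D (gg D n) ≤ ∑ i ∈ Finset.range (gg D n + 1), D i :=
    Finset.single_le_sum (f := D) (fun _ _ => Nat.zero_le _)
      (Finset.mem_range.2 (Nat.lt_succ_self _))
  omega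

theorem val_inf (j : ℕ) : {k | val k = j}.Infinite := by
  refine (Set.infinite_range_of_injective (f := fun m => Nat.pair j m) ?_).mono ?_
  · intro m n h
    exact (Nat.pair_eq_pair.1 h).2
  · rintro _ ⟨m, rfl⟩
    simp [val]

end ITX

theorem pr_TX (h1 : S_Bits) (h2 : StRec) (h3 : StAD) (h4 : StMain) : StTX := by
  intro X _ μ hT hc T hT0 hTX S C N D hS hCc hCu hCS hN hD
  obtain ⟨I, _, _, hI, hIc⟩ := ITX.exI
  have hInc : ¬ Countable I := by
    intro h
    have h' := Cardinal.mk_le_aleph0_iff.2 h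
    rw [hI] at h'
    exact absurd h' (not_le.2 Cardinal.aleph0_lt_aleph_one)
  have hex : ∀ α : I, ∃ e : I → ℕ, InjOn e (Iio α) :=
    fun α => Set.countable_iff_exists_injOn.1 (hIc α)
  choose e he using hex
  -- the index set
  have hTT : Cardinal.mk ((T × T) × T) = Cardinal.mk T := by
    rw [Cardinal.mk_prod, Cardinal.mk_prod]
    simp only [Cardinal.lift_id]
    rw [Cardinal.mul_eq_self hT0.le, Cardinal.mul_eq_self hT0.le]
  obtain ⟨ψ⟩ := Cardinal.eq.1 hTT
  set S' : (T × T) × T → Y := fun p => S (ψ p) with hS'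
  have hS'i : Function.Injective S' := fun p q h => ψ.injective (hS h)
  set F : T × T → ℕ → Set Y :=
    fun p l => ⋃ l' ∈ Finset.range (D p.2 l + 1), C (N p.1 l') with hF
  have hFc : ∀ p l, IsClosed (F p l) := by
    intro p l
    exact isClosed_biUnion_finset fun i _ => hCc _
  set Ex : T × T → Set ((T × T) × T) := fun p => {q | ∃ l, S' q ∈ F p l} with hEx
  have hExc : ∀ p, (Ex p).Countable := by
    intro p
    have hsub : Ex p ⊆ ⋃ l' : ℕ, ψ ⁻¹' {u | S u ∈ C (N p.1 l')} := by
      rintro q ⟨l, hl⟩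
      simp only [hF, mem_iUnion] at hl
      obtain ⟨l', -, hl'⟩ := hl
      exact mem_iUnion.2 ⟨l', hl'⟩
    refine Set.Countable.mono hsub (Set.countable_iUnion fun l' => ?_)
    exact (hCS _).preimage_of_injOn ψ.injective.injOn
  have hExF : ∀ t u, u ∉ Ex t → ∀ l, S' u ∉ F t l := fun t u hu l h => hu ⟨l, h⟩
  have hidx : ∀ p, ∃ idx : (T × T) × T → ℕ, InjOn idx (Ex p) :=
    fun p => Set.countable_iff_exists_injOn.1 (hExc p)
  choose idx hidx using hidx
  have hmem : ∀ y : Y, ∃ t : T × T, ∀ l, (fun m => y (Nat.pair l m)) ∈ F t l := by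
    intro y
    choose u hu using fun l : ℕ => hCu (fun m => y (Nat.pair l m))
    obtain ⟨a, ha⟩ := hN u
    choose f hf using ha
    obtain ⟨c, hc⟩ := hD f
    refine ⟨(a, c), fun l => ?_⟩
    simp only [hF, mem_iUnion]
    refine ⟨f l, Finset.mem_range.2 (Nat.lt_succ_of_le (hc l)), ?_⟩
    rw [hf]
    exact hu l
  have hesc : ∀ φ : ℕ → ℕ, ∃ t : T, ∀ n, φ (ITX.gg (D t) n) ≤ ITX.gg (D t) (n + 1) := by
    intro φ
    obtain ⟨t, ht⟩ := hD φ
    exact ⟨t, fun n => (ht _).trans (ITX.gg_le _ _)⟩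
  have hadd : ∀ N : (T × T) × T → Set X, (∀ t, μ (N t) = 0) → μ (⋃ t, N t) = 0 :=
    fun N hN => hT.add _ N (by rw [hTT]; exact hTX) hN
  obtain ⟨b, hb⟩ := h1 X μ hT hc I hIc hInc
  obtain ⟨A, hA⟩ := h2 I X (T × T) T b e (fun t => ITX.gg (D t)) S' F Ex idx
  haveI := hT.prob
  obtain ⟨x, hx⟩ := h4 I X (T × T) T μ hT.allM hIc hadd b hb e (fun t => ITX.gg (D t)) S' F Ex idx A
    he (fun t => ITX.gg_mono _) hmem hesc hExc hidx hA
  obtain ⟨ad1, ad2⟩ := h3 I X (T × T) T b e (fun t => ITX.gg (D t)) S' F Ex idx A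
    (fun t => ITX.gg_mono _) hS'i hFc hExF hA
  -- the family
  set FF : Set (Set ℕ) := (range fun j : ℕ => {k | val k = j}) ∪
    {s | ∃ α t, s = A α t x ∧ s.Infinite} with hFF
  have hAD : IsAD FF := by
    refine ⟨?_, ?_, ?_⟩
    · refine Set.Infinite.mono subset_union_left ?_
      apply Set.infinite_range_of_injective
      intro i j hij
      obtain ⟨k, hk⟩ := (ITX.val_inf i).nonempty
      have hk2 : k ∈ {k | val k = j} := by
        have : (fun j : ℕ => {k | val k = j}) i = {k | val k = j} := hij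
        rw [← this]
        exact hk
      exact hk.symm.trans hk2
    · rintro s (⟨j, rfl⟩ | ⟨α, t, -, hs⟩)
      · exact ITX.val_inf j
      · exact hs
    · rintro s (⟨i, rfl⟩ | ⟨α, t, rfl, hs⟩) s' (⟨j, rfl⟩ | ⟨β, u, rfl, ht⟩) hne
      · have : ({k | val k = i} ∩ {k | val k = j} : Set ℕ) = ∅ := by
          ext k
          simp only [mem_inter_iff, mem_ofPred_eq, mem_empty_iff_false, iff_false, not_and]
          intro hi hj
          exact hne (by rw [← hi, ← hj])
        change ({k | val k = i} ∩ {k | val k = j} : Set ℕ).Finite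
        rw [this]
        exact Set.finite_empty
      · rw [inter_comm]
        exact ad2 β u x i
      · exact ad2 α t x j
      · apply ad1
        rintro h
        obtain ⟨rfl, rfl⟩ := Prod.mk.injEq .. ▸ h
        exact hne rfl
  have hMax : B.IsMax FF := by
    intro s hs
    by_cases hj : ∃ j, (s ∩ {k | val k = j}).Infinite
    · obtain ⟨j, hj⟩ := hj
      exact ⟨_, Or.inl ⟨j, rfl⟩, hj⟩
    · push Not at hj
      obtain ⟨α, t, hα⟩ := hx s hs (fun j => by
        have := hj j
        exact this)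
      exact ⟨A α t x, Or.inr ⟨α, t, rfl, hα.mono inter_subset_right⟩, hα⟩
  refine ⟨FF, hAD, hMax, ?_⟩
  have hal : Cardinal.aleph 1 ≤ Cardinal.mk T := by
    rw [← Cardinal.succ_aleph0, Order.succ_le_iff]
    exact hT0
  refine (Cardinal.mk_union_le _ _).trans ?_
  have c1 : Cardinal.mk (range fun j : ℕ => {k | val k = j}) ≤ Cardinal.mk T :=
    Cardinal.mk_range_le.trans (by
      rw [Cardinal.mk_nat]; exact hT0.le)
  have c2 : Cardinal.mk {s | ∃ α t, s = A α t x ∧ s.Infinite} ≤ Cardinal.mk T := by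
    have c3 : {s | ∃ α t, s = A α t x ∧ s.Infinite} ⊆
        range fun p : I × ((T × T) × T) => A p.1 p.2 x := by
      rintro s ⟨α, t, rfl, -⟩
      exact ⟨(α, t), rfl⟩
    refine (Cardinal.mk_le_mk_of_subset c3).trans ?_
    refine Cardinal.mk_range_le.trans ?_
    rw [Cardinal.mk_prod, hI, hTT]
    simp only [Cardinal.lift_id]
    exact (mul_le_mul_left hal _).trans (Cardinal.mul_eq_self hT0.le).le
  refine (add_le_add c1 c2).trans ?_
  rw [Cardinal.add_eq_self hT0.le]

end Pool.Agent.Work.MP_da56a7_lc.C
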