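import Pool.Agent.Work.MP_da56a7_lc.C.Stmts

/-!
# MP_da56a7_lc, block C, item WF (by helper84): chain lengths
-/

set_option autoImplicit false

open MeasureTheory Set Filter

namespace Pool.Agent.Work.MP_da56a7_lc.C

open Pool.Agent.Work.MP_da56a7_lc.B

namespace IWF

/-- restriction of a chain along a strictly monotone map -/
theorem restr {J J' : Type} [LinearOrder J] [LinearOrder J'] {r : Y → Y → Prop} {s : J' → Y}
    (hs : Chain r s) (f : J → J') (hf : ∀ i j, i < j → f i < f j) : Chain r (fun i => s (f i)) :=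
  fun i j hij => hs (f i) (f j) (hf i j hij)

/-- an ordinal embeds into a larger well order -/
theorem emb (o : Ordinal.{0}) (J : Type) [LinearOrder J] [WellFoundedLT J]
    (h : o ≤ Ordinal.type (fun a b : J => a < b)) :
    ∃ f : o.ToType → J, ∀ i j, i < j → f i < f j := by
  have h1 : Ordinal.type (fun a b : o.ToType => a < b) ≤ Ordinal.type (fun a b : J => a < b) := by
    rw [Ordinal.type_toType]
    exact h
  obtain ⟨g⟩ := Ordinal.type_le_iff'.1 h1
  exact ⟨g, fun i j hij => g.map_rel_iff.2 hij⟩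

end IWF

theorem pr_WF : StWF := by
  refine ⟨?_, ?_, ?_⟩
  · rintro c c' hc ⟨r, hr, s, hs⟩
    obtain ⟨f, hf⟩ := IWF.emb c.ord c'.ord.ToType (by
      rw [Ordinal.type_toType]
      exact Cardinal.ord_le_ord.2 hc)
    exact ⟨r, hr, fun i => s (f i), IWF.restr hs f hf⟩
  · intro r hr J _ _ s hs
    obtain ⟨f, hf⟩ := IWF.emb (Cardinal.mk J).ord J (Cardinal.ord_le_type (fun a b : J => a < b))
    exact ⟨r, hr, fun i => s (f i), IWF.restr hs f hf⟩
  · intro r hr
    refine ⟨hr.refl, fun x y z h1 h2 => hr.trans z y x h2 h1, ?_⟩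
    exact measurable_swap hr.meas

end Pool.Agent.Work.MP_da56a7_lc.C
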