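import Pool.Agent.Work.MP_da56a7_lc.C.Stmts

set_option autoImplicit false

/-!
# MP_da56a7_lc, block C: two more statements (the case of chain lengths below `ℵ_ω`)
-/

open MeasureTheory Set Filter

namespace Pool.Agent.Work.MP_da56a7_lc.C

open Pool.Agent.Work.MP_da56a7_lc.B

/-- ITEM CA: `theorem pr_CA : StCA`. Induction on `n`. `n = 0`: the set is countable. `n + 1`: every
initial segment `Iio t` of `T = (ℵ (n + 1)).ord.ToType` has cardinality `≤ ℵ n`, so its countable
subsets have a cofinal family indexed by `(ℵ n).ord.ToType` (transport along an injection of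
`Iio t` into `(ℵ n).ord.ToType`: preimages of countable sets); a countable subset of `T` is bounded
(`ℵ (n + 1)` is regular and uncountable), so it is contained in some `Iio t`. Index by
`T × (ℵ n).ord.ToType`, which has cardinality `ℵ (n + 1)`. -/
def StCA : Prop := ∀ n : ℕ, CofCountable (Cardinal.aleph n)

/-- ITEM FinC: `theorem pr_FinC (h1 : StCA) : StFinC`. `ν ≤ ℵ_ω` (otherwise `W ℵ_ω`), `ν ≠ ℵ_ω`
(cofinality `ω`), `ν` is infinite, so `ν = ℵ n` for some `n : ℕ`. -/
def StFinC : Prop := (∀ c : Cardinal.{0}, W c → c < Cardinal.aleph Ordinal.omega0) →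
  ∀ ν : Cardinal.{0}, Cardinal.aleph0 < ν.ord.cof → (∀ c, c < ν → W c) → CofCountable ν

end Pool.Agent.Work.MP_da56a7_lc.C
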