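import Pool.Agent.Work.MP_da56a7_lc.B.All
import Pool.Agent.Work.MP_da56a7_lc.C.Stmts2
import Pool.Agent.Work.MP_da56a7_lc.C.Check
import Pool.Agent.Work.MP_da56a7_lc.C.I_Rec
import Pool.Agent.Work.MP_da56a7_lc.C.I_AD
import Pool.Agent.Work.MP_da56a7_lc.C.I_MeasA
import Pool.Agent.Work.MP_da56a7_lc.C.I_Q
import Pool.Agent.Work.MP_da56a7_lc.C.I_QM
import Pool.Agent.Work.MP_da56a7_lc.C.I_KM
import Pool.Agent.Work.MP_da56a7_lc.C.I_Thr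
import Pool.Agent.Work.MP_da56a7_lc.C.I_Hit
import Pool.Agent.Work.MP_da56a7_lc.C.I_Cnt
import Pool.Agent.Work.MP_da56a7_lc.C.I_Bad
import Pool.Agent.Work.MP_da56a7_lc.C.I_Main
import Pool.Agent.Work.MP_da56a7_lc.C.I_TX
import Pool.Agent.Work.MP_da56a7_lc.C.I_B2C
import Pool.Agent.Work.MP_da56a7_lc.C.I_DomU
import Pool.Agent.Work.MP_da56a7_lc.C.I_Crit
import Pool.Agent.Work.MP_da56a7_lc.C.I_CofD
import Pool.Agent.Work.MP_da56a7_lc.C.I_FinA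
import Pool.Agent.Work.MP_da56a7_lc.C.I_Coin
import Pool.Agent.Work.MP_da56a7_lc.C.I_WF
import Pool.Agent.Work.MP_da56a7_lc.C.I_Gap
import Pool.Agent.Work.MP_da56a7_lc.C.I_NC
import Pool.Agent.Work.MP_da56a7_lc.C.I_Reg
import Pool.Agent.Work.MP_da56a7_lc.C.I_PP
import Pool.Agent.Work.MP_da56a7_lc.C.I_Seq
import Pool.Agent.Work.MP_da56a7_lc.C.I_Prod
import Pool.Agent.Work.MP_da56a7_lc.C.I_Sum
import Pool.Agent.Work.MP_da56a7_lc.C.I_Case1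
import Pool.Agent.Work.MP_da56a7_lc.C.I_Case2
import Pool.Agent.Work.MP_da56a7_lc.C.I_Case3
import Pool.Agent.Work.MP_da56a7_lc.C.I_Choice
import Pool.Agent.Work.MP_da56a7_lc.C.I_Scale
import Pool.Agent.Work.MP_da56a7_lc.C.I_FinB
import Pool.Agent.Work.MP_da56a7_lc.C.I_CA
import Pool.Agent.Work.MP_da56a7_lc.C.I_FinC

set_option autoImplicit false

/-!
# MP_da56a7_lc, block C: assembly of the items
-/

namespace Pool.Agent.Work.MP_da56a7_lc.C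

open Pool.Agent.Work.MP_da56a7_lc.B

/-- the bits of block B -/
theorem bits : S_Bits :=
  B.pr_Bits (B.pr_Seq (B.pr_NS B.pr_Small (B.pr_Full B.pr_JM) (B.pr_QQ (B.pr_QS (B.pr_KN B.pr_JM)) B.pr_MX)
    B.pr_Lift (B.pr_WO B.pr_Small)) (B.pr_Bit B.pr_Half B.pr_Exh)) (B.pr_CI (B.pr_CI1 B.pr_Cyl B.pr_Un))

/-- all items together -/
theorem main : StFinA ∧ StFinB ∧ StScale ∧ StFinC := by
  obtain ⟨h1, h2, h3⟩ := compose bits C.pr_Rec C.pr_AD C.pr_MeasA C.pr_Q C.pr_QM C.pr_KM C.pr_Thr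
    C.pr_Hit C.pr_Cnt C.pr_Bad C.pr_Main C.pr_TX C.pr_B2C C.pr_DomU C.pr_Crit C.pr_CofD C.pr_FinA
    C.pr_Coin C.pr_WF C.pr_Gap C.pr_NC C.pr_Reg C.pr_PP C.pr_Seq C.pr_Prod C.pr_Sum C.pr_Case1
    C.pr_Case2 C.pr_Case3 C.pr_Choice C.pr_Scale C.pr_FinB
  exact ⟨h1, h2, h3, C.pr_FinC C.pr_CA⟩

end Pool.Agent.Work.MP_da56a7_lc.C
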