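import Pool.Agent.Work.MP_da56a7_lc.Bd.B01

set_option autoImplicit false

/-!
# MP_da56a7_lc, block C: definitions

`κ ≤ 𝔠` real-valued measurable. (A) a criterion for `𝔞 ≤ ν < κ` with Borel covers; (B) `𝔞 < κ` if
`𝔡` is a chain length (for instance if `𝔟 = 𝔡`). Paper proof: note 4558 on MP_da56a7_lc.
The notions `Y`, `Tot`, `Nf`, `val`, `Ind`, `Gm`, `Sb`, `Bits`, `chf`, `IsAD`, `IsMax` are those of
block B (`B/Defs.lean`); the statements `S_Nf`, `S_Small`, ... and their proofs `pr_Nf`,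
`pr_Small`, `pr_Ulam` are in `Bd/B01.lean`.
-/

open MeasureTheory Set Filter

namespace Pool.Agent.Work.MP_da56a7_lc.C

open Pool.Agent.Work.MP_da56a7_lc.B

/-! ## Chains in Borel preorders -/

/-- a Borel preorder of the Cantor space -/
structure Pre (r : Y → Y → Prop) : Prop where
  refl : ∀ x, r x x
  trans : ∀ x y z, r x y → r y z → r x z
  meas : MeasurableSet {p : Y × Y | r p.1 p.2}

/-- a strictly increasing sequence -/
def Chain {J : Type} [LT J] (r : Y → Y → Prop) (s : J → Y) : Prop :=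
  ∀ i j, i < j → r (s i) (s j) ∧ ¬ r (s j) (s i)

/-- the cardinal `c` is a chain length -/
def W (c : Cardinal.{0}) : Prop :=
  ∃ r : Y → Y → Prop, Pre r ∧ ∃ s : c.ord.ToType → Y, Chain r s

/-- `L`-many Borel sets cover the Cantor space, each contains at most one of the points `s j` -/
def Cov (L : Type) {J : Type} (s : J → Y) : Prop :=
  ∃ B : L → Set Y, (∀ l, MeasurableSet (B l)) ∧ (∀ y, ∃ l, y ∈ B l) ∧
    ∀ l, {j | s j ∈ B l}.Subsingleton

/-- everywhere dominating family -/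
def Dom {T : Type} (D : T → ℕ → ℕ) : Prop := ∀ f : ℕ → ℕ, ∃ t, ∀ n, f n ≤ D t n

/-- every sequence in `T` has its range in the range of one of the sequences `N t` -/
def Cof {T : Type} (N : T → ℕ → T) : Prop := ∀ u : ℕ → T, ∃ t, ∀ n, ∃ m, N t m = u n

/-! ## The family -/

/-- the recursion which defines the family. `T1 × T2` is the index set of each level: `t.1`
determines the closed sets `F t.1 l` and the exceptional indices `Ex t.1`, enumerated by
`idx t.1`; `t.2` determines the blocks `[g t.2 n, g t.2 (n+1))`; `S t` is the address. -/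
def IsSysT {I X T1 T2 : Type} [LT I] (b : I → ℕ → Set X) (e : I → I → ℕ) (g : T2 → ℕ → ℕ)
    (S : T1 × T2 → Y) (F : T1 → ℕ → Set Y) (Ex : T1 → Set (T1 × T2)) (idx : T1 → T1 × T2 → ℕ)
    (A : I → T1 × T2 → X → Set ℕ) : Prop :=
  ∀ α t x k, k ∈ A α t x ↔ Nf (g t.2) k < val k ∧
    (∀ m, m < Nf (g t.2) k → (x ∈ b α (Nat.pair k m) ↔ S t m = true)) ∧
    ∀ β, β < α → e α β ≤ Nf (g t.2) k →
      (∃ y ∈ F t.1 (e α β), ∀ m, m < Nf (g t.2) k → (x ∈ b β (Nat.pair k m) ↔ y m = true)) ∧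
      ∀ u ∈ Ex t.1, idx t.1 u ≤ Nf (g t.2) k → k ∉ A β u x

/-- the bits of all the random reals below `γ`, arranged in one sequence by `e` -/
def wb {I X : Type} [LT I] (b : I → ℕ → Set X) (e : I → ℕ) (γ : I) (x : X) (k i : ℕ) : Prop :=
  ∃ β, β < γ ∧ e β = (Nat.unpair i).1 ∧ x ∈ b β (Nat.pair k (Nat.unpair i).2)

/-- the elements of `Z` which pass through the `n`-th node of the leftmost cluster point -/
def Qs (w : ℕ → ℕ → Prop) (Z : Set ℕ) : ℕ → Set ℕ
  | 0 => Z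
  | n + 1 => {k | k ∈ Qs w Z n ∧ (w k n ↔ ¬ {k | k ∈ Qs w Z n ∧ ¬ w k n}.Infinite)}

/-- the leftmost cluster point -/
noncomputable def yb (w : ℕ → ℕ → Prop) (Z : Set ℕ) : Y := fun n => open Classical in
  decide (¬ {k | k ∈ Qs w Z n ∧ ¬ w k n}.Infinite)

/-- the good points between `u` and `v` -/
def Kt {I T : Type} [LT I] (A : I → T → Set ℕ) (e : I → ℕ) (Ex : Set T) (idx : T → ℕ)
    (w : ℕ → ℕ → Prop) (Z : Set ℕ) (γ : I) (u v : ℕ) : Set ℕ :=
  {k | k ∈ Qs w Z ((u + 1) ^ 2) ∧ u ≤ k ∧ k < v ∧ u < val k ∧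
    ∀ β, β < γ → e β ≤ u → ∀ t ∈ Ex, idx t ≤ u → k ∉ A β t}

/-! ## The hypotheses of the theorem -/

/-- dominating family of functions (mod finite) -/
def IsDominating (D : Set (ℕ → ℕ)) : Prop :=
  ∀ f : ℕ → ℕ, ∃ g ∈ D, ∀ᶠ n in atTop, f n ≤ g n

/-- the countable subsets of a set of cardinality `ν` have a cofinal family of cardinality `ν` -/
def CofCountable (ν : Cardinal.{0}) : Prop :=
  ∃ F : ν.ord.ToType → Set ν.ord.ToType, (∀ t, (F t).Countable) ∧
    ∀ s : Set ν.ord.ToType, s.Countable → ∃ t, s ⊆ F t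

/-- `𝔟 = 𝔡`: there is a scale -/
def Scale : Prop := ∃ (J : Type) (_ : LinearOrder J) (_ : WellFoundedLT J) (g : J → ℕ → ℕ),
  (∀ i j, i < j → (∀ᶠ n in atTop, g i n ≤ g j n) ∧ ¬ ∀ᶠ n in atTop, g j n ≤ g i n) ∧
  IsDominating (range g)

end Pool.Agent.Work.MP_da56a7_lc.C
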