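import Pool.Agent.Work.MP_da56a7_lc.C.Stmts

set_option autoImplicit false

/-!
# MP_da56a7_lc, block C: item Case1
-/

open MeasureTheory Set Filter

namespace Pool.Agent.Work.MP_da56a7_lc.C

open Pool.Agent.Work.MP_da56a7_lc.B

namespace ICase1

/-- a chain is injective -/
theorem chain_injective {J : Type} [LinearOrder J] {r : Y → Y → Prop} {s : J → Y}
    (hs : Chain r s) : Function.Injective s := by
  intro i j hij
  by_contra hne
  rcases lt_or_gt_of_ne hne with h | h
  · have h1 := hs i j h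
    rw [hij] at h1
    exact h1.2 h1.1
  · have h1 := hs j i h
    rw [hij] at h1
    exact h1.2 h1.1

end ICase1

theorem pr_Case1 (h1 : StGap) (h2 : StProd) : StCase1 := by
  intro κ δ ν hκ hδ hW hiff
  have hδν : δ ≤ ν := Order.lt_succ_iff.mp ((hiff δ).mp hW)
  have hν : Cardinal.aleph0 < ν := lt_of_lt_of_le hδ hδν
  have hsmall : ∀ c, c < ν → W c := fun c hc => (hiff c).mpr (hc.trans (Order.lt_succ ν))
  refine ⟨lt_of_lt_of_le (Order.lt_succ ν) hκ, hδν, ?_, hsmall, ?_⟩
  · by_contra hcof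
    exact lt_irrefl _ ((hiff _).mp (h2 ν hν (not_lt.mp hcof) hsmall))
  · obtain ⟨r, hr, s, hs⟩ := (hiff ν).mpr (Order.lt_succ ν)
    obtain ⟨c, hc, hL⟩ := h1 r hr ν.ord.ToType s hs
    have hmk : Cardinal.mk ν.ord.ToType = ν := Cardinal.mk_ord_toType ν
    refine ⟨s, ICase1.chain_injective hs, hL ν.ord.ToType ?_ le_rfl fun o => ?_⟩
    · rw [hmk]
      exact hν.le
    · rw [hmk]
      exact Order.lt_succ_iff.mp ((hiff (c o)).mp (hc o))

end Pool.Agent.Work.MP_da56a7_lc.C
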