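import Pool.Agent.Work.MP_da56a7_lc.C.Stmts

/-! MP_da56a7_lc, block C, item FinA. -/

set_option autoImplicit false

open MeasureTheory Set Filter

namespace Pool.Agent.Work.MP_da56a7_lc.C

open Pool.Agent.Work.MP_da56a7_lc.B

namespace IFinA

/-- a nonempty set of cardinality at most the cardinality of `T` is enumerated by `T` -/
theorem enum {T α : Type} (s : Set α) (hne : s.Nonempty) (h : Cardinal.mk s ≤ Cardinal.mk T) :
    ∃ f : T → α, (∀ t, f t ∈ s) ∧ ∀ a ∈ s, ∃ t, f t = a := by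
  classical
  obtain ⟨e⟩ := Cardinal.le_def _ _ |>.1 h
  have : Nonempty s := hne.to_subtype
  refine ⟨fun t => (Function.invFun e t : s), fun t => (Function.invFun e t).2, fun a ha => ?_⟩
  refine ⟨e ⟨a, ha⟩, ?_⟩
  have h1 : Function.invFun e (e ⟨a, ha⟩) = ⟨a, ha⟩ :=
    Function.leftInverse_invFun e.injective ⟨a, ha⟩
  exact congrArg Subtype.val h1

end IFinA

open IFinA in
theorem pr_FinA (h1 : StCrit) (h2 : StCofD) (h3 : StDomU) : StFinA := by
  intro X _ μ hT hX ν hν hcof ⟨D, hD, hDν⟩ ⟨Bs, S, hB, hBm, hBc, hS, hBS⟩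
  have hω : Cardinal.aleph0 ≤ ν := ((h3.2 D hD).trans_le hDν).le
  obtain ⟨N, hN⟩ := h2.1 ν hcof
  obtain ⟨D', hD'⟩ := h2.2 ν D hω hD hDν
  have hTc : Cardinal.mk ν.ord.ToType = ν := Cardinal.mk_ord_toType ν
  -- the enumeration of the Borel sets
  have hne : Bs.Nonempty := by
    have h : (fun _ => true : Y) ∈ ⋃₀ Bs := by
      rw [hBc]
      exact mem_univ _
    obtain ⟨b, hb, -⟩ := h
    exact ⟨b, hb⟩
  obtain ⟨f, hf, hf2⟩ := enum (T := ν.ord.ToType) Bs hne (by rw [hTc]; exact hB)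
  -- the injection
  obtain ⟨e⟩ : Nonempty (ν.ord.ToType ≃ S) := Cardinal.eq.1 (by rw [hTc, hS])
  have hinj : Function.Injective (fun t => (e t : Y)) :=
    Subtype.val_injective.comp e.injective
  obtain ⟨A, hA, hA2, hA3⟩ := h1 X μ hT hX ν.ord.ToType (by rw [hTc]; exact hν)
    (fun t => (e t : Y)) f N D' hinj (fun t => hBm _ (hf t))
    (fun y => by
      have h : y ∈ ⋃₀ Bs := by
        rw [hBc]
        exact mem_univ _
      obtain ⟨b, hb, hy⟩ := h
      obtain ⟨t, ht⟩ := hf2 b hb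
      exact ⟨t, by rw [ht]; exact hy⟩)
    (fun t => by
      have h : {u | (e u : Y) ∈ f t} = (fun u => (e u : Y)) ⁻¹' (f t ∩ S) := by
        ext u
        exact ⟨fun hu => ⟨hu, (e u).2⟩, fun hu => hu.1⟩
      rw [h]
      exact (hBS _ (hf t)).preimage hinj)
    hN hD'
  exact ⟨A, hA, hA2, by rw [hTc] at hA3; exact hA3⟩

end Pool.Agent.Work.MP_da56a7_lc.C
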