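import Pool.Agent.Work.MP_da56a7_lc.C.Stmts

/-! Item [da56a7 C Thr] (helper38): there are many good points. -/

set_option autoImplicit false

open MeasureTheory Set Filter

namespace Pool.Agent.Work.MP_da56a7_lc.C

open Pool.Agent.Work.MP_da56a7_lc.B

theorem pr_Thr (h1 : StQ) : StThr := by
  intro I T _ A e Ex idx w Z γ he hidx hZ hA hv u
  obtain ⟨hQ1, hQ2⟩ := h1 w Z hZ
  have hB : {β | β < γ ∧ e β ≤ u}.Finite := by
    refine Set.Finite.of_finite_image (f := e) ((Set.finite_Iic u).subset ?_) ?_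
    · rintro _ ⟨β, ⟨-, hβ⟩, rfl⟩
      exact hβ
    · exact he.mono fun β hβ => hβ.1
  have hE : {t | t ∈ Ex ∧ idx t ≤ u}.Finite := by
    refine Set.Finite.of_finite_image (f := idx) ((Set.finite_Iic u).subset ?_) ?_
    · rintro _ ⟨t, ⟨-, ht⟩, rfl⟩
      exact ht
    · exact hidx.mono fun t ht => ht.1
  have hW : ((⋃ β ∈ {β | β < γ ∧ e β ≤ u}, ⋃ t ∈ {t | t ∈ Ex ∧ idx t ≤ u}, Z ∩ A β t) ∪
      (⋃ j ∈ Iic u, Z ∩ {k | val k = j}) : Set ℕ).Finite := by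
    apply Set.Finite.union
    · exact hB.biUnion fun β hβ => hE.biUnion fun t ht => hA β hβ.1 t ht.1
    · exact (Set.finite_Iic u).biUnion fun j _ => hv j
  obtain ⟨L, hL⟩ := hW.bddAbove
  have hgood : ∀ l ∈ Z, L < l → u < val l ∧
      ∀ β, β < γ → e β ≤ u → ∀ t ∈ Ex, idx t ≤ u → l ∉ A β t := by
    intro l hl hLl
    constructor
    · by_contra hcon
      have : l ≤ L := hL (Or.inr (Set.mem_biUnion (x := val l) (not_lt.1 hcon) ⟨hl, rfl⟩))
      omega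
    · intro β hβ heβ t ht hit hlA
      have : l ≤ L := hL (Or.inl (Set.mem_biUnion (x := β) ⟨hβ, heβ⟩
        (Set.mem_biUnion (x := t) ⟨ht, hit⟩ ⟨hl, hlA⟩)))
      omega
  have hinf : (Qs w Z ((u + 1) ^ 2) \ Iic (max u L)).Infinite :=
    (hQ1 ((u + 1) ^ 2)).sdiff (Set.finite_Iic _)
  obtain ⟨t, ht1, ht2⟩ := hinf.exists_subset_card_eq (4 ^ u)
  refine ⟨t.sup id + 1, ?_⟩
  rw [← ht2, ← Set.ncard_coe_finset]
  apply Set.ncard_le_ncard
  · intro k hk
    obtain ⟨hkQ, hk2⟩ := ht1 hk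
    have hk3 : max u L < k := not_le.1 hk2
    have hkZ : k ∈ Z := (hQ2 _ k hkQ).1
    have hg := hgood k hkZ (lt_of_le_of_lt (le_max_right u L) hk3)
    refine ⟨hkQ, ((le_max_left u L).trans hk3.le), ?_, hg.1, hg.2⟩
    exact Nat.lt_succ_of_le (Finset.le_sup (f := id) hk)
  · refine (Set.finite_Iio (t.sup id + 1)).subset ?_
    rintro k ⟨-, -, hk, -⟩
    exact hk

end Pool.Agent.Work.MP_da56a7_lc.C
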