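import Pool.Agent.Work.MP_da56a7_lc.C.Defs

set_option autoImplicit false

/-!
# MP_da56a7_lc, block C: statements of the items

All items are independent of each other: an item `Foo` is the theorem
`theorem pr_Foo (h1 : St..) (h2 : St..) : StFoo`, whose hypotheses are exactly the statements named
in the docstring (in this order). `pr_Nf : S_Nf`, `pr_Small : S_Small`, `pr_Ulam` are landed in
`Bd/B01.lean` and may be used directly. The docstring contains the proof.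
-/

open MeasureTheory Set Filter

namespace Pool.Agent.Work.MP_da56a7_lc.C

open Pool.Agent.Work.MP_da56a7_lc.B

/-! ## Part A: the family -/

/-- ITEM Rec: `theorem pr_Rec : StRec`. Well founded recursion on `α` (model: `pr_Rec` of block B,
Bd/B01.lean). -/
def StRec : Prop := ∀ (I X T1 T2 : Type) [LinearOrder I] [WellFoundedLT I] (b : I → ℕ → Set X)
  (e : I → I → ℕ) (g : T2 → ℕ → ℕ) (S : T1 × T2 → Y) (F : T1 → ℕ → Set Y)
  (Ex : T1 → Set (T1 × T2)) (idx : T1 → T1 × T2 → ℕ),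
  ∃ A : I → T1 × T2 → X → Set ℕ, IsSysT b e g S F Ex idx A

/-- ITEM AD: `theorem pr_AD : StAD` (use `pr_Nf` of block B: `Nf u k < m → k < u m`, so
`Nf (g t.2) k → ∞`). Same level, `t ≠ u`: `S t m ≠ S u m` for some `m`, so no `k` with
`m < Nf (g t.2) k` and `m < Nf (g u.2) k` is in both. Levels `β < α`, `u ∈ Ex t.1`: `k ∉ A β u x`
as soon as `Nf (g t.2) k ≥ e α β, idx t.1 u`. Levels `β < α`, `u ∉ Ex t.1`: `S u` is not in the
closed set `F t.1 (e α β)`, so there is `n₀` such that no `y ∈ F t.1 (e α β)` agrees with `S u`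
below `n₀`; if `k` is in both sets and `Nf (g t.2) k ≥ n₀, e α β` and `Nf (g u.2) k ≥ n₀`, then the
bits `x ∈ b β (pair k m)`, `m < n₀`, give such a `y`. Second part: `Nf (g t.2) k < val k = j`. -/
def StAD : Prop := ∀ (I X T1 T2 : Type) [LinearOrder I] (b : I → ℕ → Set X)
  (e : I → I → ℕ) (g : T2 → ℕ → ℕ) (S : T1 × T2 → Y) (F : T1 → ℕ → Set Y)
  (Ex : T1 → Set (T1 × T2)) (idx : T1 → T1 × T2 → ℕ) (A : I → T1 × T2 → X → Set ℕ),
  (∀ t, StrictMono (g t)) → Function.Injective S → (∀ t l, IsClosed (F t l)) →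
  (∀ t u, u ∉ Ex t → ∀ l, S u ∉ F t l) → IsSysT b e g S F Ex idx A →
  (∀ α t β u x, (α, t) ≠ (β, u) → (A α t x ∩ A β u x).Finite) ∧
  ∀ α t x j, (A α t x ∩ {k | val k = j}).Finite

/-- ITEM MeasA: `theorem pr_MeasA : StMeasA`. Induction on `β < γ` (model: `pr_MeasA` of block B,
Bd/B02.lean). The condition `∃ y ∈ F t.1 l, ∀ m < n, (x ∈ b β' (pair k m) ↔ y m = true)` depends
on finitely many bits: it is the finite union over `ε : Fin n → Bool` which extend to some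
`y ∈ F t.1 l`. The conditions over `β' < β` and over `u ∈ Ex t.1` are countable intersections. -/
def StMeasA : Prop := ∀ (I X T1 T2 : Type) [LinearOrder I] [WellFoundedLT I],
  (∀ i : I, (Iio i).Countable) → ∀ (b : I → ℕ → Set X)
  (e : I → I → ℕ) (g : T2 → ℕ → ℕ) (S : T1 × T2 → Y) (F : T1 → ℕ → Set Y)
  (Ex : T1 → Set (T1 × T2)) (idx : T1 → T1 × T2 → ℕ) (A : I → T1 × T2 → X → Set ℕ),
  (∀ t, (Ex t).Countable) → IsSysT b e g S F Ex idx A →
  ∀ (γ β : I) (t : T1 × T2) (k : ℕ), β < γ → MeasurableSet[Sb b γ] {x | k ∈ A β t x}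

/-- ITEM Q: `theorem pr_Q : StQ`. Induction on `n`: if `{k ∈ Qs n | ¬ w k n}` is infinite it is
`Qs (n + 1)`, otherwise `Qs (n + 1) = {k ∈ Qs n | w k n}` is infinite. -/
def StQ : Prop := ∀ (w : ℕ → ℕ → Prop) (Z : Set ℕ), Z.Infinite →
  (∀ n, (Qs w Z n).Infinite) ∧
  ∀ n k, k ∈ Qs w Z n → k ∈ Z ∧ ∀ i, i < n → (w k i ↔ yb w Z i = true)

/-- ITEM QM: `theorem pr_QM : StQM`. Induction on `n`; a set of naturals is infinite iff for all `N`
there is an element `≥ N`: countable intersections and unions. -/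
def StQM : Prop := ∀ (X : Type) (m : MeasurableSpace X) (w : X → ℕ → ℕ → Prop) (Z : X → Set ℕ),
  (∀ k i, MeasurableSet[m] {x | w x k i}) → (∀ k, MeasurableSet[m] {x | k ∈ Z x}) →
  ∀ n k, MeasurableSet[m] {x | k ∈ Qs (w x) (Z x) n}

/-- ITEM KM: `theorem pr_KM (h1 : StQM) : StKM`. `{x | Kt .. = K}` is the intersection over `k` of the
sets of `x` with `k ∈ Kt .. ↔ k ∈ K`; `wb` is a countable union of bits below `γ`, `k ∈ Z x` is a
condition on `chf Z x` (model: `pr_KM` of block B, Bd/B02.lean). -/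
def StKM : Prop := ∀ (I X T : Type) [LinearOrder I], (∀ i : I, (Iio i).Countable) →
  ∀ (b : I → ℕ → Set X) (A : I → T → X → Set ℕ) (γ : I),
  (∀ β t k, β < γ → MeasurableSet[Sb b γ] {x | k ∈ A β t x}) →
  ∀ (e : I → ℕ) (Ex : Set T) (idx : T → ℕ), Ex.Countable →
  ∀ (Z : X → Set ℕ) (u v : ℕ) (K : Finset ℕ),
  MeasurableSet[Gm b (chf Z) γ]
    {x | Kt (fun β t => A β t x) e Ex idx (wb b e γ x) (Z x) γ u v = (K : Set ℕ)}

/-- ITEM Thr: `theorem pr_Thr (h1 : StQ) : StThr`. `Qs w Z ((u + 1) ^ 2)` is an infinite subset of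
`Z`; remove finitely many finite sets: `k < u`, `val k ≤ u`, and `Z ∩ A β t` for the finitely many
`β < γ` with `e β ≤ u` and the finitely many `t ∈ Ex` with `idx t ≤ u` (model: `pr_Thr` of block B,
Bd/B02.lean). -/
def StThr : Prop := ∀ (I T : Type) [LinearOrder I] (A : I → T → Set ℕ) (e : I → ℕ) (Ex : Set T)
  (idx : T → ℕ) (w : ℕ → ℕ → Prop) (Z : Set ℕ) (γ : I), InjOn e (Iio γ) → InjOn idx Ex →
  Z.Infinite → (∀ β, β < γ → ∀ t ∈ Ex, (Z ∩ A β t).Finite) →
  (∀ j, (Z ∩ {k | val k = j}).Finite) → ∀ u, ∃ v, 4 ^ u ≤ (Kt A e Ex idx w Z γ u v).ncard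

/-- ITEM Hit: `theorem pr_Hit (h1 : StQ) : StHit` (and `pr_Nf`). `Nf (g t.2) k = n` as
`g t.2 n ≤ k < g t.2 (n + 1)`, and `n ≤ g t.2 n`. For `β < γ` with `l = e γ β ≤ n` the required
element of `F t.1 l` is `fun m => yb .. (Nat.pair l m)`: for `m < n` we have
`Nat.pair l m < (g t.2 n + 1) ^ 2` (`Nat.pair_lt_max_add_one_sq`), `k ∈ Qs ..`, so by `StQ`
`wb b (e γ) γ x k (Nat.pair l m) ↔ yb .. = true`, and by injectivity of `e γ` on `Iio γ` the left
side is `x ∈ b β (Nat.pair k m)`. -/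
def StHit : Prop := ∀ (I X T1 T2 : Type) [LinearOrder I] (b : I → ℕ → Set X)
  (e : I → I → ℕ) (g : T2 → ℕ → ℕ) (S : T1 × T2 → Y) (F : T1 → ℕ → Set Y)
  (Ex : T1 → Set (T1 × T2)) (idx : T1 → T1 × T2 → ℕ) (A : I → T1 × T2 → X → Set ℕ),
  (∀ t, StrictMono (g t)) → IsSysT b e g S F Ex idx A →
  ∀ (Z : Set ℕ) (γ : I) (t : T1 × T2) (x : X) (n k : ℕ), InjOn (e γ) (Iio γ) → Z.Infinite →
  (∀ l, (fun m => yb (wb b (e γ) γ x) Z (Nat.pair l m)) ∈ F t.1 l) →
  k ∈ Kt (fun β u => A β u x) (e γ) (Ex t.1) (idx t.1) (wb b (e γ) γ x) Z γ (g t.2 n)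
    (g t.2 (n + 1)) →
  (∀ m, m < n → (x ∈ b γ (Nat.pair k m) ↔ S t m = true)) → k ∈ Z ∩ A γ t x ∧ n ≤ k

/-- ITEM Cnt: `theorem pr_Cnt : StCnt`. The events `H_k`, `k ∈ K`, of the statement are cylinders on
the disjoint sets `{γ} × {pair k m | m < n}` of `n` bits, so given `E` they are independent of
probability `2 ^ (-n)` by `Ind`; `|K| (1 - 2 ^ (-n)) ^ |K| ≤ 2 ^ n`. (Model: `pr_Cnt` of block B,
Bd/B02.lean.) -/
def StCnt : Prop := ∀ (I X : Type) [LinearOrder I] [MeasurableSpace X] (μ : Measure X)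
  [IsProbabilityMeasure μ], (∀ s : Set X, MeasurableSet s) →
  ∀ (b : I → ℕ → Set X) (γ : I) (E : Set X), Ind μ b γ E → ∀ (n : ℕ) (s : ℕ → Bool)
  (K : Finset ℕ),
  (K.card : ENNReal) * μ (E ∩ {x | ∀ k ∈ K,
    ¬ ∀ m, m < n → (x ∈ b γ (Nat.pair k m) ↔ s m = true)}) ≤ 2 ^ n * μ E

/-- ITEM Bad: `theorem pr_Bad (h1 : StCnt) : StBad`. Sum over the values `K` of `Kx x` (model:
`pr_Bad` of block B, Bd/B01.lean, about 60 lines). -/
def StBad : Prop := ∀ (I X : Type) [LinearOrder I] [MeasurableSpace X] (μ : Measure X)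
  [IsProbabilityMeasure μ], (∀ s : Set X, MeasurableSet s) →
  ∀ (b : I → ℕ → Set X) (γ : I) (F : X → Y),
  (∀ E, MeasurableSet[Gm b F γ] E → Ind μ b γ E) → ∀ (n : ℕ) (s : ℕ → Bool) (v : ℕ)
  (Kx : X → Set ℕ), (∀ x, Kx x ⊆ Iio v) →
  (∀ K : Finset ℕ, MeasurableSet[Gm b F γ] {x | Kx x = (K : Set ℕ)}) → ∀ M : ℕ,
  (M : ENNReal) * μ {x | M ≤ (Kx x).ncard ∧ ∀ k ∈ Kx x,
    ¬ ∀ m, m < n → (x ∈ b γ (Nat.pair k m) ↔ s m = true)} ≤ 2 ^ n

/-- ITEM Main: `theorem pr_Main (h1 : StMeasA) (h2 : StKM) (h3 : StThr) (h4 : StHit) (h5 : StBad) :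
StMain`. Otherwise choose for every `x` an infinite `Z x`, almost disjoint from all `{val = j}` and
all `A α t x`. `Bits` for `chf Z` gives `γ`. For each `x` choose `t1 x` with the membership property
for `y = yb (wb b (e γ) γ x) (Z x)`, then (`StThr` for `Ex (t1 x)`) `φ x : ℕ → ℕ` with
`4 ^ u ≤ ncard (Kt .. u (φ x u))` and `t2 x` with `φ x (g (t2 x) n) ≤ g (t2 x) (n + 1)`. The sets
`{x | (t1 x, t2 x) = t}` cover `X`, so one of them, `E`, has positive measure. With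
`K_n x = Kt .. (g t.2 n) (g t.2 (n + 1))` we have `4 ^ n ≤ 4 ^ (g t.2 n) ≤ ncard (K_n x)` for
`x ∈ E`. `StBad` (measurability: `StKM`, `StMeasA`) with `M = 4 ^ n`: the set of `x` with
`4 ^ n ≤ ncard (K_n x)` such that no `k ∈ K_n x` has the address `S t` has measure at most
`2 ^ (-n)`. Borel-Cantelli: for some `x ∈ E`, for all large `n` there is such a `k`, by `StHit` it
is in `Z x ∩ A γ t x` and `≥ n`: contradiction. (Model: `pr_Main` of block B, Bd/B01.lean.) -/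
def StMain : Prop := ∀ (I X T1 T2 : Type) [LinearOrder I] [WellFoundedLT I] [MeasurableSpace X]
  (μ : Measure X) [IsProbabilityMeasure μ], (∀ s : Set X, MeasurableSet s) →
  (∀ i : I, (Iio i).Countable) →
  (∀ N : T1 × T2 → Set X, (∀ t, μ (N t) = 0) → μ (⋃ t, N t) = 0) →
  ∀ (b : I → ℕ → Set X), Bits μ b → ∀ (e : I → I → ℕ) (g : T2 → ℕ → ℕ) (S : T1 × T2 → Y)
  (F : T1 → ℕ → Set Y) (Ex : T1 → Set (T1 × T2)) (idx : T1 → T1 × T2 → ℕ)
  (A : I → T1 × T2 → X → Set ℕ), (∀ α, InjOn (e α) (Iio α)) → (∀ t, StrictMono (g t)) →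
  (∀ y : Y, ∃ t : T1, ∀ l, (fun m => y (Nat.pair l m)) ∈ F t l) →
  (∀ φ : ℕ → ℕ, ∃ t : T2, ∀ n, φ (g t n) ≤ g t (n + 1)) →
  (∀ t, (Ex t).Countable) → (∀ t, InjOn (idx t) (Ex t)) → IsSysT b e g S F Ex idx A →
  ∃ x : X, ∀ Z : Set ℕ, Z.Infinite → (∀ j, (Z ∩ {k | val k = j}).Finite) →
    ∃ α t, (Z ∩ A α t x).Infinite

/-- ITEM TX: `theorem pr_TX (h1 : S_Bits) (h2 : StRec) (h3 : StAD) (h4 : StMain) : StTX`.
`I = (ℵ₁).ord.ToType` (countable initial segments, uncountable), `e α` injective on `Iio α`,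
`T1 = T × T`, `T2 = T`, `S' = S ∘ (bijection (T × T) × T ≃ T)`, `F (a, c) l` = union of
`C (N a l')`, `l' ≤ D c l`, `Ex (a, c) = {p | ∃ l, S' p ∈ F (a, c) l}` (contained in the countable set
of the `p` with `S' p` in some `C (N a l')`), `idx (a, c)` injective on it,
`g t 0 = 0`, `g t (n + 1) = g t n + 1 + ∑ i ∈ range (g t n + 1), D t i`. Membership property: choose
`u l` with `(m ↦ y (pair l m)) ∈ C (u l)`, then `a` by `Cof`, then `c` by `Dom`. The family (for the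
`x` of `StMain`) consists of the sets `{k | val k = j}` and the infinite sets among the `A α t x`;
its cardinality is at most `ℵ₀ + ℵ₁ * #T = #T`. (`Tot.add` gives the additivity for `T1 × T2`.) -/
def StTX : Prop := ∀ (X : Type) [MeasurableSpace X] (μ : Measure X), Tot X μ →
  Cardinal.mk X ≤ Cardinal.continuum → ∀ T : Type, Cardinal.aleph0 < Cardinal.mk T →
  Cardinal.mk T < Cardinal.mk X → ∀ (S : T → Y) (C : T → Set Y) (N : T → ℕ → T) (D : T → ℕ → ℕ),
  Function.Injective S → (∀ t, IsClosed (C t)) → (∀ y, ∃ t, y ∈ C t) →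
  (∀ t, {u | S u ∈ C t}.Countable) → Cof N → Dom D →
  ∃ A : Set (Set ℕ), IsAD A ∧ B.IsMax A ∧ Cardinal.mk A ≤ Cardinal.mk T

/-! ## Part B: Borel covers -/

/-- ITEM B2C: `theorem pr_B2C : StB2C`. A Borel set is analytic (`MeasurableSet.analyticSet`): empty
or the range of a continuous `f : (ℕ → ℕ) → Y`; `C (t, u) = f '' {y | ∀ n, y n ≤ D u n}` is compact
(`isCompact_univ_pi`). -/
def StB2C : Prop := ∀ (T : Type) (D : T → ℕ → ℕ), Dom D → ∀ B : T → Set Y,
  (∀ t, MeasurableSet (B t)) → ∃ C : T × T → Set Y, (∀ p, IsClosed (C p)) ∧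
    ∀ t, ⋃ u, C (t, u) = B t

/-- ITEM DomU: `theorem pr_DomU : StDomU`. Diagonal argument, for both kinds of domination. -/
def StDomU : Prop := (∀ (T : Type) (D : T → ℕ → ℕ), Dom D → Cardinal.aleph0 < Cardinal.mk T) ∧
  ∀ D : Set (ℕ → ℕ), IsDominating D → Cardinal.aleph0 < Cardinal.mk D

/-- ITEM Crit: `theorem pr_Crit (h1 : StTX) (h2 : StB2C) (h3 : StDomU) : StCrit`. Apply `StTX` to the
closed sets `C (t, u)` of `StB2C`, reindexed by `T × T ≃ T` (`T` is infinite). -/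
def StCrit : Prop := ∀ (X : Type) [MeasurableSpace X] (μ : Measure X), Tot X μ →
  Cardinal.mk X ≤ Cardinal.continuum → ∀ T : Type, Cardinal.mk T < Cardinal.mk X →
  ∀ (S : T → Y) (Bs : T → Set Y) (N : T → ℕ → T) (D : T → ℕ → ℕ),
  Function.Injective S → (∀ t, MeasurableSet (Bs t)) → (∀ y, ∃ t, y ∈ Bs t) →
  (∀ t, {u | S u ∈ Bs t}.Countable) → Cof N → Dom D →
  ∃ A : Set (Set ℕ), IsAD A ∧ B.IsMax A ∧ Cardinal.mk A ≤ Cardinal.mk T

/-- ITEM CofD: `theorem pr_CofD : StCofD`. First part: `ν.ord.ToType` is infinite or empty or ..;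
enumerate `F t` (if it is nonempty) by `N t`; a sequence `u` has countable nonempty range. Second
part: the functions `n ↦ g n + m`, `g ∈ D`, `m ∈ ℕ`, are everywhere dominating, their number is at
most `#D * ℵ₀ ≤ ν`. -/
def StCofD : Prop :=
  (∀ ν : Cardinal.{0}, CofCountable ν → ∃ N : ν.ord.ToType → ℕ → ν.ord.ToType, Cof N) ∧
  ∀ (ν : Cardinal.{0}) (D : Set (ℕ → ℕ)), Cardinal.aleph0 ≤ ν → IsDominating D →
    Cardinal.mk D ≤ ν → ∃ D' : ν.ord.ToType → ℕ → ℕ, Dom D'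

/-- ITEM FinA: `theorem pr_FinA (h1 : StCrit) (h2 : StCofD) (h3 : StDomU) : StFinA`. -/
def StFinA : Prop := ∀ (X : Type) [MeasurableSpace X] (μ : Measure X), Tot X μ →
  Cardinal.mk X ≤ Cardinal.continuum → ∀ ν : Cardinal.{0}, ν < Cardinal.mk X → CofCountable ν →
  (∃ D : Set (ℕ → ℕ), IsDominating D ∧ Cardinal.mk D ≤ ν) →
  (∃ (B : Set (Set Y)) (S : Set Y), Cardinal.mk B ≤ ν ∧ (∀ b ∈ B, MeasurableSet b) ∧
    ⋃₀ B = univ ∧ Cardinal.mk S = ν ∧ ∀ b ∈ B, (b ∩ S).Countable) →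
  ∃ A : Set (Set ℕ), IsAD A ∧ B.IsMax A ∧ Cardinal.mk A ≤ ν

/-! ## Part C: chains in Borel preorders -/

/-- ITEM Coin: `theorem pr_Coin : StCoin`. Maximal chain `M` of `U` for comparability
(`maxChain_spec` / Zorn), `≺` a well order of `M` (`WellOrderingRel`),
`K = {t ∈ M | ∀ t' ∈ M, t' ≺ t → r t t' ∧ ¬ r t' t}` ordered by `≺`. For `y ∈ M` the `≺`-least
element `t` of `{z ∈ M | r z y}` is in `K` (for `t' ≺ t` not `r t' y`, so `r y t'`, `r t t'`, and
`r t' t` would give `r t' y`). So every `y ∈ M` has some `t ∈ K` with `r t y`. If `x ∈ U` and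
`r x t` for all `t ∈ K`, then `r x y` for all `y ∈ M`, so `x ∈ M` by maximality, so `r t x` for some
`t ∈ K`. -/
def StCoin : Prop := ∀ r : Y → Y → Prop, (∀ x, r x x) → (∀ x y z, r x y → r y z → r x z) →
  ∀ U : Set Y, ∃ (K : Type) (_ : LinearOrder K) (_ : WellFoundedLT K) (t : K → Y),
    (∀ k, t k ∈ U) ∧ Chain (fun x y => r y x) t ∧
    ∀ x ∈ U, (∃ k, ¬ r x (t k)) ∨ ∃ k, r x (t k) ∧ r (t k) x

/-- ITEM WF: `theorem pr_WF : StWF`. Restrict a chain along an order embedding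
(`c.ord.ToType` embeds into `c'.ord.ToType`, `(#J).ord.ToType` embeds into the well order `J`). -/
def StWF : Prop := (∀ c c' : Cardinal.{0}, c ≤ c' → W c' → W c) ∧
  (∀ r : Y → Y → Prop, Pre r → ∀ (J : Type) [LinearOrder J] [WellFoundedLT J] (s : J → Y),
    Chain r s → W (Cardinal.mk J)) ∧
  ∀ r : Y → Y → Prop, Pre r → Pre (fun x y => r y x)

/-- ITEM Gap: `theorem pr_Gap (h1 : StCoin) (h2 : StWF) : StGap`. For `o = some i` let
`U = {x | ∀ j < i, r (s j) x}`, for `o = none` let `U = {x | ∀ j, r (s j) x}`; `K o`, `t` from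
`StCoin`, `c o = #(K o)`. The sets `{y | ¬ r y (t k) ∧ ¬ r (s i) y}` (`o = some i`),
`{y | ¬ r y (t k)}` (`o = none`) and `{y | r y (t k) ∧ r (t k) y}`, for all `o` and `k : K o`, are
Borel and cover: for `y` take `o = some i`, `i` least with `¬ r (s i) y`, or `none`. The first kind
contains no `s j` (`r (s j) (t k)` for `j < i`, `r (s i) (s j)` for `j ≥ i`), the second at most
one (`r (s j') (t k)`, `r (t k) (s j)` contradicts `j < j'`). Their number is at most `#L`; index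
them by `L` (other `l`: the empty set; if there is no set at all then the Cantor space would be
empty). -/
def StGap : Prop := ∀ r : Y → Y → Prop, Pre r →
  ∀ (J : Type) [LinearOrder J] [WellFoundedLT J] (s : J → Y), Chain r s →
  ∃ c : Option J → Cardinal.{0}, (∀ o, W (c o)) ∧
    ∀ L : Type, Cardinal.aleph0 ≤ Cardinal.mk L → Cardinal.mk J ≤ Cardinal.mk L →
      (∀ o, c o ≤ Cardinal.mk L) → Cov L s

/-- ITEM NC: `theorem pr_NC (h1 : StWF) : StNC`. If `#X ≤ c` there is a chain `s` on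
`(#X).ord.ToType`, so a bijection gives a well order of `X` with initial segments of cardinality
`< #X` (null sets, `pr_Small`) and `f : X → Y` (measurable: all sets are) with `r (f x) (f y)` and
not `r (f y) (f x)` for `x < y`. The set `{(x, y) | r (f x) (f y)}` is measurable in `X × X`
(preimage of a Borel set); integrating over `y` first gives measure `1`, over `x` first gives `0`
(`Measure.prod_apply`, `Measure.prod_apply_symm`). -/
def StNC : Prop := ∀ (X : Type) [MeasurableSpace X] (μ : Measure X), Tot X μ →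
  ∀ c : Cardinal.{0}, W c → c < Cardinal.mk X

/-- ITEM Reg: `theorem pr_Reg : StReg`. By `pr_Small` (block B) `X` is not a union of fewer than `#X`
sets of cardinality less than `#X`. -/
def StReg : Prop := ∀ (X : Type) [MeasurableSpace X] (μ : Measure X), Tot X μ →
  (Cardinal.mk X).IsRegular

/-- ITEM PP: `theorem pr_PP : StPP`. `φ x (pair n m) = x n m`,
`R u v = ∀ᶠ n, r n (m ↦ u (pair n m)) (m ↦ v (pair n m))`. -/
def StPP : Prop := ∀ r : ℕ → Y → Y → Prop, (∀ n, Pre (r n)) →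
  ∃ (R : Y → Y → Prop) (φ : (ℕ → Y) → Y), Pre R ∧
    ∀ x y, R (φ x) (φ y) ↔ ∀ᶠ n in atTop, r n (x n) (y n)

/-- ITEM Seq: `theorem pr_Seq : StSeq`. `ν` is a limit cardinal (successors are regular). Choose
`a n < ν` nondecreasing infinite such that every cardinal `< ν` is below some `a n`;
`c n = succ (a n) < ν` is regular. Recursion on `i`: `#(Iio i) ≤ ν`, so there is an injection
`h : Iio i → ν.ord.ToType`; `E n = {j < i | h j < (a n).ord}` is an increasing sequence of sets with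
union `Iio i`, `#(E n) ≤ a n < c n`, so `{f j n | j ∈ E n}` has a strict upper bound in
`(c n).ord.ToType` (cofinality `c n`), which is `f i n`. -/
def StSeq : Prop := ∀ ν : Cardinal.{0}, Cardinal.aleph0 < ν → ν.ord.cof ≤ Cardinal.aleph0 →
  ∃ c : ℕ → Cardinal.{0}, (∀ n, c n < ν) ∧
    ∃ f : (Order.succ ν).ord.ToType → ∀ n, (c n).ord.ToType,
      ∀ i j, i < j → ∀ᶠ n in atTop, f i n < f j n

/-- ITEM Prod: `theorem pr_Prod (h1 : StPP) (h2 : StSeq) : StProd`. Chains `s n` of length `c n` in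
`r n`; the chain `i ↦ φ (n ↦ s n (f i n))` in `R`. -/
def StProd : Prop := ∀ ν : Cardinal.{0}, Cardinal.aleph0 < ν → ν.ord.cof ≤ Cardinal.aleph0 →
  (∀ c, c < ν → W c) → W (Order.succ ν)

/-- ITEM Sum: `theorem pr_Sum : StSum`. Code pairs by a Borel bijection `p : Y × Y → Y` (interleaving);
`S (m, j) = p (s' m, s m j)`. For the cover: if `B' l` contains `s' m`, take the sets
`p '' (B' l ×ˢ B m l')`, if it contains no `s' m`, take `p '' (B' l ×ˢ univ)`. Index by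
`L × L ≃ L`. -/
def StSum : Prop := ∀ (L M : Type) (J : M → Type) (s' : M → Y) (s : ∀ m, J m → Y),
  Cardinal.aleph0 ≤ Cardinal.mk L → Function.Injective s' → (∀ m, Function.Injective (s m)) →
  Cov L s' → (∀ m, Cov L (s m)) →
  ∃ S : (Σ m, J m) → Y, Function.Injective S ∧ Cov L S

/-- what we need -/
def Good (κ δ ν : Cardinal.{0}) : Prop := ν < κ ∧ δ ≤ ν ∧ Cardinal.aleph0 < ν.ord.cof ∧
  (∀ c, c < ν → W c) ∧ ∃ S : ν.ord.ToType → Y, Function.Injective S ∧ Cov ν.ord.ToType S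

/-- ITEM Case1: `theorem pr_Case1 (h1 : StGap) (h2 : StProd) : StCase1`. `cof ν > ℵ₀`, otherwise
`StProd` gives `W (succ ν)`. `S` = a chain of length `ν`; all `c o` of `StGap` are `≤ ν`. (A chain is
injective.) -/
def StCase1 : Prop := ∀ κ δ ν : Cardinal.{0}, Order.succ ν ≤ κ → Cardinal.aleph0 < δ → W δ →
  (∀ c, W c ↔ c < Order.succ ν) → Good κ δ ν

/-- ITEM Case2: `theorem pr_Case2 (h1 : StGap) (h2 : StProd) (h3 : StSum) : StCase2`. `τ < κ` as `κ` is
regular and `τ` singular; `cof τ > ℵ₀` by `StProd` (otherwise `W (succ τ)`, `succ τ < τ`). Let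
`M = (cof τ).ord.ToType` and `c m < τ`, `m ∈ M`, cardinals with supremum `τ`; chains of lengths
`c m` and `cof τ` have covers indexed by `τ.ord.ToType` by `StGap` (all chain lengths are `< τ`);
`StSum`; the sum has cardinality `τ` and is reindexed by `τ.ord.ToType`. -/
def StCase2 : Prop := ∀ κ δ τ : Cardinal.{0}, κ.IsRegular → τ ≤ κ → Cardinal.aleph0 < δ → W δ →
  (∀ c, W c ↔ c < τ) → (∀ c, c < τ → Order.succ c < τ) → τ.ord.cof < τ → Good κ δ τ

/-- ITEM Case3: `theorem pr_Case3 (h1 : StGap) (h2 : StSum) : StCase3`. `τ` is a regular limit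
cardinal, `ℵ₁ ≤ δ < τ`. For every `c < τ` fix a chain `s c` of length `c`; by `StGap` and regularity
(`#(Option c) < τ`) there is `θ c < τ` such that `Cov L (s c)` for all `L` with `θ c ≤ #L`.
Recursion along `M = (ℵ₁).ord.ToType`: cardinals `a m < τ` with `a m ≥ δ, θ ℵ₁` and
`a m > a m', θ (a m')` for `m' < m` (regularity of `τ > ℵ₁`). `ν` = supremum of the `a m`, `< τ` by
regularity; `cof ν > ℵ₀` (a countable subset of `ν` is bounded by some `a m`). `StSum` with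
`L = ν.ord.ToType`, `s'` = the chain of length `ℵ₁`; the sum of the `a m` has cardinality `ν`. -/
def StCase3 : Prop := ∀ κ δ τ : Cardinal.{0}, τ ≤ κ → Cardinal.aleph0 < δ → W δ →
  (∀ c, W c ↔ c < τ) → (∀ c, c < τ → Order.succ c < τ) → τ.ord.cof = τ → ∃ ν, Good κ δ ν

/-- ITEM Choice: `theorem pr_Choice (h1 : StWF) (h2 : StCase1) (h3 : StCase2) (h4 : StCase3) :
StChoice`. Let `τ` be the least cardinal with `¬ W τ` (`κ` is one, so `τ ≤ κ`); `W c ↔ c < τ` by
monotonicity. `τ` is a successor `succ ν` (Case1), or `succ c < τ` for all `c < τ`; then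
`cof τ < τ` (Case2) or `cof τ = τ` (Case3). -/
def StChoice : Prop := ∀ κ δ : Cardinal.{0}, κ.IsRegular → (∀ c, W c → c < κ) →
  Cardinal.aleph0 < δ → W δ → ∃ ν, Good κ δ ν

/-- ITEM Scale: `theorem pr_Scale (h1 : StWF) : StScale`. `∀ᶠ n, f n ≤ g n` is a Borel preorder of
`ℕ → ℕ`; transport it to `Y` by a Borel isomorphism
(`PolishSpace.measurableEquivOfNotCountable`). The chain `g` is injective. -/
def StScale : Prop := Scale → ∃ D : Set (ℕ → ℕ), IsDominating D ∧ W (Cardinal.mk D)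

/-- ITEM FinB: `theorem pr_FinB (h1 : StCrit) (h2 : StCofD) (h3 : StDomU) (h4 : StNC) (h5 : StReg)
(h6 : StChoice) : StFinB`. `StChoice` with `κ = #X`, `δ = #D` gives `ν`; apply `StCrit` with
`T = ν.ord.ToType`. -/
def StFinB : Prop := ∀ (X : Type) [MeasurableSpace X] (μ : Measure X), Tot X μ →
  Cardinal.mk X ≤ Cardinal.continuum →
  (∀ ν : Cardinal.{0}, ν < Cardinal.mk X → Cardinal.aleph0 < ν.ord.cof → (∀ c, c < ν → W c) →
    CofCountable ν) →
  (∃ D : Set (ℕ → ℕ), IsDominating D ∧ W (Cardinal.mk D)) →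
  ∃ A : Set (Set ℕ), IsAD A ∧ B.IsMax A ∧ Cardinal.mk A < Cardinal.mk X

end Pool.Agent.Work.MP_da56a7_lc.C
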